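import Pool.Agent.J4H27.GC.Defs3

/-!
# The choice of the points
-/

set_option autoImplicit false
set_option linter.unusedSectionVars false

open MvPolynomial Height Filter NumberField Pool.Agent.TH942

namespace Pool.Agent.J4H27.GC

variable {K : Type} [Field K] [NumberField K] [DecidableEq K]

/-- pairs of points -/
abbrev PP (a b : Fin 2 → K) : Type := (j : Fin 2) → SPt (a j) (b j)

lemma exists_cfg (hSEL : S_SEL) (a b : Fin 2 → K) (n : Fin 2 → ℕ)
    (ψ : (j : Fin 2) → SPt (a j) (b j) →+ EuclideanSpace ℝ (Fin (n j))) (C : ℝ) (hC : 0 ≤ C)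
    (hψ : ∀ j (P : SPt (a j) (b j)), |‖ψ j P‖ ^ 2 - sht P| ≤ C) (ε : ℝ) (hε : 0 < ε)
    (hε1 : ε ≤ 1) (S : Set (PP a b)) (hS : S.Infinite)
    (hSε : ∀ P ∈ S, ∀ j, ε * (sht (P 0) + sht (P 1)) ≤ sht (P j)) (m : ℕ) (κ : ℝ) (hκ : 0 < κ)
    (R : ℕ) (H : ℝ) :
    ∃ (P : Fin (m + 1) → PP a b) (k : Fin (m + 1) → ℕ), (∀ i, P i ∈ S) ∧ k 0 = 0 ∧
      H ≤ ‖ψ 0 (P 0 0)‖ ∧ (∀ i j, i < j → k i + R ≤ k j) ∧
      (∀ i j, ‖ψ j (P i j)‖ ≤ Real.sqrt (4 / ε) * ‖ψ 0 (P i 0)‖) ∧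
      ∀ i j, ‖ψ j (P i j) - (2 : ℝ) ^ k i • ψ j (P 0 j)‖ ≤ κ * 2 ^ k i * ‖ψ 0 (P 0 0)‖ := by
  classical
  -- heights tend to infinity on `S`
  have hfin : ∀ B : ℝ, {P : PP a b | P ∈ S ∧ sht (P 0) ≤ B}.Finite := by
    intro B
    have h0 := sfinite_ht (a := a 0) (b := b 0) (B / ε)
    have h1 := sfinite_ht (a := a 1) (b := b 1) (B / ε)
    have hsub : {P : PP a b | P ∈ S ∧ sht (P 0) ≤ B} ⊆
        {P : PP a b | P 0 ∈ {Q : SPt (a 0) (b 0) | sht Q ≤ B / ε} ∧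
          P 1 ∈ {Q : SPt (a 1) (b 1) | sht Q ≤ B / ε}} := by
      rintro P ⟨hP, hB⟩
      have h2 := hSε P hP 0
      have h3 : sht (P 0) + sht (P 1) ≤ B / ε := by
        rw [le_div_iff₀ hε]
        linarith
      exact ⟨by simp only [Set.mem_ofPred_eq]; linarith [sht_nonneg (P 1)],
        by simp only [Set.mem_ofPred_eq]; linarith [sht_nonneg (P 0)]⟩
    refine Set.Finite.subset ?_ hsub
    have hf : Function.Injective (fun P : PP a b => (P 0, P 1)) := by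
      intro P Q hPQ
      simp only [Prod.mk.injEq] at hPQ
      funext j
      fin_cases j
      · exact hPQ.1
      · exact hPQ.2
    have h5 : {P : PP a b | P 0 ∈ {Q : SPt (a 0) (b 0) | sht Q ≤ B / ε} ∧
          P 1 ∈ {Q : SPt (a 1) (b 1) | sht Q ≤ B / ε}} =
        (fun P : PP a b => (P 0, P 1)) ⁻¹' ({Q : SPt (a 0) (b 0) | sht Q ≤ B / ε} ×ˢ
          {Q : SPt (a 1) (b 1) | sht Q ≤ B / ε}) := by
      ext P
      simp
    rw [h5]
    exact (h0.prod h1).preimage hf.injOn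
  -- the part of `S` with large heights
  set B₀ : ℝ := 2 * C + 2 with hB₀
  set S' : Set (PP a b) := {P | P ∈ S ∧ B₀ < sht (P 0)} with hS'
  have hS'inf : S'.Infinite := by
    intro hf
    apply hS
    refine (hf.union (hfin B₀)).subset (fun P hP => ?_)
    by_cases h : sht (P 0) ≤ B₀
    · exact Or.inr ⟨hP, h⟩
    · exact Or.inl ⟨hP, not_le.1 h⟩
  set f := hS'inf.natEmbedding with hf
  set g : ℕ → PP a b := fun i => (f i : PP a b) with hg
  have hgS : ∀ i, g i ∈ S' := fun i => (f i).2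
  have hginj : Function.Injective g := fun i j hij => f.injective (Subtype.ext hij)
  have htend : Tendsto (fun i => ‖ψ 0 (g i 0)‖) atTop atTop := by
    rw [tendsto_atTop]
    intro B
    have h1 : {i : ℕ | ¬ B ≤ ‖ψ 0 (g i 0)‖}.Finite := by
      have h2 := (hfin (B ^ 2 + C)).preimage (hginj.injOn (s := g ⁻¹'
        {P : PP a b | P ∈ S ∧ sht (P 0) ≤ B ^ 2 + C}))
      refine h2.subset (fun i hi => ?_)
      simp only [Set.mem_ofPred_eq, not_le] at hi
      refine ⟨(hgS i).1, ?_⟩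
      have h3 := (abs_le.1 (hψ 0 (g i 0))).1
      have h4 : ‖ψ 0 (g i 0)‖ ^ 2 ≤ B ^ 2 := pow_le_pow_left₀ (norm_nonneg _) hi.le 2
      linarith
    rw [← Nat.cofinite_eq_atTop]
    exact h1
  have hb : 0 < Real.sqrt (4 / ε) := Real.sqrt_pos.2 (by positivity)
  have hb1 : 1 ≤ Real.sqrt (4 / ε) := by
    rw [Real.one_le_sqrt, le_div_iff₀ hε]
    linarith
  have hbd : ∀ i, ‖ψ 1 (g i 1)‖ ≤ Real.sqrt (4 / ε) * ‖ψ 0 (g i 0)‖ := fun i => by
      have h1 := (hgS i).2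
      have h2 := hSε _ (hgS i).1 0
      have h3 := abs_le.1 (hψ 0 (g i 0))
      have h4 := abs_le.1 (hψ 1 (g i 1))
      have h5 : ‖ψ 1 (g i 1)‖ ^ 2 ≤ (4 / ε) * ‖ψ 0 (g i 0)‖ ^ 2 := by
        have h6 : ε * ‖ψ 1 (g i 1)‖ ^ 2 ≤ 4 * ‖ψ 0 (g i 0)‖ ^ 2 := by
          have h7 : ε * ‖ψ 1 (g i 1)‖ ^ 2 ≤ ε * (sht (g i 1) + C) :=
            mul_le_mul_of_nonneg_left (by linarith) hε.le
          have h8 : 0 ≤ ε * sht (g i 0) := mul_nonneg hε.le (sht_nonneg _)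
          have h9 : ε * C ≤ C := by nlinarith
          nlinarith
        rw [div_mul_eq_mul_div, le_div_iff₀ hε]
        linarith
      refine abs_le_of_sq_le_sq' ?_ (by positivity) |>.2
      rw [mul_pow, Real.sq_sqrt (by positivity)]
      exact h5
  obtain ⟨s, k, hk0, hH, hk, hcl⟩ := hSEL (n 0) (n 1) (fun i => ψ 0 (g i 0)) (fun i => ψ 1 (g i 1))
    (Real.sqrt (4 / ε)) hb hbd htend m κ hκ R H
  refine ⟨fun i => g (s i), k, fun i => (hgS _).1, hk0, hH, hk, fun i j => ?_, fun i j => ?_⟩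
  · fin_cases j
    · have h1 := mul_le_mul_of_nonneg_right hb1 (norm_nonneg (ψ 0 (g (s i) 0)))
      rw [one_mul] at h1
      exact h1
    · exact hbd (s i)
  fin_cases j
  · exact (hcl i).1
  · exact (hcl i).2

omit [DecidableEq K] [NumberField K] [Field K] in
lemma param (q m d M N : ℕ) (D k T : Fin m → ℕ) (ε A C Cp lam U κ : ℝ) (hm : m = q ^ 2)
    (hq : 1 ≤ q) (hM : 1 ≤ M) (hN : 1 ≤ N) (hd : 1 ≤ d) (hD : ∀ i, D i * 4 ^ k i = d)
    (hDN : ∀ i, N ≤ D i) (hNd : N ≤ d) (hT : ∀ i, 32 * q * T i = D i) (hNm : 8 * m ≤ N)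
    (hMm : 8 * (m + 1) ≤ M) (hε : 0 < ε) (hA : 1 ≤ A) (hC : 0 ≤ C) (hCp : 0 ≤ Cp)
    (hlam : 0 ≤ lam) (hκ : 2 * m * κ ^ 2 ≤ 1) (hqA : 768 * A ≤ q * ε)
    (h0 : Fin 2 → ℝ) (hi hV : Fin m → Fin 2 → ℝ) (g : Fin m → ℝ) (s0 : Fin 2 → ℝ)
    (si : Fin m → Fin 2 → ℝ) (b1 : ∀ j, h0 j ≤ A * U ^ 2 + C)
    (b2 : ∀ i j, hi i j ≤ A * 4 ^ k i * U ^ 2 + C)
    (b3 : ∀ i, ε * (4 ^ k i * U ^ 2 / 4 - C) ≤ g i)
    (b4 : ∀ i j, 2 * hi i j + 2 * 4 ^ k i * h0 j - hV i j ≤ 4 ^ k i * (κ ^ 2 * U ^ 2 + 5 * C))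
    (s1 : ∀ j, 0 ≤ s0 j ∧ M * s0 j ≤ d) (s2 : ∀ i j, 0 ≤ si i j ∧ M * si i j ≤ D i)
    (PF : ∑ i, (T i : ℝ) * g i + ∑ i, ∑ j, (D i : ℝ) * hV i j ≤
      Cp * (d + (∑ j, s0 j + ∑ i, ∑ j, si i j) + d * lam) +
      (d + 2 * m * d + 2 * m) * ∑ j, h0 j + ∑ i, ∑ j, (2 * (D i : ℝ) + 2) * hi i j +
      2 * (∑ j, s0 j * h0 j + ∑ i, ∑ j, si i j * hi i j))
    (hU : Cp * (2 * m + 3 + lam) + (4 + 10 * m) * C + q * ε * C < U ^ 2) : False := by
  have hdr : (1 : ℝ) ≤ d := by exact_mod_cast hd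
  have hDr : ∀ i, (D i : ℝ) * 4 ^ k i = d := fun i => by exact_mod_cast hD i
  have hD0 : ∀ i, (0 : ℝ) ≤ D i := fun i => Nat.cast_nonneg _
  have h4 : ∀ i, (1 : ℝ) ≤ 4 ^ k i := fun i => one_le_pow₀ (by norm_num)
  have hDd : ∀ i, (D i : ℝ) ≤ d := fun i => by
    rw [← hDr i]
    exact le_mul_of_one_le_right (hD0 i) (h4 i)
  have hqr : (1 : ℝ) ≤ q := by exact_mod_cast hq
  have hmr : (m : ℝ) = (q : ℝ) ^ 2 := by rw [hm]; push_cast; ring
  have hm0 : (0 : ℝ) ≤ m := Nat.cast_nonneg _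
  have hMr : (1 : ℝ) ≤ M := by exact_mod_cast hM
  have hNr : (1 : ℝ) ≤ N := by exact_mod_cast hN
  have hNdr : (N : ℝ) ≤ d := by exact_mod_cast hNd
  have hNmr : 8 * (m : ℝ) ≤ N := by exact_mod_cast hNm
  have hMmr : 8 * ((m : ℝ) + 1) ≤ M := by exact_mod_cast hMm
  have hW : 0 ≤ A * U ^ 2 + C := by positivity
  set W : ℝ := A * U ^ 2 + C with hWdef
  -- X1
  have hX1 : (q * ε / 32) * (d * (U ^ 2 / 4 - C)) ≤ ∑ i, (T i : ℝ) * g i := by
    have h1 : ∀ i, (ε / (32 * q)) * (d * (U ^ 2 / 4 - C)) ≤ (T i : ℝ) * g i := by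
      intro i
      have hTi : (T i : ℝ) = D i / (32 * q) := by
        rw [eq_div_iff (by positivity)]
        have := hT i
        have h2 : (32 : ℝ) * q * T i = D i := by exact_mod_cast this
        linarith
      have h2 := mul_le_mul_of_nonneg_left (b3 i) (Nat.cast_nonneg (α := ℝ) (T i))
      refine le_trans ?_ h2
      rw [hTi]
      have h3 : (D i : ℝ) / (32 * q) * (ε * (4 ^ k i * U ^ 2 / 4 - C)) =
          (ε / (32 * q)) * ((D i * 4 ^ k i) * U ^ 2 / 4 - D i * C) := by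
        field_simp
      rw [h3, hDr i]
      refine mul_le_mul_of_nonneg_left ?_ (by positivity)
      have := mul_le_mul_of_nonneg_right (hDd i) hC
      nlinarith
    have h2 := Finset.sum_le_sum (fun i (_ : i ∈ Finset.univ) => h1 i)
    rw [Finset.sum_const, Finset.card_univ, Fintype.card_fin, nsmul_eq_mul] at h2
    refine le_trans (le_of_eq ?_) h2
    rw [hmr]
    field_simp
  -- X2
  have hX2 : ∑ i, ∑ j, (2 * (D i : ℝ)) * hi i j + 2 * m * d * ∑ j, h0 j -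
      ∑ i, ∑ j, (D i : ℝ) * hV i j ≤ 2 * m * d * (κ ^ 2 * U ^ 2 + 5 * C) := by
    have e1 : 2 * m * d * ∑ j, h0 j = ∑ i, ∑ j, (D i : ℝ) * (2 * 4 ^ k i * h0 j) := by
      have : ∀ i : Fin m, ∑ j, (D i : ℝ) * (2 * 4 ^ k i * h0 j) = 2 * d * ∑ j, h0 j := by
        intro i
        rw [Finset.mul_sum]
        refine Finset.sum_congr rfl (fun j _ => ?_)
        rw [← hDr i]
        ring
      rw [Finset.sum_congr rfl (fun i _ => this i), Finset.sum_const, Finset.card_univ,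
        Fintype.card_fin, nsmul_eq_mul]
      ring
    rw [e1, ← Finset.sum_add_distrib, ← Finset.sum_sub_distrib]
    have h1 : ∀ i : Fin m, (∑ j, (2 * (D i : ℝ)) * hi i j + ∑ j, (D i : ℝ) * (2 * 4 ^ k i * h0 j)) -
        ∑ j, (D i : ℝ) * hV i j ≤ 2 * (d * (κ ^ 2 * U ^ 2 + 5 * C)) := by
      intro i
      rw [← Finset.sum_add_distrib, ← Finset.sum_sub_distrib]
      have h2 : ∀ j : Fin 2, (2 * (D i : ℝ)) * hi i j + (D i : ℝ) * (2 * 4 ^ k i * h0 j) -
          (D i : ℝ) * hV i j ≤ d * (κ ^ 2 * U ^ 2 + 5 * C) := by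
        intro j
        have h3 := mul_le_mul_of_nonneg_left (b4 i j) (hD0 i)
        have e2 : (D i : ℝ) * (4 ^ k i * (κ ^ 2 * U ^ 2 + 5 * C)) =
            d * (κ ^ 2 * U ^ 2 + 5 * C) := by
          rw [← hDr i]
          ring
        rw [e2] at h3
        nlinarith
      have h3 := Finset.sum_le_sum (fun j (_ : j ∈ Finset.univ) => h2 j)
      rw [Finset.sum_const, Finset.card_univ, Fintype.card_fin, nsmul_eq_mul] at h3
      push_cast at h3
      exact h3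
    have h3 := Finset.sum_le_sum (fun i (_ : i ∈ Finset.univ) => h1 i)
    rw [Finset.sum_const, Finset.card_univ, Fintype.card_fin, nsmul_eq_mul] at h3
    refine h3.trans (le_of_eq ?_)
    ring
  -- X3
  have hX3a : ∑ j, h0 j ≤ 2 * W := by
    have h3 := Finset.sum_le_sum (fun j (_ : j ∈ Finset.univ) => b1 j)
    rw [Finset.sum_const, Finset.card_univ, Fintype.card_fin, nsmul_eq_mul] at h3
    push_cast at h3
    exact h3
  have hX3 : (d + 2 * m) * ∑ j, h0 j ≤ (5 / 4 * d) * (2 * W) := by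
    have h1 := mul_le_mul_of_nonneg_left hX3a (by positivity : (0 : ℝ) ≤ d + 2 * m)
    refine h1.trans (mul_le_mul_of_nonneg_right ?_ (by positivity))
    linarith
  -- the bound for `hi`
  have hhi : ∀ i j, (D i : ℝ) * hi i j ≤ d * W := by
    intro i j
    have h1 := mul_le_mul_of_nonneg_left (b2 i j) (hD0 i)
    refine h1.trans ?_
    have e2 : (D i : ℝ) * (A * 4 ^ k i * U ^ 2 + C) = d * (A * U ^ 2) + D i * C := by
      rw [← hDr i]
      ring
    rw [e2, hWdef]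
    have := mul_le_mul_of_nonneg_right (hDd i) hC
    nlinarith
  have hbd0 : ∀ i, 0 ≤ A * 4 ^ k i * U ^ 2 + C := fun i => by positivity
  -- X4
  have hX4 : ∑ i, ∑ j, 2 * hi i j ≤ d * W / 2 := by
    have h1 : ∀ i j, (N : ℝ) * (2 * hi i j) ≤ 2 * (d * W) := by
      intro i j
      have hNi : (N : ℝ) ≤ D i := by exact_mod_cast hDN i
      have h2 : (N : ℝ) * hi i j ≤ N * (A * 4 ^ k i * U ^ 2 + C) :=
        mul_le_mul_of_nonneg_left (b2 i j) (by positivity)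
      have h3 := mul_le_mul_of_nonneg_right hNi (hbd0 i)
      have e2 : (D i : ℝ) * (A * 4 ^ k i * U ^ 2 + C) = d * (A * U ^ 2) + D i * C := by
        rw [← hDr i]
        ring
      have := mul_le_mul_of_nonneg_right (hDd i) hC
      rw [hWdef]
      nlinarith
    have h2 : (N : ℝ) * ∑ i, ∑ j, 2 * hi i j ≤ m * (2 * (2 * (d * W))) := by
      rw [Finset.mul_sum]
      have h3 : ∀ i : Fin m, (N : ℝ) * ∑ j, 2 * hi i j ≤ 2 * (2 * (d * W)) := by
        intro i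
        rw [Finset.mul_sum]
        have h4 := Finset.sum_le_sum (fun j (_ : j ∈ Finset.univ) => h1 i j)
        rw [Finset.sum_const, Finset.card_univ, Fintype.card_fin, nsmul_eq_mul] at h4
        push_cast at h4
        exact h4
      have h4 := Finset.sum_le_sum (fun i (_ : i ∈ Finset.univ) => h3 i)
      rw [Finset.sum_const, Finset.card_univ, Fintype.card_fin, nsmul_eq_mul] at h4
      exact h4
    have hdW : 0 ≤ (d : ℝ) * W := mul_nonneg (by positivity) hW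
    have h3 : (m : ℝ) * (2 * (2 * (d * W))) ≤ N * (d * W / 2) := by nlinarith
    exact le_of_mul_le_mul_left (h2.trans h3) (by positivity)
  -- X5
  have hX5 : 2 * (∑ j, s0 j * h0 j + ∑ i, ∑ j, si i j * hi i j) ≤ d * W / 2 := by
    have h1 : ∀ j, (M : ℝ) * (s0 j * h0 j) ≤ d * W := by
      intro j
      have h2 := mul_le_mul_of_nonneg_left (b1 j) (mul_nonneg (zero_le_one.trans hMr) (s1 j).1)
      have h3 := mul_le_mul_of_nonneg_right (s1 j).2 hW
      nlinarith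
    have h2 : ∀ i j, (M : ℝ) * (si i j * hi i j) ≤ d * W := by
      intro i j
      have h2 := mul_le_mul_of_nonneg_left (b2 i j) (mul_nonneg (zero_le_one.trans hMr) (s2 i j).1)
      have h3 := mul_le_mul_of_nonneg_right (s2 i j).2 (hbd0 i)
      have e2 : (D i : ℝ) * (A * 4 ^ k i * U ^ 2 + C) = d * (A * U ^ 2) + D i * C := by
        rw [← hDr i]
        ring
      have := mul_le_mul_of_nonneg_right (hDd i) hC
      rw [hWdef]
      nlinarith
    have h3 : (M : ℝ) * ∑ j, s0 j * h0 j ≤ 2 * (d * W) := by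
      rw [Finset.mul_sum]
      have h4 := Finset.sum_le_sum (fun j (_ : j ∈ Finset.univ) => h1 j)
      rw [Finset.sum_const, Finset.card_univ, Fintype.card_fin, nsmul_eq_mul] at h4
      push_cast at h4
      exact h4
    have h4 : (M : ℝ) * ∑ i, ∑ j, si i j * hi i j ≤ m * (2 * (d * W)) := by
      rw [Finset.mul_sum]
      have h3 : ∀ i : Fin m, (M : ℝ) * ∑ j, si i j * hi i j ≤ 2 * (d * W) := by
        intro i
        rw [Finset.mul_sum]
        have h4 := Finset.sum_le_sum (fun j (_ : j ∈ Finset.univ) => h2 i j)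
        rw [Finset.sum_const, Finset.card_univ, Fintype.card_fin, nsmul_eq_mul] at h4
        push_cast at h4
        exact h4
      have h4 := Finset.sum_le_sum (fun i (_ : i ∈ Finset.univ) => h3 i)
      rw [Finset.sum_const, Finset.card_univ, Fintype.card_fin, nsmul_eq_mul] at h4
      exact h4
    have hdW : 0 ≤ (d : ℝ) * W := mul_nonneg (by positivity) hW
    have h5 : (M : ℝ) * (2 * (∑ j, s0 j * h0 j + ∑ i, ∑ j, si i j * hi i j)) ≤
        M * (d * W / 2) := by nlinarith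
    exact le_of_mul_le_mul_left h5 (by positivity)
  -- X6
  have hX6 : ∑ j, s0 j + ∑ i, ∑ j, si i j ≤ (2 * m + 2) * d := by
    have h1 : ∀ j, s0 j ≤ d := fun j => by
      have := s1 j
      nlinarith
    have h2 : ∀ i j, si i j ≤ d := fun i j => by
      have h3 := s2 i j
      have h4 := hDd i
      nlinarith
    have h3 := Finset.sum_le_sum (fun j (_ : j ∈ Finset.univ) => h1 j)
    rw [Finset.sum_const, Finset.card_univ, Fintype.card_fin, nsmul_eq_mul] at h3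
    have h4 : ∀ i : Fin m, ∑ j, si i j ≤ 2 * d := by
      intro i
      have h4 := Finset.sum_le_sum (fun j (_ : j ∈ Finset.univ) => h2 i j)
      rw [Finset.sum_const, Finset.card_univ, Fintype.card_fin, nsmul_eq_mul] at h4
      push_cast at h4
      exact h4
    have h5 := Finset.sum_le_sum (fun i (_ : i ∈ Finset.univ) => h4 i)
    rw [Finset.sum_const, Finset.card_univ, Fintype.card_fin, nsmul_eq_mul] at h5
    push_cast at h3
    nlinarith
  have e7 : ∑ i, ∑ j, (2 * (D i : ℝ) + 2) * hi i j =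
      ∑ i, ∑ j, (2 * (D i : ℝ)) * hi i j + ∑ i, ∑ j, 2 * hi i j := by
    simp_rw [add_mul, Finset.sum_add_distrib]
  rw [e7] at PF
  have h8 : Cp * (d + (∑ j, s0 j + ∑ i, ∑ j, si i j) + d * lam) ≤
      d * (Cp * (2 * m + 3 + lam)) := by
    have : d + (∑ j, s0 j + ∑ i, ∑ j, si i j) + d * lam ≤ d * (2 * m + 3 + lam) := by nlinarith
    have := mul_le_mul_of_nonneg_left this hCp
    nlinarith
  have h9 : (d + 2 * m * d + 2 * m) * ∑ j, h0 j = (d + 2 * m) * ∑ j, h0 j +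
      2 * m * d * ∑ j, h0 j := by ring
  rw [h9] at PF
  have h10 : 2 * m * d * (κ ^ 2 * U ^ 2 + 5 * C) ≤ d * (U ^ 2 + 10 * m * C) := by
    have : 2 * m * κ ^ 2 * U ^ 2 ≤ 1 * U ^ 2 := mul_le_mul_of_nonneg_right hκ (sq_nonneg _)
    nlinarith
  have h11 : (q * ε / 32) * (d * (U ^ 2 / 4 - C)) ≤ d * (Cp * (2 * m + 3 + lam)) +
      (5 / 4 * d) * (2 * W) + d * (U ^ 2 + 10 * m * C) + d * W / 2 + d * W / 2 := by
    linarith
  have h12 : (q * ε / 32) * (U ^ 2 / 4 - C) ≤ Cp * (2 * m + 3 + lam) + 5 / 2 * W +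
      (U ^ 2 + 10 * m * C) + W := by
    have h13 : (d : ℝ) * ((q * ε / 32) * (U ^ 2 / 4 - C)) ≤ d * (Cp * (2 * m + 3 + lam) +
        5 / 2 * W + (U ^ 2 + 10 * m * C) + W) := by linarith
    exact le_of_mul_le_mul_left h13 (by linarith)
  have h14 : 6 * A * U ^ 2 ≤ (q * ε / 32) * (U ^ 2 / 4) := by
    have := mul_le_mul_of_nonneg_right hqA (sq_nonneg U)
    linarith
  have hU2 := sq_nonneg U
  have hAU : U ^ 2 ≤ A * U ^ 2 := by nlinarith
  have hqe : 0 ≤ (q : ℝ) * ε * C := by positivity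
  rw [hWdef] at h12
  linarith

end Pool.Agent.J4H27.GC
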