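import Pool.Agent.TH942.FG
import Pool.Agent.TH942.Par

/-!
# Common divisors of points on two elliptic curves: statements of the parts (project GC)

`hp P`        height of the vector of the coefficients of `P`
`tr a P`      the polynomial `P (X + a)`
`Ow w a P t`  the order of `P` at the point `a`, for the weights `w`, is at least `t`
`Nd w P`      sum of the partial degrees of `P` with the weights `w`
-/

set_option autoImplicit false

open MvPolynomial Height Filter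

namespace Pool.Agent.J4H27.GC

/-- height of a polynomial over a number field -/
noncomputable def hp {σ K : Type} [Field K] [NumberField K] (P : MvPolynomial σ K) : ℝ :=
  logHeight (fun s : P.support => P.coeff s)

/-- translation -/
noncomputable def tr {σ K : Type} [Field K] (a : σ → K) (P : MvPolynomial σ K) :
    MvPolynomial σ K := aeval (fun i => X i + C (a i)) P

/-- the order of `P` at `a`, for the weights `w`, is at least `t` -/
def Ow {σ K : Type} [Fintype σ] [Field K] (w : σ → ℕ) (a : σ → K) (P : MvPolynomial σ K)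
    (t : ℕ) : Prop := ∀ s ∈ (tr a P).support, t ≤ ∑ i, w i * s i

/-- weighted sum of the partial degrees -/
noncomputable def Nd {σ K : Type} [Fintype σ] [Field K] (w : σ → ℕ) (P : MvPolynomial σ K) : ℕ :=
  ∑ i, w i * P.degreeOf i

/-- GEL: Gelfond's inequality for arbitrary products of polynomials in `n` variables -/
def S_GEL : Prop := ∀ (K : Type) [Field K] [NumberField K] (n : ℕ), ∃ γ : ℝ, 0 ≤ γ ∧
  ∀ s : Multiset (MvPolynomial (Fin n) K), (∀ P ∈ s, P ≠ 0) →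
    (s.map hp).sum ≤ hp s.prod + γ * ∑ i, (s.prod.degreeOf i : ℝ)

/-- RES: the resultant with respect to the variable `0` -/
def S_RES : Prop := ∀ (K : Type) [Field K] [NumberField K] (n : ℕ), ∃ γ : ℝ, 0 ≤ γ ∧
  ∀ P Q : MvPolynomial (Fin (n + 1)) K, Irreducible P → 0 < P.degreeOf 0 → Q ≠ 0 → ¬ P ∣ Q →
    (∀ i, Q.degreeOf i ≤ P.degreeOf i) →
    ∃ R : MvPolynomial (Fin n) K, R ≠ 0 ∧
      (∀ i, R.degreeOf i ≤ 2 * P.degreeOf 0 * P.degreeOf i.succ) ∧
      hp R ≤ P.degreeOf 0 * (hp P + hp Q + γ * ∑ i, (P.degreeOf i : ℝ)) ∧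
      ∀ (w : Fin (n + 1) → ℕ) (a : Fin (n + 1) → K) (t : ℕ), Ow w a P t → Ow w a Q t →
        Ow (fun i : Fin n => w i.succ) (fun i : Fin n => a i.succ) R
          (∑ c ∈ Finset.range (P.degreeOf 0), (t - c * w 0))

/-- ZL: the zero lemma -/
def S_ZL : Prop := ∀ (K : Type) [Field K] [NumberField K] (σ : Type) [Fintype σ] [DecidableEq σ]
  (c B : ℝ), 0 < c → 0 ≤ B → ∃ (R : ℕ) (H Δ B' : ℝ), ∀ (w : σ → ℕ) (a : σ → K),
  (∀ i, 0 < w i) → (∀ i j, w i < w j → R * w i ≤ w j) →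
  (∀ i j k, w i = w j → w j = w k → i = j ∨ j = k ∨ i = k) →
  (∀ i, H * w i ≤ logHeight₁ (a i)) →
  ∀ (P : MvPolynomial σ K) (t : ℕ), P ≠ 0 → 0 < t → Ow w a P t → c * Nd w P ≤ t →
    hp P ≤ B * t →
    ∃ (i j : σ) (Q : MvPolynomial σ K), i ≠ j ∧ w i = w j ∧ Irreducible Q ∧ Q.vars ⊆ {i, j} ∧
      0 < Q.degreeOf i ∧ 0 < Q.degreeOf j ∧ (Q.degreeOf i : ℝ) + Q.degreeOf j ≤ Δ ∧
      eval a Q = 0 ∧ hp Q ≤ B' * w i

/-- QE: quasi-equivalence of heights on plane curves, uniform in the curve -/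
def S_QE : Prop := ∀ (K : Type) [Field K] [NumberField K] (σ : Type) [Fintype σ] [DecidableEq σ]
  (α β : ℕ), 0 < α → 0 < β → ∀ τ : ℝ, 0 < τ → ∃ C : ℝ, ∀ (Q : MvPolynomial σ K) (i j : σ),
  i ≠ j → Irreducible Q → Q.vars ⊆ {i, j} → Q.degreeOf i = α → Q.degreeOf j = β →
  ∀ a : σ → K, eval a Q = 0 →
    |(α : ℝ) * logHeight₁ (a i) - β * logHeight₁ (a j)| ≤
      τ * (logHeight₁ (a i) + logHeight₁ (a j)) + C * (hp Q + 1)

/-- SEL: choice of nearly parallel vectors whose lengths are nearly in the ratios `2 ^ k i` -/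
def S_SEL : Prop := ∀ (p q : ℕ) (u : ℕ → EuclideanSpace ℝ (Fin p))
  (v : ℕ → EuclideanSpace ℝ (Fin q)) (b : ℝ), 0 < b → (∀ n, ‖v n‖ ≤ b * ‖u n‖) →
  Tendsto (fun n => ‖u n‖) atTop atTop → ∀ (m : ℕ) (κ : ℝ), 0 < κ → ∀ (R : ℕ) (H : ℝ),
  ∃ s k : Fin (m + 1) → ℕ, k 0 = 0 ∧ H ≤ ‖u (s 0)‖ ∧ (∀ i j, i < j → k i + R ≤ k j) ∧
    ∀ i, ‖u (s i) - (2 : ℝ) ^ k i • u (s 0)‖ ≤ κ * 2 ^ k i * ‖u (s 0)‖ ∧
      ‖v (s i) - (2 : ℝ) ^ k i • v (s 0)‖ ≤ κ * 2 ^ k i * ‖u (s 0)‖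

/-- EMB: the theorems of Mordell-Weil and Néron for `y² = x³ + a x + b`; `sht` is the logarithmic
height of the `x`-coordinate -/
def S_EMB : Prop := ∀ (K : Type) [Field K] [NumberField K] [DecidableEq K] (a b : K),
  4 * a ^ 3 + 27 * b ^ 2 ≠ 0 →
  ∃ (n : ℕ) (ψ : Pool.Agent.TH942.SPt a b →+ EuclideanSpace ℝ (Fin n)) (C : ℝ),
    ∀ P : Pool.Agent.TH942.SPt a b, |‖ψ P‖ ^ 2 - Pool.Agent.TH942.sht P| ≤ C

/-- GEN: a nonzero polynomial does not vanish at all the points of a large product of pairs -/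
def S_GEN : Prop := ∀ (F : Type) [Field F] (σ : Type) [Fintype σ] [DecidableEq σ]
  (S : σ → Set (F × F)),
  (∀ i (A : Set F), A.Finite → ∃ p ∈ S i, p.1 ∉ A ∧ p.2 ∉ A) →
  ∀ P : MvPolynomial σ F, P ≠ 0 → ∃ p : σ → F × F, (∀ i, p i ∈ S i) ∧
    ∀ e : σ → Bool, eval (fun i => if e i then (p i).1 else (p i).2) P ≠ 0

end Pool.Agent.J4H27.GC
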