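import Pool.Agent.J4H27.GC.Defs

/-!
# Project GC: division polynomials for powers of `2`, norms, and statements of further parts
-/

set_option autoImplicit false

open MvPolynomial Height Filter NumberField

namespace Pool.Agent.J4H27.GC

section doubling

variable {R : Type} [CommRing R]

/-- numerator of `x (2 ^ k P)` (first component), denominator (second component) -/
noncomputable def dp (a b : R) : ℕ → Polynomial R × Polynomial R
  | 0 => (Polynomial.X, 1)
  | k + 1 =>
    let p := (dp a b k).1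
    let q := (dp a b k).2
    (p ^ 4 - 2 * Polynomial.C a * p ^ 2 * q ^ 2 - 8 * Polynomial.C b * p * q ^ 3 +
      Polynomial.C a ^ 2 * q ^ 4,
      4 * q * (p ^ 3 + Polynomial.C a * p * q ^ 2 + Polynomial.C b * q ^ 3))

/-- numerator of `x (2 ^ k P)` -/
noncomputable def phi (a b : R) (k : ℕ) : Polynomial R := (dp a b k).1

/-- denominator of `x (2 ^ k P)` -/
noncomputable def psi (a b : R) (k : ℕ) : Polynomial R := (dp a b k).2

/-- `y (2 ^ k P) = y (P) * om (x (P)) / psi (x (P)) ^ 2` -/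
noncomputable def om (a b : R) : ℕ → Polynomial R
  | 0 => 1
  | k + 1 =>
    let p := phi a b k
    let q := psi a b k
    2 * om a b k * (p ^ 6 + 5 * Polynomial.C a * p ^ 4 * q ^ 2 +
      20 * Polynomial.C b * p ^ 3 * q ^ 3 - 5 * Polynomial.C a ^ 2 * p ^ 2 * q ^ 4 -
      4 * Polynomial.C a * Polynomial.C b * p * q ^ 5 -
      (8 * Polynomial.C b ^ 2 + Polynomial.C a ^ 3) * q ^ 6)

end doubling

/-- DBL: formulas for `2 ^ k P` and for `x (P + 2 ^ k Q)`. Points with coordinates `x y` are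
`WeierstrassCurve.Affine.Point.some x y h`. -/
def S_DBL : Prop := ∀ (K : Type) [Field K] [CharZero K] [DecidableEq K] (a b : K),
  4 * a ^ 3 + 27 * b ^ 2 ≠ 0 →
  (∀ (k : ℕ) (x y : K) (h : (Pool.Agent.TH942.sw a b).toAffine.Nonsingular x y),
    2 ^ k • (WeierstrassCurve.Affine.Point.some x y h) ≠ 0 →
      (psi a b k).eval x ≠ 0 ∧ ∃ h', 2 ^ k • (WeierstrassCurve.Affine.Point.some x y h) =
        .some ((phi a b k).eval x / (psi a b k).eval x)
          (y * (om a b k).eval x / (psi a b k).eval x ^ 2) h') ∧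
  ∀ (k : ℕ) (x y x0 y0 : K) (h : (Pool.Agent.TH942.sw a b).toAffine.Nonsingular x y)
    (h0 : (Pool.Agent.TH942.sw a b).toAffine.Nonsingular x0 y0),
    2 ^ k • (WeierstrassCurve.Affine.Point.some x0 y0 h0) ≠ 0 →
    WeierstrassCurve.Affine.Point.some x y h + 2 ^ k • (.some x0 y0 h0) ≠ 0 →
    ∃ (V W : K) (h' : (Pool.Agent.TH942.sw a b).toAffine.Nonsingular V W),
      WeierstrassCurve.Affine.Point.some x y h + 2 ^ k • (.some x0 y0 h0) = .some V W h' ∧
      let p := (phi a b k).eval x0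
      let q := (psi a b k).eval x0
      let N := (x * q + p) * (x * p + a * q) + 2 * b * q ^ 2
      let T := 2 * y * y0 * (om a b k).eval x0
      V * (x * q - p) ^ 2 = N - T ∧
      V * (N + T) = (x * p - a * q) ^ 2 - 4 * b * q * (x * q + p) ∧
      ((x * q - p) ^ 2 ≠ 0 ∨ N + T ≠ 0)

/-- the length of a polynomial over the ring of integers -/
noncomputable def len {σ K : Type} [Field K] [NumberField K] (P : MvPolynomial σ (𝓞 K)) : ℝ :=
  ∑ s ∈ P.support, house ((P.coeff s : 𝓞 K) : K)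

/-- NORM: norms with respect to several square roots `θ j` of polynomials `f j` -/
def S_NORM : Prop := ∀ (K : Type) [Field K] [NumberField K] (σ J : Type) [Fintype σ]
  [DecidableEq σ] [Fintype J] [DecidableEq J] (f : J → MvPolynomial σ (𝓞 K)), ∃ C : ℕ, 0 < C ∧
  ∀ (G : MvPolynomial J (MvPolynomial σ (𝓞 K))) (δ : σ → ℕ) (L : ℝ), 1 ≤ L →
    (∀ s ∈ G.support, ∀ j, s j ≤ 1) → (∀ s v, (G.coeff s).degreeOf v ≤ δ v) →
    (∀ s, len (G.coeff s) ≤ L) →
    ∃ P : MvPolynomial σ (𝓞 K), (∀ v, P.degreeOf v ≤ C * (δ v + 1)) ∧ len P ≤ (C * L) ^ C ∧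
      ∀ (S : Type) [CommRing S] (g : MvPolynomial σ (𝓞 K) →+* S) (θ : J → S),
        (∀ j, θ j ^ 2 = g (f j)) →
        g P = ∏ e : J → Bool, eval₂ g (fun j => if e j then θ j else -θ j) G

/-- SQ: the power series of `y` in a parameter at a point `(x, h)`, with integral coefficients -/
def S_SQ : Prop := ∀ (K : Type) [Field K] [NumberField K] (a b : 𝓞 K), ∃ C : ℝ, 1 ≤ C ∧
  ∀ x h : K, h ^ 2 = x ^ 3 + (a : K) * x + (b : K) → h ≠ 0 →
    ∃ E : PowerSeries K, PowerSeries.constantCoeff E = 1 ∧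
      (PowerSeries.C h * E) ^ 2 =
        (PowerSeries.C x + PowerSeries.C (4 * h ^ 2) * PowerSeries.X) ^ 3 +
        PowerSeries.C (a : K) * (PowerSeries.C x + PowerSeries.C (4 * h ^ 2) * PowerSeries.X) +
        PowerSeries.C (b : K) ∧
      (∀ (v : FinitePlace K) (n : ℕ), v (PowerSeries.coeff n E) ≤ (max 1 (v x)) ^ (2 * n)) ∧
      ∀ (w : InfinitePlace K) (N : ℕ),
        ∑ n ∈ Finset.range N, w (PowerSeries.coeff n E) * ((C * (max 1 (w x)) ^ 2)⁻¹) ^ n ≤ 2

/-- COEF: coefficients of products of series in different variables -/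
def S_COEF : Prop := ∀ (K : Type) [Field K] (σ : Type) [Fintype σ] [DecidableEq σ]
  (g : σ → PowerSeries K) (s : σ →₀ ℕ),
  MvPowerSeries.coeff s (∏ i, (g i).toMvPowerSeries i) = ∏ i, PowerSeries.coeff (s i) (g i)

end Pool.Agent.J4H27.GC
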