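import Pool.Agent.J4H27.GC.Row2

/-!
# Project GC: the auxiliary polynomial and its values; statements of the core parts

The curves are `y² = x³ + a j x + b j`, `j = 0, 1`; the points have the indices
`(none, j)` (base point) and `(some i, j)`, `i < m`.
-/

set_option autoImplicit false

open MvPolynomial Height Filter NumberField

namespace Pool.Agent.J4H27.GC

section defs

variable {K : Type} [Field K] [NumberField K] (a b : Fin 2 → 𝓞 K) {m : ℕ} (D k : Fin m → ℕ)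

/-- powers of the two rows `(N⁺, A)` (`r = true`) and `(C, N⁻)` (`r = false`) -/
noncomputable def rw1 (r : Bool) (j : Fin 2) (k D n : ℕ) : QQ (a j) (b j) j :=
  if r then eP (a j) (b j) j k ^ n * eA (a j) (b j) j k ^ (D - n)
  else eC (a j) (b j) j k ^ n * eM (a j) (b j) j k ^ (D - n)

/-- the coefficient of `x ^ κ.1` in the real (`κ.2 = false`) or imaginary part of a row power -/
noncomputable def mm (r : Bool) (j : Fin 2) (k D n : ℕ) (κ : ℕ × Bool) :
    MvPolynomial (Fin 2) (𝓞 K) :=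
  (finSuccEquiv (𝓞 K) 2 (if κ.2 then (rw1 a b r j k D n).im else (rw1 a b r j k D n).re)).coeff κ.1

/-- exponents of the auxiliary polynomial -/
abbrev NN {m : ℕ} (D : Fin m → ℕ) : Type := (i : Fin m) → Fin 2 → Fin (D i + 1)

/-- coefficients of the auxiliary polynomial in the coordinates of the points -/
noncomputable def GG (F : NN D → MvPolynomial (Fin 2) (𝓞 K)) (r : Fin m → Fin 2 → Bool)
    (κ : Fin m → Fin 2 → ℕ × Bool) : MvPolynomial (Fin 2) (𝓞 K) :=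
  ∑ n : NN D, F n * ∏ i, ∏ j, mm a b (r i j) j (k i) (D i) (n i j) (κ i j)

/-- the finite set of the possible `κ` -/
def Kp (D : Fin m → ℕ) : Finset (Fin m → Fin 2 → ℕ × Bool) :=
  Fintype.piFinset fun i => Fintype.piFinset fun _ => Finset.range (2 * D i + 1) ×ˢ Finset.univ

/-- the indices of the coordinates -/
abbrev Ix (m : ℕ) : Type := Option (Fin m) × Fin 2

variable {S : Type} [CommRing S] (g : 𝓞 K →+* S) (x h : Ix m → S)

/-- value of a row power; `p, q, o` are the values of `phi, psi, om` at the base point -/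
noncomputable def rv (r : Bool) (i : Fin m) (j : Fin 2) (n : ℕ) : S :=
  let p := (phi (a j) (b j) (k i)).eval₂ g (x (none, j))
  let q := (psi (a j) (b j) (k i)).eval₂ g (x (none, j))
  let o := (om (a j) (b j) (k i)).eval₂ g (x (none, j))
  let N := (x (some i, j) * q + p) * (x (some i, j) * p + g (a j) * q) + 2 * g (b j) * q ^ 2
  let t := 2 * h (some i, j) * h (none, j) * o
  if r then (N + t) ^ n * ((x (some i, j) * q - p) ^ 2) ^ (D i - n)
  else ((x (some i, j) * p - g (a j) * q) ^ 2 - 4 * g (b j) * q * (x (some i, j) * q + p)) ^ n *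
    (N - t) ^ (D i - n)

/-- value of the auxiliary polynomial, for the rows `r` -/
noncomputable def Val (r : Fin m → Fin 2 → Bool) (F : NN D → MvPolynomial (Fin 2) (𝓞 K)) : S :=
  ∑ n : NN D, (F n).eval₂ g (fun j => x (none, j)) *
    ∏ i, ∏ j, rv a b D k g x h (r i j) i j (n i j)

end defs

/-- the points lie on the curves -/
def OnE {K : Type} [Field K] [NumberField K] (a b : Fin 2 → 𝓞 K) {m : ℕ} {S : Type} [CommRing S]
    (g : 𝓞 K →+* S) (x h : Ix m → S) : Prop :=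
  ∀ s, h s ^ 2 = x s ^ 3 + g (a s.2) * x s + g (b s.2)

/-- MMF: supports and lengths of the coefficients `mm` -/
def S_MMF : Prop := ∀ (K : Type) [Field K] [NumberField K] (a b : Fin 2 → 𝓞 K), ∃ C : ℝ, 1 ≤ C ∧
  ∀ (r : Bool) (j : Fin 2) (k D n : ℕ) (κ : ℕ × Bool), n ≤ D →
    (2 * D < κ.1 → mm a b r j k D n κ = 0) ∧
    (∀ s ∈ (mm a b r j k D n κ).support, ∀ j', s j' ≤ if j' = j then 2 * (4 ^ k * D) else 0) ∧
    len (mm a b r j k D n κ) ≤ C ^ (4 ^ k * D)

/-- VAL: expansion of the value -/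
def S_VAL : Prop := ∀ (K : Type) [Field K] [NumberField K] (a b : Fin 2 → 𝓞 K) (m : ℕ)
  (D k : Fin m → ℕ) (S : Type) [CommRing S] (g : 𝓞 K →+* S) (x h : Ix m → S),
  OnE a b g x h → ∀ (r : Fin m → Fin 2 → Bool) (F : NN D → MvPolynomial (Fin 2) (𝓞 K)),
    Val a b D k g x h r F = ∑ κ ∈ Kp D, (GG a b D k F r κ).eval₂ g (fun j => x (none, j)) *
      ∏ i, ∏ j, (x (some i, j) ^ (κ i j).1 *
        if (κ i j).2 then h (some i, j) * h (none, j) else 1)

/-- AUX: the auxiliary polynomial (Siegel's lemma) -/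
def S_AUX : Prop := ∀ (K : Type) [Field K] [NumberField K] (a b : Fin 2 → 𝓞 K) (m : ℕ), 1 ≤ m →
  ∃ C : ℝ, 1 ≤ C ∧ ∀ (D k T : Fin m → ℕ) (d e : ℕ), 1 ≤ d → (∀ i, 1 ≤ D i) →
    (∀ i, D i * 4 ^ k i = d) → e ≤ d → (∀ i, 512 * m * (T i) ^ 2 * d ^ 2 ≤ (e + 1) ^ 2 * D i ^ 2) →
    ∃ F : NN D → MvPolynomial (Fin 2) (𝓞 K), F ≠ 0 ∧ (∀ n j, (F n).degreeOf j ≤ e) ∧
      (∀ n, len (F n) ≤ C ^ d) ∧
      ∀ (r : Fin m → Fin 2 → Bool) (κ : Fin m → Fin 2 → ℕ × Bool) (i : Fin m),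
        4 * D i < (κ i 0).1 + (κ i 1).1 + T i → GG a b D k F r κ = 0

/-- the bound for the coefficients at a place; `M t = max 1 |x t|` -/
noncomputable def Bd {m : ℕ} (D T : Fin m → ℕ) (d e : ℕ) (M : Ix m → ℝ) (s : Ix m →₀ ℕ) : ℝ :=
  (∏ j : Fin 2, M (none, j) ^ (e + 2 * m * d + 2 * m)) *
    (∏ i : Fin m, ∏ j : Fin 2, M (some i, j) ^ (2 * D i + 2)) * (∏ t, M t ^ (2 * s t)) *
    ∏ i : Fin m, (min (M (some i, 0)) (M (some i, 1)) ^ T i)⁻¹

/-- the properties of the series of part SQ -/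
def IsSer {K : Type} [Field K] [NumberField K] (a b : 𝓞 K) (C : ℝ) (x h : K)
    (E : PowerSeries K) : Prop :=
  PowerSeries.constantCoeff E = 1 ∧
    (PowerSeries.C h * E) ^ 2 =
      (PowerSeries.C x + PowerSeries.C (4 * h ^ 2) * PowerSeries.X) ^ 3 +
      PowerSeries.C (a : K) * (PowerSeries.C x + PowerSeries.C (4 * h ^ 2) * PowerSeries.X) +
      PowerSeries.C (b : K) ∧
    (∀ (v : FinitePlace K) (n : ℕ), v (PowerSeries.coeff n E) ≤ (max 1 (v x)) ^ (2 * n)) ∧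
    ∀ (w : InfinitePlace K) (N : ℕ),
      ∑ n ∈ Finset.range N, w (PowerSeries.coeff n E) * ((C * (max 1 (w x)) ^ 2)⁻¹) ^ n ≤ 2

/-- the ring homomorphism to the power series -/
noncomputable def gR (K : Type) [Field K] [NumberField K] (m : ℕ) :
    𝓞 K →+* MvPowerSeries (Ix m) K := MvPowerSeries.C.comp (algebraMap (𝓞 K) K)

/-- the `x`-coordinates of the formal points -/
noncomputable def xR {K : Type} [Field K] {m : ℕ} (x h : Ix m → K) (s : Ix m) :
    MvPowerSeries (Ix m) K := MvPowerSeries.C (x s) + MvPowerSeries.C (4 * h s ^ 2) * MvPowerSeries.X s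

/-- the `y`-coordinates of the formal points -/
noncomputable def hR {K : Type} [Field K] {m : ℕ} (h : Ix m → K) (E : Ix m → PowerSeries K)
    (s : Ix m) : MvPowerSeries (Ix m) K :=
  MvPowerSeries.C (h s) * (E s).toMvPowerSeries s

/-- LOC: local bounds for the coefficients of the value at the formal points -/
def S_LOC : Prop := ∀ (K : Type) [Field K] [NumberField K] (a b : Fin 2 → 𝓞 K) (m : ℕ) (C₁ : ℝ),
  1 ≤ C₁ → ∃ C : ℝ, 1 ≤ C ∧ ∀ (D k T : Fin m → ℕ) (d e : ℕ), 1 ≤ d → (∀ i, 1 ≤ D i) →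
    (∀ i, D i * 4 ^ k i = d) → e ≤ d → ∀ (F : NN D → MvPolynomial (Fin 2) (𝓞 K)) (Λ : ℝ),
    (∀ n j, (F n).degreeOf j ≤ e) → (∀ n, len (F n) ≤ Λ) →
    (∀ (r : Fin m → Fin 2 → Bool) (κ : Fin m → Fin 2 → ℕ × Bool) (i : Fin m),
        4 * D i < (κ i 0).1 + (κ i 1).1 + T i → GG a b D k F r κ = 0) →
    ∀ (x h : Ix m → K) (E : Ix m → PowerSeries K),
      (∀ s, h s ^ 2 = x s ^ 3 + (a s.2 : K) * x s + (b s.2 : K)) →
      (∀ s, IsSer (a s.2) (b s.2) C₁ (x s) (h s) (E s)) →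
      ∀ (r : Fin m → Fin 2 → Bool) (s : Ix m →₀ ℕ),
        (∀ v : FinitePlace K,
          v (MvPowerSeries.coeff s (Val a b D k (gR K m) (xR x h) (hR h E) r F)) ≤
            Bd D T d e (fun t => max 1 (v (x t))) s) ∧
        ∀ w : InfinitePlace K,
          w (MvPowerSeries.coeff s (Val a b D k (gR K m) (xR x h) (hR h E) r F)) ≤
            C ^ (d + ∑ t, s t) * Λ * Bd D T d e (fun t => max 1 (w (x t))) s

/-- ROW: change of the rows in a coefficient of lowest weight. `V i j` is `x (P + 2 ^ k Q)`. -/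
def S_ROW : Prop := ∀ (K : Type) [Field K] [NumberField K] (a b : Fin 2 → 𝓞 K) (m : ℕ)
  (D k : Fin m → ℕ) (F : NN D → MvPolynomial (Fin 2) (𝓞 K)) (x h : Ix m → K)
  (xx hh : Ix m → MvPowerSeries (Ix m) K) (V : Fin m → Fin 2 → K) (w : Ix m → ℕ)
  (s : Ix m →₀ ℕ), OnE a b (gR K m) xx hh →
  (∀ t, MvPowerSeries.constantCoeff (xx t) = x t) →
  (∀ t, MvPowerSeries.constantCoeff (hh t) = h t) → (∀ t, 0 < w t) →
  (∀ i j,
    let p := (phi (a j) (b j) (k i)).eval₂ (algebraMap (𝓞 K) K) (x (none, j))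
    let q := (psi (a j) (b j) (k i)).eval₂ (algebraMap (𝓞 K) K) (x (none, j))
    let N := (x (some i, j) * q + p) * (x (some i, j) * p + (a j : K) * q) + 2 * (b j : K) * q ^ 2
    let t := 2 * h (some i, j) * h (none, j) *
      (om (a j) (b j) (k i)).eval₂ (algebraMap (𝓞 K) K) (x (none, j))
    V i j * (x (some i, j) * q - p) ^ 2 = N - t ∧
      V i j * (N + t) =
        (x (some i, j) * p - (a j : K) * q) ^ 2 - 4 * (b j : K) * q * (x (some i, j) * q + p) ∧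
      ((x (some i, j) * q - p) ^ 2 ≠ 0 ∨ N + t ≠ 0)) →
  (∀ s' : Ix m →₀ ℕ, ∑ t, w t * s' t < ∑ t, w t * s t →
    MvPowerSeries.coeff s' (Val a b D k (gR K m) xx hh (fun _ _ => true) F) = 0) →
  ∀ r : Fin m → Fin 2 → Bool, MvPowerSeries.coeff s (Val a b D k (gR K m) xx hh r F) =
    (∏ i, ∏ j, if r i j then 1 else V i j ^ D i) *
      MvPowerSeries.coeff s (Val a b D k (gR K m) xx hh (fun _ _ => true) F)

/-- NVN: the norm of the value is a nonzero polynomial in the `x`-coordinates -/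
def S_NVN : Prop := ∀ (K : Type) [Field K] [NumberField K] (a b : Fin 2 → 𝓞 K) (m : ℕ),
  (∀ j, 4 * (a j) ^ 3 + 27 * (b j) ^ 2 ≠ 0) → ∃ C : ℕ, 0 < C ∧
  ∀ (D k : Fin m → ℕ) (d e : ℕ), 1 ≤ d → (∀ i, 1 ≤ D i) →
    (∀ i, D i * 4 ^ k i = d) → e ≤ d → ∀ (F : NN D → MvPolynomial (Fin 2) (𝓞 K)) (Λ : ℝ),
    1 ≤ Λ → F ≠ 0 → (∀ n j, (F n).degreeOf j ≤ e) → (∀ n, len (F n) ≤ Λ) →
    ∃ P : MvPolynomial (Ix m) (𝓞 K), P ≠ 0 ∧ (∀ j, P.degreeOf (none, j) ≤ C * d) ∧
      (∀ i j, P.degreeOf (some i, j) ≤ C * D i) ∧ len P ≤ ((C : ℝ) ^ d * Λ) ^ C ∧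
      ∀ (S : Type) [CommRing S] (g : 𝓞 K →+* S) (x h : Ix m → S), OnE a b g x h →
        P.eval₂ g x = ∏ ε : Fin m → Fin 2 → Bool, Val a b D k g x
          (fun s => match s with
            | (none, j) => h (none, j)
            | (some i, j) => if ε i j then h (some i, j) else -h (some i, j))
          (fun _ _ => true) F

/-- PF: the inequality from the product formula -/
def S_PF : Prop := ∀ (K : Type) [Field K] [NumberField K] (a b : Fin 2 → 𝓞 K) (m : ℕ) (C₁ : ℝ),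
  1 ≤ C₁ → ∃ C : ℝ, 1 ≤ C ∧ ∀ (D k T : Fin m → ℕ) (d e : ℕ), 1 ≤ d → (∀ i, 1 ≤ D i) →
    (∀ i, D i * 4 ^ k i = d) → e ≤ d → ∀ (F : NN D → MvPolynomial (Fin 2) (𝓞 K)) (Λ : ℝ),
    1 ≤ Λ → (∀ n j, (F n).degreeOf j ≤ e) → (∀ n, len (F n) ≤ Λ) →
    (∀ (r : Fin m → Fin 2 → Bool) (κ : Fin m → Fin 2 → ℕ × Bool) (i : Fin m),
        4 * D i < (κ i 0).1 + (κ i 1).1 + T i → GG a b D k F r κ = 0) →
    ∀ (x h : Ix m → K) (E : Ix m → PowerSeries K) (V : Fin m → Fin 2 → K) (w : Ix m → ℕ)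
      (s : Ix m →₀ ℕ),
      (∀ s, h s ^ 2 = x s ^ 3 + (a s.2 : K) * x s + (b s.2 : K)) →
      (∀ s, IsSer (a s.2) (b s.2) C₁ (x s) (h s) (E s)) → (∀ t, 0 < w t) →
      (∀ i j,
        let p := (phi (a j) (b j) (k i)).eval₂ (algebraMap (𝓞 K) K) (x (none, j))
        let q := (psi (a j) (b j) (k i)).eval₂ (algebraMap (𝓞 K) K) (x (none, j))
        let N := (x (some i, j) * q + p) * (x (some i, j) * p + (a j : K) * q) +
          2 * (b j : K) * q ^ 2
        let t := 2 * h (some i, j) * h (none, j) *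
          (om (a j) (b j) (k i)).eval₂ (algebraMap (𝓞 K) K) (x (none, j))
        V i j * (x (some i, j) * q - p) ^ 2 = N - t ∧
          V i j * (N + t) =
            (x (some i, j) * p - (a j : K) * q) ^ 2 -
              4 * (b j : K) * q * (x (some i, j) * q + p) ∧
          ((x (some i, j) * q - p) ^ 2 ≠ 0 ∨ N + t ≠ 0)) →
      MvPowerSeries.coeff s (Val a b D k (gR K m) (xR x h) (hR h E) (fun _ _ => true) F) ≠ 0 →
      (∀ s' : Ix m →₀ ℕ, ∑ t, w t * s' t < ∑ t, w t * s t →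
        MvPowerSeries.coeff s' (Val a b D k (gR K m) (xR x h) (hR h E) (fun _ _ => true) F) = 0) →
      ∑ i, (T i : ℝ) * (logHeight₁ (x (some i, 0)) + logHeight₁ (x (some i, 1)) -
          logHeight ![1, x (some i, 0), x (some i, 1)]) +
        ∑ i, ∑ j, (D i : ℝ) * logHeight₁ (V i j) ≤
        C * (d + ∑ t, (s t : ℝ) + Real.log Λ) +
        (e + 2 * m * d + 2 * m) * ∑ j, logHeight₁ (x (none, j)) +
        ∑ i, ∑ j, (2 * (D i : ℝ) + 2) * logHeight₁ (x (some i, j)) +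
        2 * ∑ t, (s t : ℝ) * logHeight₁ (x t)

end Pool.Agent.J4H27.GC
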