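import Pool.Agent.J4H27.GC.Cfg

/-!
# Auxiliary facts for the main argument
-/

set_option autoImplicit false
set_option linter.unusedSectionVars false

open MvPolynomial Height Filter NumberField

namespace Pool.Agent.J4H27.GC

variable {K : Type} [Field K] [NumberField K]

theorem lh_int {ι : Type} [Finite ι] (y : ι → 𝓞 K) (L : ℝ) (hL : 1 ≤ L)
    (h : ∀ i, house (y i : K) ≤ L) :
    logHeight (fun i => (y i : K)) ≤ totalWeight K * Real.log L := by
  have hn0 : (1 : ℝ) ≤ L := hL
  by_cases h0 : (fun i => (y i : K)) = 0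
  · rw [h0, logHeight_zero]
    exact mul_nonneg (by positivity) (Real.log_nonneg hn0)
  · have hne : Nonempty ι := by
      obtain ⟨i, _⟩ := Function.ne_iff.1 h0
      exact ⟨i⟩
    rw [logHeight_eq_log_mulHeight, Height.mulHeight_eq h0]
    have h1 : (Multiset.map (fun v : AbsoluteValue K ℝ => ⨆ i, v ((fun i => (y i : K)) i))
        (AdmissibleAbsValues.archAbsVal (K := K))).prod ≤ L ^ totalWeight K := by
      refine (Multiset.prod_map_le_prod_map₀ _ (fun _ => L)
        (fun v _ => Real.iSup_nonneg_of_nonnegHomClass v _) (fun v hv => ?_)).trans ?_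
      · apply ciSup_le
        intro i
        have hv' : IsInfinitePlace v := NumberField.mem_multisetInfinitePlace.1 hv
        obtain ⟨φ, hφ⟩ := hv'
        have h2 : v (y i : K) = ‖φ (y i : K)‖ := by
          rw [← hφ]
          rfl
        show v (y i : K) ≤ L
        rw [h2]
        exact (norm_embedding_le_house _ φ).trans (h i)
      · rw [Multiset.map_const', Multiset.prod_replicate]
        rfl
    have h2 : ∏ᶠ v : AdmissibleAbsValues.nonarchAbsVal (K := K),
        ⨆ i, v.val ((fun i => (y i : K)) i) ≤ 1 := by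
      apply (finprod_induction (fun r : ℝ => 0 ≤ r ∧ r ≤ 1) ⟨zero_le_one, le_rfl⟩
        (fun a b ha hb => ⟨mul_nonneg ha.1 hb.1, mul_le_one₀ ha.2 hb.1 hb.2⟩) (fun v => ⟨?_, ?_⟩)).2
      · exact Real.iSup_nonneg_of_nonnegHomClass v.val _
      · apply ciSup_le
        intro i
        have hv : IsFinitePlace v.val := v.2
        obtain ⟨u, hu⟩ := hv
        rw [← hu]
        exact FinitePlace.norm_le_one K u (y i)
    have h3 : 0 ≤ ∏ᶠ v : AdmissibleAbsValues.nonarchAbsVal (K := K),
        ⨆ i, v.val ((fun i => (y i : K)) i) :=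
      finprod_nonneg fun v => Real.iSup_nonneg_of_nonnegHomClass v.val _
    have h4 : (Multiset.map (fun v : AbsoluteValue K ℝ => ⨆ i, v ((fun i => (y i : K)) i))
        (AdmissibleAbsValues.archAbsVal (K := K))).prod *
        ∏ᶠ v : AdmissibleAbsValues.nonarchAbsVal (K := K), ⨆ i, v.val ((fun i => (y i : K)) i) ≤
        L ^ totalWeight K := by
      calc _ ≤ L ^ totalWeight K * 1 := mul_le_mul h1 h2 h3 (by positivity)
        _ = _ := mul_one _
    have h5 := mulHeight_pos (fun i => (y i : K))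
    rw [Height.mulHeight_eq h0] at h5
    refine (Real.log_le_log h5 h4).trans (le_of_eq ?_)
    rw [Real.log_pow]

theorem hp_int {σ : Type} (P : MvPolynomial σ (𝓞 K)) (L : ℝ) (hL : 1 ≤ L) (h : len P ≤ L) :
    hp (map (algebraMap (𝓞 K) K) P) ≤ totalWeight K * Real.log L := by
  classical
  unfold hp
  have e : (fun s : (map (algebraMap (𝓞 K) K) P).support =>
      (map (algebraMap (𝓞 K) K) P).coeff s) =
      fun s : (map (algebraMap (𝓞 K) K) P).support => ((P.coeff s.1 : 𝓞 K) : K) := by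
    funext s
    rw [coeff_map]
  rw [e]
  refine lh_int _ L hL (fun s => ?_)
  refine le_trans ?_ h
  unfold len
  have hs : s.1 ∈ P.support := by
    have h1 := s.2
    rw [mem_support_iff, coeff_map] at h1
    rw [mem_support_iff]
    intro h2
    rw [h2, map_zero] at h1
    exact h1 rfl
  exact Finset.single_le_sum (f := fun s => house ((P.coeff s : 𝓞 K) : K))
    (fun _ _ => house_nonneg _) hs

omit [NumberField K] in
lemma coeff_scale {σ : Type} [Fintype σ] (c : σ → K) (Q : MvPolynomial σ K) (s : σ →₀ ℕ) :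
    (aeval (fun t => C (c t) * X t : σ → MvPolynomial σ K) Q).coeff s =
      (∏ t, c t ^ s t) * Q.coeff s := by
  classical
  induction Q using MvPolynomial.induction_on' with
  | monomial u r =>
    rw [aeval_monomial, Finsupp.prod_fintype _ _ (by simp)]
    simp_rw [mul_pow, Finset.prod_mul_distrib, ← C_pow]
    rw [← map_prod, algebraMap_eq, ← mul_assoc, ← C_mul, coeff_C_mul]
    have h1 : (∏ t, (X t : MvPolynomial σ K) ^ u t) = monomial u 1 := by
      rw [monomial_eq, C_1, one_mul, Finsupp.prod_fintype _ _ (by simp)]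
    rw [h1, coeff_monomial, coeff_monomial]
    split_ifs with h
    · rw [h]; ring
    · ring
  | add p q hp hq =>
    rw [map_add, coeff_add, hp, hq, coeff_add]
    ring

lemma eval₂_gR {m : ℕ} (P : MvPolynomial (Ix m) (𝓞 K)) (x h : Ix m → K) (s : Ix m →₀ ℕ) :
    MvPowerSeries.coeff s (P.eval₂ (gR K m) (xR x h)) =
      (∏ t, (4 * h t ^ 2) ^ s t) * (tr x (map (algebraMap (𝓞 K) K) P)).coeff s := by
  rw [← coeff_scale, ← MvPolynomial.coeff_coe]
  congr 1
  have h1 : P.eval₂ (gR K m) (xR x h) =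
      (map (algebraMap (𝓞 K) K) P).eval₂ (MvPowerSeries.C) (xR x h) := by
    rw [eval₂_map]
    rfl
  rw [h1]
  unfold tr
  generalize (map (algebraMap (𝓞 K) K) P) = Q
  induction Q using MvPolynomial.induction_on with
  | C r => simp
  | add p q hp hq => simp only [eval₂_add, map_add, MvPolynomial.coe_add, hp, hq]
  | mul_X p n hp =>
    rw [eval₂_mul, hp, eval₂_X, map_mul, map_mul, MvPolynomial.coe_mul]
    congr 1
    simp only [aeval_X, map_add, algHom_C, MvPolynomial.algebraMap_eq, MvPolynomial.coe_add,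
      MvPolynomial.coe_mul, MvPolynomial.coe_C, MvPolynomial.coe_X, xR]
    ring

omit [NumberField K] in
lemma coeff_prod_ne {σ ι : Type} [DecidableEq ι] (w : σ → ℕ) [Fintype σ] (J : Finset ι)
    (V : ι → MvPowerSeries σ K) (i₀ : ι) (hi : i₀ ∈ J) (s : σ →₀ ℕ)
    (hs : MvPowerSeries.coeff s (∏ i ∈ J, V i) ≠ 0) :
    ∃ s', MvPowerSeries.coeff s' (V i₀) ≠ 0 ∧ ∑ t, w t * s' t ≤ ∑ t, w t * s t := by
  classical
  rw [← Finset.mul_prod_erase J V hi, MvPowerSeries.coeff_mul] at hs
  obtain ⟨p, hp, hne⟩ := Finset.exists_ne_zero_of_sum_ne_zero hs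
  refine ⟨p.1, left_ne_zero_of_mul hne, ?_⟩
  rw [Finset.HasAntidiagonal.mem_antidiagonal] at hp
  refine Finset.sum_le_sum (fun t _ => Nat.mul_le_mul_left _ ?_)
  rw [← hp]
  simp

omit [NumberField K] in
lemma exists_min_coeff {σ : Type} [Fintype σ] (w : σ → ℕ) (V : MvPowerSeries σ K) (s : σ →₀ ℕ)
    (hs : MvPowerSeries.coeff s V ≠ 0) :
    ∃ s', MvPowerSeries.coeff s' V ≠ 0 ∧ ∑ t, w t * s' t ≤ ∑ t, w t * s t ∧
      ∀ s'' : σ →₀ ℕ, ∑ t, w t * s'' t < ∑ t, w t * s' t → MvPowerSeries.coeff s'' V = 0 := by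
  classical
  set A : Set ℕ := {n | ∃ s' : σ →₀ ℕ, MvPowerSeries.coeff s' V ≠ 0 ∧ ∑ t, w t * s' t = n} with hA
  have hne : A.Nonempty := ⟨_, s, hs, rfl⟩
  obtain ⟨s', hs', hn⟩ := Nat.sInf_mem hne
  refine ⟨s', hs', ?_, fun s'' hlt => ?_⟩
  · rw [hn]
    exact Nat.sInf_le ⟨s, hs, rfl⟩
  · by_contra hc
    rw [hn] at hlt
    exact absurd (Nat.sInf_le (⟨s'', hc, rfl⟩ : _ ∈ A)) (not_le.2 hlt)

end Pool.Agent.J4H27.GC
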