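import Pool.Agent.J4H27.GC.Mn9

/-!
# The theorem on special curves for arbitrary coefficients
-/

set_option autoImplicit false
set_option linter.unusedSectionVars false
set_option linter.unusedVariables false

open MvPolynomial Height Filter NumberField Pool.Agent.TH942

namespace Pool.Agent.J4H27.GC

variable {K : Type} [Field K] [NumberField K]

/-- height of a vector of powers of `c` -/
lemma ht_powers {ι : Type} [Finite ι] (c : K) (N : ℕ) (e : ι → ℕ) (he : ∀ i, e i ≤ N) :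
    logHeight (fun i => c ^ e i) ≤ N * logHeight₁ c := by
  classical
  have hx : ∀ _ : Fin N, (![c, 1] : Fin 2 → K) ≠ 0 := by
    intro _ h
    have := congrFun h 1
    simp at this
  have h1 := logHeight_fun_prod_eq (α := Fin N) (ι := fun _ => Fin 2)
    (x := fun _ => (![c, 1] : Fin 2 → K)) hx
  rw [Finset.sum_const, Finset.card_univ, Fintype.card_fin, nsmul_eq_mul,
    ← logHeight₁_eq_logHeight] at h1
  rw [← h1]
  have h2 : (fun i => c ^ e i) = (fun I : Fin N → Fin 2 => ∏ a, (![c, 1] : Fin 2 → K) (I a)) ∘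
      (fun i => fun a : Fin N => if (a : ℕ) < e i then (0 : Fin 2) else 1) := by
    funext i
    simp only [Function.comp_apply]
    have h3 : ∀ a : Fin N, (![c, 1] : Fin 2 → K) (if (a : ℕ) < e i then (0 : Fin 2) else 1) =
        if (a : ℕ) < e i then c else 1 := by
      intro a
      split_ifs <;> simp
    rw [Finset.prod_congr rfl (fun a _ => h3 a), Finset.prod_ite, Finset.prod_const_one, mul_one,
      Finset.prod_const]
    congr 1
    have h4 : (Finset.univ.filter (fun a : Fin N => (a : ℕ) < e i)).card = e i := by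
      rw [Fin.card_filter_val_lt]
      exact min_eq_right (he i)
    exact h4.symm
  rw [h2]
  exact logHeight_comp_le _ _

/-- substitution `X ↦ c X` -/
noncomputable def sca (c : K) : MvPolynomial (Fin 2) K →ₐ[K] MvPolynomial (Fin 2) K :=
  aeval (fun i => C c * X i)

lemma sca_comp (c d : K) (h : c * d = 1) (Q : MvPolynomial (Fin 2) K) : sca c (sca d Q) = Q := by
  have h1 : (sca c).comp (sca d) = AlgHom.id K _ := by
    apply MvPolynomial.algHom_ext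
    intro i
    simp only [sca, AlgHom.comp_apply, aeval_X, map_mul, AlgHom.coe_id, id, algHom_C,
      MvPolynomial.algebraMap_eq]
    rw [← mul_assoc, ← C_mul, mul_comm d c, h, C_1, one_mul]
  exact AlgHom.congr_fun h1 Q

lemma coeff_sca (c : K) (Q : MvPolynomial (Fin 2) K) (s : Fin 2 →₀ ℕ) :
    (sca c Q).coeff s = c ^ (s 0 + s 1) * Q.coeff s := by
  unfold sca
  rw [coeff_scale (fun _ => c) Q s, Fin.prod_univ_two, pow_add]

lemma support_sca {c : K} (hc : c ≠ 0) (Q : MvPolynomial (Fin 2) K) :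
    (sca c Q).support = Q.support := by
  ext s
  rw [mem_support_iff, mem_support_iff, coeff_sca]
  simp [hc]

lemma degreeOf_sca {c : K} (hc : c ≠ 0) (Q : MvPolynomial (Fin 2) K) (i : Fin 2) :
    (sca c Q).degreeOf i = Q.degreeOf i := by
  rw [degreeOf_eq_sup, degreeOf_eq_sup, support_sca hc]

lemma irr_sca {c : K} (hc : c ≠ 0) {Q : MvPolynomial (Fin 2) K} (hQ : Irreducible Q) :
    Irreducible (sca c Q) := by
  have h1 : c * c⁻¹ = 1 := mul_inv_cancel₀ hc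
  have h2 : c⁻¹ * c = 1 := inv_mul_cancel₀ hc
  let e : MvPolynomial (Fin 2) K ≃ₐ[K] MvPolynomial (Fin 2) K :=
    AlgEquiv.ofAlgHom (sca c) (sca c⁻¹)
      (AlgHom.ext fun Q => sca_comp c c⁻¹ h1 Q) (AlgHom.ext fun Q => sca_comp c⁻¹ c h2 Q)
  exact (MulEquiv.irreducible_iff e.toMulEquiv).2 hQ

lemma hp_sca_le {c : K} (hc : c ≠ 0) (Q : MvPolynomial (Fin 2) K) :
    hp (sca c Q) ≤ hp Q + (Q.degreeOf 0 + Q.degreeOf 1 : ℕ) * logHeight₁ c := by
  classical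
  have h1 : hp (sca c Q) = logHeight (fun s : Q.support => (sca c Q).coeff s) := by
    unfold hp
    rw [support_sca hc]
  rw [h1]
  have h2 : (fun s : Q.support => (sca c Q).coeff s) =
      (fun s : Q.support => c ^ ((s : Fin 2 →₀ ℕ) 0 + (s : Fin 2 →₀ ℕ) 1)) *
        (fun s : Q.support => Q.coeff s) := by
    funext s
    rw [Pi.mul_apply, coeff_sca]
  rw [h2]
  refine (logHeight_mul_le _ _).trans ?_
  rw [add_comm]
  refine add_le_add le_rfl (ht_powers c _ _ fun s => ?_)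
  exact add_le_add (degreeOf_le_iff.1 le_rfl _ s.2) (degreeOf_le_iff.1 le_rfl _ s.2)

lemma eval_sca (c x x' : K) (Q : MvPolynomial (Fin 2) K) :
    eval ![x, x'] (sca c Q) = eval ![c * x, c * x'] Q := by
  have h1 : (eval ![x, x']).comp (sca c).toRingHom = eval ![c * x, c * x'] := by
    apply MvPolynomial.ringHom_ext
    · intro r
      simp [sca]
    · intro i
      fin_cases i <;> simp [sca]
  exact RingHom.congr_fun h1 Q

/-- special curves and the ratio of the heights, with the same polynomial -/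
lemma spc_ratio' (hQE : S_QE) (Δ : ℝ) (τ : ℝ) (hτ : 0 < τ) : ∃ δ B : ℝ, 0 < δ ∧
    ∀ (x x' : K) (Q : MvPolynomial (Fin 2) K), Irreducible Q → 0 < Q.degreeOf 0 →
      0 < Q.degreeOf 1 → (Q.degreeOf 0 : ℝ) + Q.degreeOf 1 ≤ Δ → eval ![x, x'] Q = 0 →
      hp Q ≤ δ * (logHeight₁ x + logHeight₁ x') → B < logHeight₁ x + logHeight₁ x' →
      |(Q.degreeOf 0 : ℝ) * logHeight₁ x - Q.degreeOf 1 * logHeight₁ x'| ≤
        τ * (logHeight₁ x + logHeight₁ x') := by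
  classical
  have h1 : ∀ α β : ℕ, ∃ C : ℝ, 0 < α → 0 < β → ∀ (Q : MvPolynomial (Fin 2) K) (i j : Fin 2),
      i ≠ j → Irreducible Q → Q.vars ⊆ {i, j} → Q.degreeOf i = α → Q.degreeOf j = β →
      ∀ a : Fin 2 → K, eval a Q = 0 →
        |(α : ℝ) * logHeight₁ (a i) - β * logHeight₁ (a j)| ≤
          τ / 4 * (logHeight₁ (a i) + logHeight₁ (a j)) + C * (hp Q + 1) := by
    intro α β
    by_cases hα : 0 < α
    · by_cases hβ : 0 < β
      · obtain ⟨C, hC⟩ := hQE K (Fin 2) α β hα hβ (τ / 4) (by positivity)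
        exact ⟨C, fun _ _ => hC⟩
      · exact ⟨0, fun _ h => absurd h hβ⟩
    · exact ⟨0, fun h => absurd h hα⟩
  choose C hC using h1
  set n : ℕ := ⌈Δ⌉₊ with hn
  set C₀ : ℝ := 1 + ∑ p ∈ (Finset.Icc 1 n) ×ˢ (Finset.Icc 1 n), |C p.1 p.2| with hC₀
  have hC₀1 : 1 ≤ C₀ := by
    have : 0 ≤ ∑ p ∈ (Finset.Icc 1 n) ×ˢ (Finset.Icc 1 n), |C p.1 p.2| :=
      Finset.sum_nonneg fun _ _ => abs_nonneg _
    linarith
  refine ⟨τ / (4 * C₀), 4 * C₀ / τ, by positivity,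
    fun x x' Q hirr hd0 hd1 hdeg hev hhp hB => ?_⟩
  have hd0' : (Q.degreeOf 0 : ℝ) ≤ n := by
    have : (0 : ℝ) ≤ Q.degreeOf 1 := Nat.cast_nonneg _
    have := Nat.le_ceil Δ
    linarith
  have hd1' : (Q.degreeOf 1 : ℝ) ≤ n := by
    have : (0 : ℝ) ≤ Q.degreeOf 0 := Nat.cast_nonneg _
    have := Nat.le_ceil Δ
    linarith
  have hm0 : Q.degreeOf 0 ≤ n := by exact_mod_cast hd0'
  have hm1 : Q.degreeOf 1 ≤ n := by exact_mod_cast hd1'
  have hmem : (Q.degreeOf 0, Q.degreeOf 1) ∈ (Finset.Icc 1 n) ×ˢ (Finset.Icc 1 n) := by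
    rw [Finset.mem_product, Finset.mem_Icc, Finset.mem_Icc]
    exact ⟨⟨hd0, hm0⟩, ⟨hd1, hm1⟩⟩
  have h2 := hC (Q.degreeOf 0) (Q.degreeOf 1) hd0 hd1 Q 0 1 (by decide) hirr (by
    intro v _
    fin_cases v <;> simp) rfl rfl ![x, x'] hev
  simp only [Matrix.cons_val_zero, Matrix.cons_val_one] at h2
  set S : ℝ := logHeight₁ x + logHeight₁ x' with hS
  have hCle : C (Q.degreeOf 0) (Q.degreeOf 1) ≤ C₀ := by
    have h3 : |C (Q.degreeOf 0) (Q.degreeOf 1)| ≤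
        ∑ p ∈ (Finset.Icc 1 n) ×ˢ (Finset.Icc 1 n), |C p.1 p.2| :=
      Finset.single_le_sum (f := fun p : ℕ × ℕ => |C p.1 p.2|) (fun _ _ => abs_nonneg _) hmem
    have h4 := le_abs_self (C (Q.degreeOf 0) (Q.degreeOf 1))
    linarith
  have hhp0 : 0 ≤ hp Q := logHeight_nonneg _
  have h3 : C (Q.degreeOf 0) (Q.degreeOf 1) * (hp Q + 1) ≤ C₀ * (τ / (4 * C₀) * S + 1) := by
    calc C (Q.degreeOf 0) (Q.degreeOf 1) * (hp Q + 1) ≤ C₀ * (hp Q + 1) :=
          mul_le_mul_of_nonneg_right hCle (by linarith)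
      _ ≤ C₀ * (τ / (4 * C₀) * S + 1) := mul_le_mul_of_nonneg_left (by linarith) (by linarith)
  have h4 : C₀ * (τ / (4 * C₀) * S + 1) = τ / 4 * S + C₀ := by
    field_simp
  have h5 : C₀ < τ / 4 * S := by
    rw [div_lt_iff₀ hτ] at hB
    linarith
  have : 0 < τ * S := by linarith
  linarith

/-- the main theorem: exceptional pairs lie on curves of bounded degree and small height -/
theorem main_special (a b : Fin 2 → K) (hD : ∀ j, 4 * a j ^ 3 + 27 * b j ^ 2 ≠ 0) (ε : ℝ)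
    (hε : 0 < ε) : ∃ N : ℕ, ∀ δ : ℝ, 0 < δ →
      {z : (K × K) × (K × K) | z ∈ Crv a b ∧
        ε * (logHeight₁ z.1.1 + logHeight₁ z.2.1) <
          logHeight₁ z.1.1 + logHeight₁ z.2.1 - logHeight ![1, z.1.1, z.2.1] ∧
        ¬ ∃ Q : MvPolynomial (Fin 2) K, Irreducible Q ∧ eval ![z.1.1, z.2.1] Q = 0 ∧
          Q.degreeOf 0 ∈ Set.Icc 1 N ∧ Q.degreeOf 1 ∈ Set.Icc 1 N ∧
          hp Q ≤ δ * (logHeight₁ z.1.1 + logHeight₁ z.2.1) ∧
          |(Q.degreeOf 0 : ℝ) * logHeight₁ z.1.1 - Q.degreeOf 1 * logHeight₁ z.2.1| ≤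
            δ * (logHeight₁ z.1.1 + logHeight₁ z.2.1)}.Finite := by
  classical
  obtain ⟨n, a', b', hn, hab⟩ := exists_den a b
  have hn' : (n : K) ≠ 0 := by exact_mod_cast hn
  have hDK : ∀ j, 4 * (a' j : K) ^ 3 + 27 * (b' j : K) ^ 2 ≠ 0 := by
    intro j
    rw [(hab j).1, (hab j).2]
    have e : 4 * ((n : K) ^ 4 * a j) ^ 3 + 27 * ((n : K) ^ 6 * b j) ^ 2 =
        (n : K) ^ 12 * (4 * a j ^ 3 + 27 * b j ^ 2) := by ring
    rw [e]
    exact mul_ne_zero (pow_ne_zero _ hn') (hD j)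
  have hD' : ∀ j, 4 * (a' j) ^ 3 + 27 * (b' j) ^ 2 ≠ 0 := by
    intro j h0
    apply hDK j
    have := congrArg (algebraMap (𝓞 K) K) h0
    rw [map_add, map_mul, map_mul, map_pow, map_pow, map_zero, map_ofNat, map_ofNat] at this
    exact this
  set ε₁ : ℝ := min ε 1 / 2 with hε₁
  have hmin : 0 < min ε 1 := lt_min hε one_pos
  have hε₁0 : 0 < ε₁ := by positivity
  have hε₁1 : ε₁ ≤ 1 := by
    have := min_le_right ε 1
    rw [hε₁]
    linarith
  obtain ⟨Δ, hΔ⟩ := core_all K a' b' hD' ε₁ hε₁0 hε₁1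
  refine ⟨⌈Δ⌉₊, fun δ hδ => ?_⟩
  set c : K := (n : K) ^ 2 with hc
  have hc0 : c ≠ 0 := pow_ne_zero _ hn'
  set C : ℝ := logHeight₁ c with hCdef
  set C3 : ℝ := logHeight ![1, c, c] with hC3
  have hC0 : 0 ≤ C := zero_le_logHeight₁ _
  have hC30 : 0 ≤ C3 := logHeight_nonneg _
  obtain ⟨δ₁, B₁, hδ₁, hrat⟩ := spc_ratio' (K := K) J4H41.GC.t_QE Δ (δ / 2) (by positivity)
  set δ₂ : ℝ := min δ₁ δ / 4 with hδ₂
  have hδ₂0 : 0 < δ₂ := by
    have : 0 < min δ₁ δ := lt_min hδ₁ hδ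
    positivity
  have hδ₂1 : 4 * δ₂ ≤ δ₁ := by
    have := min_le_left δ₁ δ
    rw [hδ₂]
    linarith
  have hδ₂2 : 4 * δ₂ ≤ δ := by
    have := min_le_right δ₁ δ
    rw [hδ₂]
    linarith
  have hfin := hΔ δ₂ hδ₂0
  set W : ℝ := (2 * (⌈Δ⌉₊ : ℝ)) * C with hW
  have hW0 : 0 ≤ W := by positivity
  obtain ⟨B, hB1, hB2, hB3, hB4⟩ : ∃ B : ℝ, (2 * C + C3 + 2 * C) / ε₁ ≤ B ∧
      B₁ ≤ B ∧ 2 * C ≤ B ∧ W / δ₂ ≤ B :=
    ⟨max (max ((2 * C + C3 + 2 * C) / ε₁) B₁) (max (2 * C) (W / δ₂)),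
      le_max_of_le_left (le_max_left _ _), le_max_of_le_left (le_max_right _ _),
      le_max_of_le_right (le_max_left _ _), le_max_of_le_right (le_max_right _ _)⟩
  refine ((finite_crv hD B).union (hfin.image
    (fun P => ((xc (P 0) / (n : K) ^ 2, yc (P 0) / (n : K) ^ 3),
      (xc (P 1) / (n : K) ^ 2, yc (P 1) / (n : K) ^ 3))))).subset ?_
  rintro z ⟨hz, hex, hr⟩
  by_cases hzB : logHeight₁ z.1.1 + logHeight₁ z.2.1 ≤ B
  · exact Or.inl ⟨hz, hzB⟩
  right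
  rw [not_le] at hzB
  have hz' : (((n : K) ^ 2 * z.1.1, (n : K) ^ 3 * z.1.2),
      ((n : K) ^ 2 * z.2.1, (n : K) ^ 3 * z.2.2)) ∈
        Crv (fun j => (a' j : K)) (fun j => (b' j : K)) := by
    obtain ⟨h1, h2⟩ := hz
    constructor
    · show ((n : K) ^ 3 * z.1.2) ^ 2 = ((n : K) ^ 2 * z.1.1) ^ 3 +
        (a' 0 : K) * ((n : K) ^ 2 * z.1.1) + (b' 0 : K)
      rw [(hab 0).1, (hab 0).2, mul_pow, h1]
      ring
    · show ((n : K) ^ 3 * z.2.2) ^ 2 = ((n : K) ^ 2 * z.2.1) ^ 3 +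
        (a' 1 : K) * ((n : K) ^ 2 * z.2.1) + (b' 1 : K)
      rw [(hab 1).1, (hab 1).2, mul_pow, h2]
      ring
  obtain ⟨P, hP0, hP1, e1, e2, e3, e4⟩ := exists_pp hDK hz'
  simp only at e1 e2 e3 e4
  rw [← hc] at e1 e3
  have s1 := abs_le.1 (ht_scale c hc0 z.1.1)
  have s2 := abs_le.1 (ht_scale c hc0 z.2.1)
  have s3 := ht_scale3 c z.1.1 z.2.1
  have hh0 := zero_le_logHeight₁ z.1.1
  have hh1 := zero_le_logHeight₁ z.2.1
  have t1 : 2 * C + C3 + 2 * C < ε₁ * (logHeight₁ z.1.1 + logHeight₁ z.2.1) := by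
    rw [div_le_iff₀ hε₁0] at hB1
    nlinarith
  refine ⟨P, ⟨⟨hP0, hP1, ?_⟩, ?_⟩, ?_⟩
  · rw [sht_xc, sht_xc, e1, e3]
    have hεm : (min ε 1) * (logHeight₁ z.1.1 + logHeight₁ z.2.1) ≤
        ε * (logHeight₁ z.1.1 + logHeight₁ z.2.1) :=
      mul_le_mul_of_nonneg_right (min_le_left _ _) (by linarith)
    have h2 : min ε 1 = 2 * ε₁ := by rw [hε₁]; ring
    rw [h2] at hεm
    have h3 : (1 - ε₁) * (logHeight₁ z.1.1 + logHeight₁ z.2.1 - 2 * C) ≤
        (1 - ε₁) * (logHeight₁ (c * z.1.1) + logHeight₁ (c * z.2.1)) :=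
      mul_le_mul_of_nonneg_left (by linarith) (by linarith)
    have h4 : (1 - ε₁) * (2 * C) ≤ 1 * (2 * C) :=
      mul_le_mul_of_nonneg_right (by linarith) (by linarith)
    nlinarith
  · intro hspc
    apply hr
    rw [e1, e3] at hspc
    obtain ⟨Q, hirr, hd0, hd1, hdeg, hev, hhp⟩ := hspc
    have hn0 : Q.degreeOf 0 ≤ ⌈Δ⌉₊ := by
      have h1 : (0 : ℝ) ≤ Q.degreeOf 1 := Nat.cast_nonneg _
      have h2 := Nat.le_ceil Δ
      have h3 : (Q.degreeOf 0 : ℝ) ≤ ⌈Δ⌉₊ := by linarith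
      exact_mod_cast h3
    have hn1 : Q.degreeOf 1 ≤ ⌈Δ⌉₊ := by
      have h1 : (0 : ℝ) ≤ Q.degreeOf 0 := Nat.cast_nonneg _
      have h2 := Nat.le_ceil Δ
      have h3 : (Q.degreeOf 1 : ℝ) ≤ ⌈Δ⌉₊ := by linarith
      exact_mod_cast h3
    have hS : 2 * C ≤ logHeight₁ z.1.1 + logHeight₁ z.2.1 := by linarith
    have hS2 : logHeight₁ (c * z.1.1) + logHeight₁ (c * z.2.1) ≤
        2 * (logHeight₁ z.1.1 + logHeight₁ z.2.1) := by linarith
    have hWle : W ≤ δ₂ * (logHeight₁ z.1.1 + logHeight₁ z.2.1) := by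
      rw [div_le_iff₀ hδ₂0] at hB4
      nlinarith
    have hhp2 : hp (sca c Q) ≤ 3 * δ₂ * (logHeight₁ z.1.1 + logHeight₁ z.2.1) := by
      have h1 := hp_sca_le hc0 Q
      have h2 : ((Q.degreeOf 0 + Q.degreeOf 1 : ℕ) : ℝ) * logHeight₁ c ≤ W := by
        rw [hW]
        refine mul_le_mul_of_nonneg_right ?_ hC0
        push_cast
        have h3 : (Q.degreeOf 0 : ℝ) ≤ ⌈Δ⌉₊ := by exact_mod_cast hn0
        have h4 : (Q.degreeOf 1 : ℝ) ≤ ⌈Δ⌉₊ := by exact_mod_cast hn1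
        linarith
      have h3 : δ₂ * (logHeight₁ (c * z.1.1) + logHeight₁ (c * z.2.1)) ≤
          δ₂ * (2 * (logHeight₁ z.1.1 + logHeight₁ z.2.1)) :=
        mul_le_mul_of_nonneg_left hS2 hδ₂0.le
      nlinarith
    have hS0 : 0 ≤ logHeight₁ z.1.1 + logHeight₁ z.2.1 := by linarith
    have hle1 : 3 * δ₂ * (logHeight₁ z.1.1 + logHeight₁ z.2.1) ≤
        δ₁ * (logHeight₁ z.1.1 + logHeight₁ z.2.1) :=
      mul_le_mul_of_nonneg_right (by linarith) hS0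
    have hle2 : 3 * δ₂ * (logHeight₁ z.1.1 + logHeight₁ z.2.1) ≤
        δ * (logHeight₁ z.1.1 + logHeight₁ z.2.1) :=
      mul_le_mul_of_nonneg_right (by linarith) hS0
    have hirr' := irr_sca hc0 hirr
    have hev' : eval ![z.1.1, z.2.1] (sca c Q) = 0 := by
      rw [eval_sca]
      exact hev
    have hd0' := degreeOf_sca hc0 Q 0
    have hd1' := degreeOf_sca hc0 Q 1
    have hrt := hrat z.1.1 z.2.1 (sca c Q) hirr' (by rw [hd0']; exact hd0)
      (by rw [hd1']; exact hd1) (by rw [hd0', hd1']; exact hdeg) hev' (hhp2.trans hle1)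
      (by linarith)
    refine ⟨sca c Q, hirr', hev', ?_, ?_, hhp2.trans hle2, hrt.trans ?_⟩
    · rw [hd0']
      exact ⟨hd0, hn0⟩
    · rw [hd1']
      exact ⟨hd1, hn1⟩
    · exact mul_le_mul_of_nonneg_right (by linarith) hS0
  · simp only [e1, e2, e3, e4, hc]
    ext <;> simp <;> field_simp

end Pool.Agent.J4H27.GC
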