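import Pool.Agent.J4H27.GC.Mn1

/-!
# The choice of the coefficient
-/

set_option autoImplicit false
set_option linter.unusedSectionVars false

open MvPolynomial Height Filter NumberField

namespace Pool.Agent.J4H27.GC

variable {K : Type} [Field K] [NumberField K]

lemma IsSer.mono {a b : 𝓞 K} {C C' : ℝ} (hC : 1 ≤ C) (hCC : C ≤ C') {x h : K} {E : PowerSeries K}
    (H : IsSer a b C x h E) : IsSer a b C' x h E := by
  obtain ⟨h1, h2, h3, h4⟩ := H
  refine ⟨h1, h2, h3, fun w N => le_trans (Finset.sum_le_sum fun n _ => ?_) (h4 w N)⟩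
  have hM : 0 < (max 1 (w x)) ^ 2 := by
    have : (1 : ℝ) ≤ max 1 (w x) := le_max_left _ _
    positivity
  have hC' : 0 < C' := by linarith
  refine mul_le_mul_of_nonneg_left (pow_le_pow_left₀ ?_ ?_ n) (apply_nonneg _ _)
  · positivity
  · exact inv_anti₀ (by positivity) (mul_le_mul_of_nonneg_right hCC hM.le)

lemma onE_hR {m : ℕ} (a b : Fin 2 → 𝓞 K) (C : ℝ) (x h : Ix m → K) (E : Ix m → PowerSeries K)
    (hE : ∀ s, IsSer (a s.2) (b s.2) C (x s) (h s) (E s)) :
    OnE a b (gR K m) (xR x h) (hR h E) := by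
  intro s
  have h1 := congrArg (PowerSeries.toMvPowerSeries s (R := K)) (hE s).2.1
  simp only [map_add, map_mul, map_pow, PowerSeries.toMvPowerSeries_C,
    PowerSeries.toMvPowerSeries_X] at h1
  unfold hR xR gR
  simp only [RingHom.comp_apply, map_mul, map_pow] at h1 ⊢
  exact h1

lemma exists_coeff {m : ℕ} (a b : Fin 2 → 𝓞 K) (D k : Fin m → ℕ)
    (F : NN D → MvPolynomial (Fin 2) (𝓞 K)) (C : ℝ) (x h : Ix m → K) (E : Ix m → PowerSeries K)
    (hE : ∀ s, IsSer (a s.2) (b s.2) C (x s) (h s) (E s)) (hne : ∀ t, h t ≠ 0)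
    (P : MvPolynomial (Ix m) (𝓞 K))
    (hP : ∀ (S : Type) [CommRing S] (g : 𝓞 K →+* S) (x h : Ix m → S), OnE a b g x h →
        P.eval₂ g x = ∏ ε : Fin m → Fin 2 → Bool, Val a b D k g x
          (fun s => match s with
            | (none, j) => h (none, j)
            | (some i, j) => if ε i j then h (some i, j) else -h (some i, j))
          (fun _ _ => true) F)
    (w : Ix m → ℕ) (t0 : ℕ) (hO : ¬ Ow w x (map (algebraMap (𝓞 K) K) P) t0) :
    ∃ s : Ix m →₀ ℕ,
      MvPowerSeries.coeff s (Val a b D k (gR K m) (xR x h) (hR h E) (fun _ _ => true) F) ≠ 0 ∧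
      ∑ t, w t * s t < t0 ∧ ∀ s' : Ix m →₀ ℕ, ∑ t, w t * s' t < ∑ t, w t * s t →
        MvPowerSeries.coeff s'
          (Val a b D k (gR K m) (xR x h) (hR h E) (fun _ _ => true) F) = 0 := by
  classical
  unfold Ow at hO
  push Not at hO
  obtain ⟨s₀, hs₀, hlt⟩ := hO
  rw [mem_support_iff] at hs₀
  have h1 : MvPowerSeries.coeff s₀ (P.eval₂ (gR K m) (xR x h)) ≠ 0 := by
    rw [eval₂_gR]
    refine mul_ne_zero (Finset.prod_ne_zero_iff.2 fun t _ => pow_ne_zero _ ?_) hs₀
    exact mul_ne_zero (by norm_num) (pow_ne_zero _ (hne t))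
  rw [hP _ (gR K m) (xR x h) (hR h E) (onE_hR a b C x h E hE)] at h1
  obtain ⟨s₁, hs₁, hle⟩ := coeff_prod_ne w Finset.univ _ (fun _ _ => true) (Finset.mem_univ _) s₀ h1
  have e : (fun s : Ix m => match s with
            | (none, j) => hR h E (none, j)
            | (some i, j) => if (fun (_ : Fin m) (_ : Fin 2) => true) i j then hR h E (some i, j)
              else -hR h E (some i, j)) = hR h E := by
    funext s
    obtain ⟨i, j⟩ := s
    cases i <;> simp
  simp only [if_true] at hs₁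
  have e' : (fun s : Ix m => match s with
            | (none, j) => hR h E (none, j)
            | (some i, j) => hR h E (some i, j)) = hR h E := by
    funext s
    obtain ⟨i, j⟩ := s
    cases i <;> simp
  obtain ⟨s₂, hs₂, hle₂, hmin⟩ := exists_min_coeff w _ s₁ hs₁
  refine ⟨s₂, ?_, lt_of_le_of_lt (hle₂.trans hle) hlt, ?_⟩
  · rw [← e']
    exact hs₂
  · intro s' hs'
    rw [← e']
    exact hmin s' hs'

end Pool.Agent.J4H27.GC
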