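import Pool.Agent.J4H27.GC.Mn2

/-!
# Points and coordinates
-/

set_option autoImplicit false
set_option linter.unusedSectionVars false

open MvPolynomial Height Filter NumberField Pool.Agent.TH942

namespace Pool.Agent.J4H27.GC

section coords

variable {K : Type} [Field K]

/-- the `x`-coordinate -/
def xc {a b : K} : SPt a b → K
  | .zero => 0
  | .some x _ _ => x

/-- the `y`-coordinate -/
def yc {a b : K} : SPt a b → K
  | .zero => 0
  | .some _ y _ => y

lemma eq_some {a b : K} (P : SPt a b) (hP : P ≠ 0) : ∃ h, P = .some (xc P) (yc P) h := by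
  cases P with
  | zero => exact absurd rfl hP
  | some x y h => exact ⟨h, rfl⟩

lemma yc_sq {a b : K} (P : SPt a b) (hP : P ≠ 0) : yc P ^ 2 = xc P ^ 3 + a * xc P + b := by
  obtain ⟨h, -⟩ := eq_some P hP
  exact sw_eqn.1 h.1

lemma yc_ne [DecidableEq K] {a b : K} (P : SPt a b) (hP : 2 • P ≠ 0) : yc P ≠ 0 := by
  intro hy
  have hP0 : P ≠ 0 := by
    rintro rfl
    exact hP (smul_zero _)
  obtain ⟨h, he⟩ := eq_some P hP0
  apply hP
  rw [two_nsmul, ← neg_eq_iff_add_eq_zero, he, WeierstrassCurve.Affine.Point.neg_some]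
  congr 1
  rw [hy]
  simp [WeierstrassCurve.Affine.negY, sw]

lemma sht_xc [NumberField K] {a b : K} (P : SPt a b) : sht P = logHeight₁ (xc P) := by
  cases P with
  | zero =>
    have : sht (WeierstrassCurve.Affine.Point.zero : SPt a b) = 0 := sht_zero
    rw [this]
    simp [xc]
  | some x y h =>
    unfold sht
    rw [WeierstrassCurve.Affine.Point.xRep_some]
    exact (logHeight₁_eq_logHeight x).symm

end coords

lemma dp_map {R S : Type} [CommRing R] [CommRing S] (f : R →+* S) (a b : R) (k : ℕ) :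
    (dp a b k).1.map f = (dp (f a) (f b) k).1 ∧ (dp a b k).2.map f = (dp (f a) (f b) k).2 := by
  induction k with
  | zero => simp [dp]
  | succ k ih =>
    simp only [dp]
    constructor <;>
    simp [Polynomial.map_sub, Polynomial.map_add, Polynomial.map_mul, Polynomial.map_pow, ih.1,
      ih.2]

lemma phi_map {R S : Type} [CommRing R] [CommRing S] (f : R →+* S) (a b : R) (k : ℕ) :
    (phi a b k).map f = phi (f a) (f b) k := (dp_map f a b k).1

lemma psi_map {R S : Type} [CommRing R] [CommRing S] (f : R →+* S) (a b : R) (k : ℕ) :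
    (psi a b k).map f = psi (f a) (f b) k := (dp_map f a b k).2

lemma om_map {R S : Type} [CommRing R] [CommRing S] (f : R →+* S) (a b : R) (k : ℕ) :
    (om a b k).map f = om (f a) (f b) k := by
  induction k with
  | zero => simp [om]
  | succ k ih =>
    simp only [om]
    simp [Polynomial.map_sub, Polynomial.map_add, Polynomial.map_mul, Polynomial.map_pow, ih,
      phi_map, psi_map]

section dbl

variable {K : Type} [Field K] [NumberField K] [DecidableEq K]

omit [DecidableEq K] in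
lemma disc_ne {a b : 𝓞 K} (hD : 4 * a ^ 3 + 27 * b ^ 2 ≠ 0) :
    4 * (a : K) ^ 3 + 27 * (b : K) ^ 2 ≠ 0 := by
  intro h
  apply hD
  apply RingOfIntegers.coe_injective (K := K)
  push_cast
  exact h

lemma dbl_pt (hDBL : S_DBL) {a b : 𝓞 K} (hD : 4 * a ^ 3 + 27 * b ^ 2 ≠ 0)
    (P P0 : SPt (a : K) (b : K)) (k : ℕ) (hP : P ≠ 0) (h0 : 2 ^ k • P0 ≠ 0)
    (hs : P + 2 ^ k • P0 ≠ 0) :
    ∃ V : K, sht (P + 2 ^ k • P0) = logHeight₁ V ∧
      let p := (phi a b k).eval₂ (algebraMap (𝓞 K) K) (xc P0)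
      let q := (psi a b k).eval₂ (algebraMap (𝓞 K) K) (xc P0)
      let N := (xc P * q + p) * (xc P * p + (a : K) * q) + 2 * (b : K) * q ^ 2
      let t := 2 * yc P * yc P0 * (om a b k).eval₂ (algebraMap (𝓞 K) K) (xc P0)
      V * (xc P * q - p) ^ 2 = N - t ∧
        V * (N + t) = (xc P * p - (a : K) * q) ^ 2 - 4 * (b : K) * q * (xc P * q + p) ∧
        ((xc P * q - p) ^ 2 ≠ 0 ∨ N + t ≠ 0) := by
  have hP0 : P0 ≠ 0 := by
    rintro rfl
    exact h0 (smul_zero _)
  obtain ⟨h, he⟩ := eq_some P hP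
  obtain ⟨h', he'⟩ := eq_some P0 hP0
  have e1 : (phi a b k).eval₂ (algebraMap (𝓞 K) K) (xc P0) =
      (phi (a : K) (b : K) k).eval (xc P0) := by
    rw [← phi_map (algebraMap (𝓞 K) K), Polynomial.eval_map]
  have e2 : (psi a b k).eval₂ (algebraMap (𝓞 K) K) (xc P0) =
      (psi (a : K) (b : K) k).eval (xc P0) := by
    rw [← psi_map (algebraMap (𝓞 K) K), Polynomial.eval_map]
  have e3 : (om a b k).eval₂ (algebraMap (𝓞 K) K) (xc P0) =
      (om (a : K) (b : K) k).eval (xc P0) := by
    rw [← om_map (algebraMap (𝓞 K) K), Polynomial.eval_map]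
  rw [he, he'] at hs
  rw [he'] at h0
  obtain ⟨V, W, h'', hsum, h1⟩ := (hDBL K (a : K) (b : K) (disc_ne hD)).2 k (xc P) (yc P) (xc P0)
    (yc P0) h h' h0 hs
  refine ⟨V, ?_, ?_⟩
  · rw [sht_xc]
    conv_lhs => rw [he, he', hsum]
    rfl
  · simp only [e1, e2, e3]
    exact h1

end dbl

end Pool.Agent.J4H27.GC
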