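import Pool.Agent.J4H27.GC.Mn3
import Pool.Agent.J4H67.GC.Hgt

/-!
# Exceptional pairs and special curves
-/

set_option autoImplicit false
set_option linter.unusedSectionVars false

open MvPolynomial Height Filter NumberField Pool.Agent.TH942

namespace Pool.Agent.J4H27.GC

variable {K : Type} [Field K] [NumberField K]

/-- pairs of points with a large common denominator -/
def Exc (a b : Fin 2 → K) (ε : ℝ) : Set (PP a b) :=
  {P | P 0 ≠ 0 ∧ P 1 ≠ 0 ∧
    logHeight ![1, xc (P 0), xc (P 1)] < (1 - ε) * (sht (P 0) + sht (P 1))}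

/-- `(x, x')` lies on a curve of degree at most `Δ` and height at most `δ (h(x) + h(x'))` -/
def Spc (Δ δ : ℝ) (x x' : K) : Prop :=
  ∃ Q : MvPolynomial (Fin 2) K, Irreducible Q ∧ 0 < Q.degreeOf 0 ∧ 0 < Q.degreeOf 1 ∧
    (Q.degreeOf 0 : ℝ) + Q.degreeOf 1 ≤ Δ ∧ eval ![x, x'] Q = 0 ∧
    hp Q ≤ δ * (logHeight₁ x + logHeight₁ x')

lemma exc_le {a b : Fin 2 → K} {ε : ℝ} {P : PP a b} (hP : P ∈ Exc a b ε) (j : Fin 2) :
    ε * (sht (P 0) + sht (P 1)) ≤ sht (P j) := by
  obtain ⟨-, -, h⟩ := hP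
  have h0 : sht (P 0) ≤ logHeight ![1, xc (P 0), xc (P 1)] := by
    rw [sht_xc, logHeight₁_eq_logHeight]
    have e : (![xc (P 0), 1] : Fin 2 → K) = ![1, xc (P 0), xc (P 1)] ∘ ![1, 0] := by
      funext i
      fin_cases i <;> rfl
    rw [e]
    exact logHeight_comp_le _ _
  have h1 : sht (P 1) ≤ logHeight ![1, xc (P 0), xc (P 1)] := by
    rw [sht_xc (P 1), logHeight₁_eq_logHeight]
    have e : (![xc (P 1), 1] : Fin 2 → K) = ![1, xc (P 0), xc (P 1)] ∘ ![2, 0] := by
      funext i
      fin_cases i <;> rfl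
    rw [e]
    exact logHeight_comp_le _ _
  fin_cases j
  · show ε * (sht (P 0) + sht (P 1)) ≤ sht (P 0)
    linarith
  · show ε * (sht (P 0) + sht (P 1)) ≤ sht (P 1)
    linarith

lemma irreducible_of_rename {σ τ : Type} {f : σ → τ} (hf : Function.Injective f)
    {q : MvPolynomial σ K} (h : Irreducible (rename f q)) : Irreducible q := by
  constructor
  · intro hu
    exact h.not_isUnit (hu.map (rename f))
  · intro p r hpr
    have h1 := h.isUnit_or_isUnit (a := rename f p) (b := rename f r) (by rw [hpr, map_mul])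
    rcases h1 with h1 | h1
    · left
      have := h1.map (killCompl hf)
      rwa [killCompl_rename_app] at this
    · right
      have := h1.map (killCompl hf)
      rwa [killCompl_rename_app] at this

lemma spc_of_vars {σ : Type} [DecidableEq σ] {Q : MvPolynomial σ K} {i j : σ} (hij : i ≠ j)
    (hQ : Irreducible Q) (hv : Q.vars ⊆ {i, j}) (hi : 0 < Q.degreeOf i) (hj : 0 < Q.degreeOf j)
    {Δ δ : ℝ} (hΔ : (Q.degreeOf i : ℝ) + Q.degreeOf j ≤ Δ) {x : σ → K} (he : eval x Q = 0)
    (hh : hp Q ≤ δ * (logHeight₁ (x i) + logHeight₁ (x j))) : Spc Δ δ (x i) (x j) := by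
  have hf : Function.Injective (![i, j] : Fin 2 → σ) := by
    intro u v huv
    fin_cases u <;> fin_cases v <;> simp_all
  obtain ⟨q, hq⟩ := exists_rename_eq_of_vars_subset_range Q ![i, j] hf (by
    intro v hv'
    have := hv hv'
    rw [Finset.mem_insert, Finset.mem_singleton] at this
    rcases this with rfl | rfl
    · exact ⟨0, rfl⟩
    · exact ⟨1, rfl⟩)
  have e0 : Q.degreeOf i = q.degreeOf 0 := by
    rw [← hq]
    exact degreeOf_rename_of_injective (p := q) hf 0
  have e1 : Q.degreeOf j = q.degreeOf 1 := by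
    rw [← hq]
    exact degreeOf_rename_of_injective (p := q) hf 1
  refine ⟨q, irreducible_of_rename hf (hq ▸ hQ), e0 ▸ hi, e1 ▸ hj, by rw [← e0, ← e1]; exact hΔ,
    ?_, ?_⟩
  · rw [← hq, eval_rename] at he
    have e : (![x i, x j] : Fin 2 → K) = x ∘ ![i, j] := by
      funext u
      fin_cases u <;> rfl
    rw [e]
    exact he
  · rw [← hq, Pool.Agent.J4H67.GC.hp_rename hf] at hh
    exact hh

/-- index of the point -/
def ix {m : ℕ} : Option (Fin m) → Fin (m + 1)
  | none => 0
  | some i => i.succ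

lemma ix_inj {m : ℕ} : Function.Injective (ix (m := m)) := by
  intro u v huv
  cases u <;> cases v
  · rfl
  · exact absurd huv (Fin.succ_ne_zero _).symm
  · exact absurd huv (Fin.succ_ne_zero _)
  · rw [Fin.succ_injective _ huv]

end Pool.Agent.J4H27.GC
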