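import Pool.Agent.J4H27.GC.Mn4

/-!
# The main theorem for integral coefficients
-/

set_option autoImplicit false
set_option linter.unusedSectionVars false
set_option linter.unusedVariables false

open MvPolynomial Height Filter NumberField Pool.Agent.TH942

namespace Pool.Agent.J4H27.GC

section real

/-- numerical facts about the vectors -/
lemma vec_facts {E : Type} [NormedAddCommGroup E] [InnerProductSpace ℝ E] (v v0 : E) (k : ℕ)
    (κ U B : ℝ) (hκ : 0 < κ) (hκ1 : κ ≤ 1 / 2) (hU : 0 < U) (h0 : 2 * κ * U ≤ ‖v0‖)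
    (hB : ‖v0‖ ≤ B * U) (h : ‖v - (2 : ℝ) ^ k • v0‖ ≤ κ * 2 ^ k * U) :
    2 ^ k * (κ * U) ≤ ‖v‖ ∧ ‖v‖ ≤ 2 ^ k * ((B + 1) * U) ∧ v + (2 : ℝ) ^ k • v0 ≠ 0 ∧
      2 * ‖v‖ ^ 2 + 2 * 4 ^ k * ‖v0‖ ^ 2 - ‖v + (2 : ℝ) ^ k • v0‖ ^ 2 ≤ 4 ^ k * (κ ^ 2 * U ^ 2) := by
  have h2 : (0 : ℝ) < 2 ^ k := by positivity
  have e1 : ‖(2 : ℝ) ^ k • v0‖ = 2 ^ k * ‖v0‖ := by
    rw [norm_smul, Real.norm_of_nonneg h2.le]
  have h3 : ‖(2 : ℝ) ^ k • v0‖ ≤ ‖v‖ + ‖v - (2 : ℝ) ^ k • v0‖ := by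
    have := norm_sub_le v (v - (2 : ℝ) ^ k • v0)
    rwa [sub_sub_cancel] at this
  have h4 : ‖v‖ ≤ ‖(2 : ℝ) ^ k • v0‖ + ‖v - (2 : ℝ) ^ k • v0‖ := by
    have := norm_add_le ((2 : ℝ) ^ k • v0) (v - (2 : ℝ) ^ k • v0)
    rwa [add_sub_cancel] at this
  have h5 : 2 ^ k * (2 * κ * U) ≤ 2 ^ k * ‖v0‖ := mul_le_mul_of_nonneg_left h0 h2.le
  have h6 : 2 ^ k * ‖v0‖ ≤ 2 ^ k * (B * U) := mul_le_mul_of_nonneg_left hB h2.le
  refine ⟨?_, ?_, ?_, ?_⟩
  · rw [e1] at h3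
    nlinarith
  · rw [e1] at h4
    have : κ * 2 ^ k * U ≤ 2 ^ k * (1 * U) := by
      have : κ * (2 ^ k * U) ≤ 1 * (2 ^ k * U) :=
        mul_le_mul_of_nonneg_right (by linarith) (by positivity)
      linarith
    linarith
  · intro h7
    have h8 : v - (2 : ℝ) ^ k • v0 = -((2 : ℝ) • (2 : ℝ) ^ k • v0) := by
      rw [eq_neg_of_add_eq_zero_left h7, two_smul]
      abel
    rw [h8, norm_neg, norm_smul, e1] at h
    have h9 : ‖(2 : ℝ)‖ = 2 := by norm_num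
    rw [h9] at h
    have h10 : 0 < 2 ^ k * (κ * U) := by positivity
    nlinarith
  · have h7 := parallelogram_law_with_norm ℝ v ((2 : ℝ) ^ k • v0)
    rw [e1] at h7
    have h8 : ‖v - (2 : ℝ) ^ k • v0‖ * ‖v - (2 : ℝ) ^ k • v0‖ ≤
        (κ * 2 ^ k * U) * (κ * 2 ^ k * U) := mul_self_le_mul_self (norm_nonneg _) h
    have h9 : (4 : ℝ) ^ k = 2 ^ k * 2 ^ k := by
      rw [← mul_pow]; norm_num
    rw [h9]
    nlinarith

end real

variable {K : Type} [Field K] [NumberField K] [DecidableEq K]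

omit [DecidableEq K] in
lemma degreeOf_map_le {σ : Type} (P : MvPolynomial σ (𝓞 K)) (v : σ) :
    (map (algebraMap (𝓞 K) K) P).degreeOf v ≤ P.degreeOf v := by
  rw [degreeOf_le_iff]
  intro s hs
  refine degreeOf_le_iff.1 le_rfl s ?_
  exact support_map_subset _ _ hs

lemma spc_pair {m : ℕ} {x : Ix m → K} {i j : Ix m} (hij : i ≠ j) (hi1 : i.1 = j.1)
    {Q : MvPolynomial (Ix m) K} (hirr : Irreducible Q) (hvars : Q.vars ⊆ {i, j})
    (hdi : 0 < Q.degreeOf i) (hdj : 0 < Q.degreeOf j) {Δ δ : ℝ}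
    (hdeg : (Q.degreeOf i : ℝ) + Q.degreeOf j ≤ Δ) (hev : eval x Q = 0)
    (hhp : hp Q ≤ δ * (logHeight₁ (x i) + logHeight₁ (x j))) :
    Spc Δ δ (x (i.1, 0)) (x (i.1, 1)) := by
  obtain ⟨i1, i2⟩ := i
  obtain ⟨j1, j2⟩ := j
  simp only at hi1
  subst hi1
  have h2 : ∀ u : Fin 2, u = 0 ∨ u = 1 := by decide
  rcases h2 i2 with rfl | rfl <;> rcases h2 j2 with rfl | rfl
  · exact absurd rfl hij
  · exact spc_of_vars (x := x) hij hirr hvars hdi hdj hdeg hev hhp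
  · exact spc_of_vars (x := x) hij.symm hirr (by rw [Finset.pair_comm]; exact hvars) hdj hdi
      (by rw [add_comm]; exact hdeg) hev (by rw [add_comm (logHeight₁ (x (i1, 0)))]; exact hhp)
  · exact absurd rfl hij

/-- the situation of the main argument -/
lemma core_cfg (hAUX : S_AUX) (hNVN : S_NVN) (hDBL : S_DBL) (a b : Fin 2 → 𝓞 K)
    (hD : ∀ j, 4 * (a j) ^ 3 + 27 * (b j) ^ 2 ≠ 0) (ε : ℝ) (hε : 0 < ε) (hε1 : ε ≤ 1)
    (n : Fin 2 → ℕ) (ψ : (j : Fin 2) → SPt (a j : K) (b j : K) →+ EuclideanSpace ℝ (Fin (n j)))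
    (C : ℝ) (hC : 0 ≤ C) (hψ : ∀ j (P : SPt (a j : K) (b j : K)), |‖ψ j P‖ ^ 2 - sht P| ≤ C)
    (A : ℝ) (hA : A = (Real.sqrt (4 / ε) + 1) ^ 2) (q m : ℕ) (hq1 : 1 ≤ q) (hm : m = q ^ 2)
    (hqA : 768 * A ≤ q * ε) (κ : ℝ) (hκ0 : 0 < κ) (hκ1 : κ ≤ 1 / 2) (hκ2 : 2 * m * κ ^ 2 ≤ 1)
    (C₁ : ℝ) (hSer : ∀ j (x h : K), h ^ 2 = x ^ 3 + (a j : K) * x + (b j : K) → h ≠ 0 →
      ∃ E, IsSer (a j) (b j) C₁ x h E)
    (CA : ℝ) (hCA : 1 ≤ CA)
    (hAux : ∀ (D k T : Fin m → ℕ) (d e : ℕ), 1 ≤ d → (∀ i, 1 ≤ D i) →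
    (∀ i, D i * 4 ^ k i = d) → e ≤ d → (∀ i, 512 * m * (T i) ^ 2 * d ^ 2 ≤ (e + 1) ^ 2 * D i ^ 2) →
    ∃ F : NN D → MvPolynomial (Fin 2) (𝓞 K), F ≠ 0 ∧ (∀ n j, (F n).degreeOf j ≤ e) ∧
      (∀ n, len (F n) ≤ CA ^ d) ∧
      ∀ (r : Fin m → Fin 2 → Bool) (κ : Fin m → Fin 2 → ℕ × Bool) (i : Fin m),
        4 * D i < (κ i 0).1 + (κ i 1).1 + T i → GG a b D k F r κ = 0)
    (CN : ℕ) (hCN : 0 < CN)
    (hNvn : ∀ (D k : Fin m → ℕ) (d e : ℕ), 1 ≤ d → (∀ i, 1 ≤ D i) →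
    (∀ i, D i * 4 ^ k i = d) → e ≤ d → ∀ (F : NN D → MvPolynomial (Fin 2) (𝓞 K)) (Λ : ℝ),
    1 ≤ Λ → F ≠ 0 → (∀ n j, (F n).degreeOf j ≤ e) → (∀ n, len (F n) ≤ Λ) →
    ∃ P : MvPolynomial (Ix m) (𝓞 K), P ≠ 0 ∧ (∀ j, P.degreeOf (none, j) ≤ CN * d) ∧
      (∀ i j, P.degreeOf (some i, j) ≤ CN * D i) ∧ len P ≤ ((CN : ℝ) ^ d * Λ) ^ CN ∧
      ∀ (S : Type) [CommRing S] (g : 𝓞 K →+* S) (x h : Ix m → S), OnE a b g x h →
        P.eval₂ g x = ∏ ε : Fin m → Fin 2 → Bool, Val a b D k g x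
          (fun s => match s with
            | (none, j) => h (none, j)
            | (some i, j) => if ε i j then h (some i, j) else -h (some i, j))
          (fun _ _ => true) F)
    (Cp : ℝ) (hCp : 1 ≤ Cp)
    (hPf : ∀ (D k T : Fin m → ℕ) (d e : ℕ), 1 ≤ d → (∀ i, 1 ≤ D i) →
    (∀ i, D i * 4 ^ k i = d) → e ≤ d → ∀ (F : NN D → MvPolynomial (Fin 2) (𝓞 K)) (Λ : ℝ),
    1 ≤ Λ → (∀ n j, (F n).degreeOf j ≤ e) → (∀ n, len (F n) ≤ Λ) →
    (∀ (r : Fin m → Fin 2 → Bool) (κ : Fin m → Fin 2 → ℕ × Bool) (i : Fin m),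
        4 * D i < (κ i 0).1 + (κ i 1).1 + T i → GG a b D k F r κ = 0) →
    ∀ (x h : Ix m → K) (E : Ix m → PowerSeries K) (V : Fin m → Fin 2 → K) (w : Ix m → ℕ)
      (s : Ix m →₀ ℕ),
      (∀ s, h s ^ 2 = x s ^ 3 + (a s.2 : K) * x s + (b s.2 : K)) →
      (∀ s, IsSer (a s.2) (b s.2) C₁ (x s) (h s) (E s)) → (∀ t, 0 < w t) →
      (∀ i j,
        let p := (phi (a j) (b j) (k i)).eval₂ (algebraMap (𝓞 K) K) (x (none, j))
        let q := (psi (a j) (b j) (k i)).eval₂ (algebraMap (𝓞 K) K) (x (none, j))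
        let N := (x (some i, j) * q + p) * (x (some i, j) * p + (a j : K) * q) +
          2 * (b j : K) * q ^ 2
        let t := 2 * h (some i, j) * h (none, j) *
          (om (a j) (b j) (k i)).eval₂ (algebraMap (𝓞 K) K) (x (none, j))
        V i j * (x (some i, j) * q - p) ^ 2 = N - t ∧
          V i j * (N + t) =
            (x (some i, j) * p - (a j : K) * q) ^ 2 -
              4 * (b j : K) * q * (x (some i, j) * q + p) ∧
          ((x (some i, j) * q - p) ^ 2 ≠ 0 ∨ N + t ≠ 0)) →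
      MvPowerSeries.coeff s (Val a b D k (gR K m) (xR x h) (hR h E) (fun _ _ => true) F) ≠ 0 →
      (∀ s' : Ix m →₀ ℕ, ∑ t, w t * s' t < ∑ t, w t * s t →
        MvPowerSeries.coeff s' (Val a b D k (gR K m) (xR x h) (hR h E) (fun _ _ => true) F) = 0) →
      ∑ i, (T i : ℝ) * (logHeight₁ (x (some i, 0)) + logHeight₁ (x (some i, 1)) -
          logHeight ![1, x (some i, 0), x (some i, 1)]) +
        ∑ i, ∑ j, (D i : ℝ) * logHeight₁ (V i j) ≤
        Cp * (d + ∑ t, (s t : ℝ) + Real.log Λ) +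
        (e + 2 * m * d + 2 * m) * ∑ j, logHeight₁ (x (none, j)) +
        ∑ i, ∑ j, (2 * (D i : ℝ) + 2) * logHeight₁ (x (some i, j)) +
        2 * ∑ t, (s t : ℝ) * logHeight₁ (x t))
    (Rz : ℕ) (Hz Δ B' : ℝ)
    (hZl : ∀ (w : Ix m → ℕ) (a : Ix m → K),
      (∀ i, 0 < w i) → (∀ i j, w i < w j → Rz * w i ≤ w j) →
      (∀ i j k, w i = w j → w j = w k → i = j ∨ j = k ∨ i = k) →
      (∀ i, Hz * w i ≤ logHeight₁ (a i)) →
      ∀ (P : MvPolynomial (Ix m) K) (t : ℕ), P ≠ 0 → 0 < t → Ow w a P t →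
        1 / (2 * (m + 1) * CN * (8 * (m + 1))) * (Nd w P : ℝ) ≤ t →
        hp P ≤ (8 * (m + 1)) * totalWeight K * CN * (Real.log CN + Real.log CA) * t →
      ∃ (i j : Ix m) (Q : MvPolynomial (Ix m) K), i ≠ j ∧ w i = w j ∧ Irreducible Q ∧
        Q.vars ⊆ {i, j} ∧
        0 < Q.degreeOf i ∧ 0 < Q.degreeOf j ∧ (Q.degreeOf i : ℝ) + Q.degreeOf j ≤ Δ ∧
        eval a Q = 0 ∧ hp Q ≤ B' * w i)
    (δ : ℝ) (hδ : 0 < δ) (P : Fin (m + 1) → PP (fun j => (a j : K)) (fun j => (b j : K)))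
    (k : Fin (m + 1) → ℕ) (hPS : ∀ i, P i ∈ Exc _ _ ε) (hk0 : k 0 = 0)
    (hk : ∀ i j, i < j → k i + (Rz + 1) ≤ k j)
    (hsz : ∀ i j, ‖ψ j (P i j)‖ ≤ Real.sqrt (4 / ε) * ‖ψ 0 (P i 0)‖)
    (hcl : ∀ i j, ‖ψ j (P i j) - (2 : ℝ) ^ k i • ψ j (P 0 j)‖ ≤ κ * 2 ^ k i * ‖ψ 0 (P 0 0)‖)
    (hκ3 : 8 * κ ^ 2 ≤ ε) (hU0 : 1 ≤ ‖ψ 0 (P 0 0)‖)
    (hU1 : Cp * (2 * m + 3 + Real.log CA) + (4 + 10 * m) * C + q * ε * C < ‖ψ 0 (P 0 0)‖ ^ 2)
    (hU2 : 2 * (ε + 1) * C ≤ ε * ‖ψ 0 (P 0 0)‖ ^ 2)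
    (hU3 : Hz + C ≤ κ ^ 2 * ‖ψ 0 (P 0 0)‖ ^ 2)
    (hU4 : B' + δ * C ≤ δ * (κ ^ 2 * ‖ψ 0 (P 0 0)‖ ^ 2)) :
    ∃ i, Spc Δ δ (xc (P i 0)) (xc (P i 1)) := by
  classical
  set U : ℝ := ‖ψ 0 (P 0 0)‖ with hU
  have hUpos : 0 < U := by linarith
  set Bq : ℝ := Real.sqrt (4 / ε) with hBq
  have hBq0 : 0 ≤ Bq := Real.sqrt_nonneg _
  have hBq2 : Bq ^ 2 = 4 / ε := Real.sq_sqrt (by positivity)
  have h4p : ∀ l : ℕ, (4 : ℝ) ^ l = 2 ^ l * 2 ^ l := fun l => by rw [← mul_pow]; norm_num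
  have h4one : ∀ l : ℕ, (1 : ℝ) ≤ 4 ^ l := fun l => one_le_pow₀ (by norm_num)
  -- norms
  have hN1 : ∀ j, 2 * κ * U ≤ ‖ψ j (P 0 j)‖ := by
    intro j
    have h1 := exc_le (hPS 0) j
    have h2 := (abs_le.1 (hψ 0 (P 0 0))).2
    have h3 := (abs_le.1 (hψ j (P 0 j))).1
    have h4 := sht_nonneg (P 0 1)
    have h5 : ε * (U ^ 2 - C) ≤ sht (P 0 j) := by
      refine le_trans ?_ h1
      refine mul_le_mul_of_nonneg_left ?_ hε.le
      linarith
    have h6 : (2 * κ * U) ^ 2 ≤ ‖ψ j (P 0 j)‖ ^ 2 := by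
      have : 8 * κ ^ 2 * U ^ 2 ≤ ε * U ^ 2 := mul_le_mul_of_nonneg_right hκ3 (sq_nonneg _)
      have h7 : C ≤ (ε + 1) * C := by nlinarith
      nlinarith
    exact (pow_le_pow_iff_left₀ (by positivity) (norm_nonneg _) two_ne_zero).1 h6
  have hfact := fun (i : Fin (m + 1)) (j : Fin 2) =>
    vec_facts (ψ j (P i j)) (ψ j (P 0 j)) (k i) κ U Bq hκ0 hκ1 hUpos (hN1 j) (hsz 0 j) (hcl i j)
  have hψne : ∀ i j, ψ j (P i j) ≠ 0 := by
    intro i j h0
    have h1 := (hfact i j).1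
    rw [h0, norm_zero] at h1
    have : 0 < 2 ^ k i * (κ * U) := by positivity
    linarith
  have h2ne : ∀ i j, 2 • P i j ≠ 0 := by
    intro i j h0
    have h1 : ψ j (2 • P i j) = 0 := by rw [h0, map_zero]
    rw [map_nsmul] at h1
    have h2 : (2 : ℝ) • ψ j (P i j) = 0 := by
      rw [two_smul]
      rwa [two_nsmul] at h1
    rcases smul_eq_zero.1 h2 with h3 | h3
    · norm_num at h3
    · exact hψne i j h3
  have hPne : ∀ i j, P i j ≠ 0 := by
    intro i j h0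
    apply h2ne i j
    rw [h0, smul_zero]
  have hpowψ : ∀ (l : ℕ) (j : Fin 2) (Q : SPt (a j : K) (b j : K)),
      ψ j (2 ^ l • Q) = (2 : ℝ) ^ l • ψ j Q := by
    intro l j Q
    rw [map_nsmul, ← Nat.cast_smul_eq_nsmul ℝ]
    push_cast
    rfl
  have h2k : ∀ (l : ℕ) (j : Fin 2), 2 ^ l • P 0 j ≠ 0 := by
    intro l j h0
    have h1 := hpowψ l j (P 0 j)
    rw [h0, map_zero] at h1
    rcases smul_eq_zero.1 h1.symm with h3 | h3
    · exact absurd h3 (by positivity)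
    · exact hψne 0 j h3
  have hsum : ∀ i j, P i j + 2 ^ k i • P 0 j ≠ 0 := by
    intro i j h0
    apply (hfact i j).2.2.1
    rw [← hpowψ, ← map_add, h0, map_zero]
  -- coordinates
  let pt : (t : Ix m) → SPt ((a t.2 : 𝓞 K) : K) ((b t.2 : 𝓞 K) : K) := fun t => P (ix t.1) t.2
  let x : Ix m → K := fun t => xc (pt t)
  let h : Ix m → K := fun t => yc (pt t)
  let kk : Fin m → ℕ := fun i => k i.succ
  let w : Ix m → ℕ := fun t => 4 ^ k (ix t.1)
  have hxy : ∀ t, h t ^ 2 = x t ^ 3 + (a t.2 : K) * x t + (b t.2 : K) := fun t =>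
    yc_sq (pt t) (hPne _ _)
  have hhne : ∀ t, h t ≠ 0 := fun t => yc_ne (pt t) (h2ne _ _)
  choose V hVh hVrel using fun (i : Fin m) (j : Fin 2) =>
    dbl_pt hDBL (hD j) (P i.succ j) (P 0 j) (kk i) (hPne _ _) (h2k _ _) (hsum i.succ j)
  choose E hE using fun t : Ix m => hSer t.2 (x t) (h t) (hxy t) (hhne t)
  -- heights
  have hht : ∀ t, logHeight₁ (x t) = sht (pt t) := fun t => (sht_xc _).symm
  have hlow : ∀ t, 4 ^ k (ix t.1) * (κ ^ 2 * U ^ 2) - C ≤ logHeight₁ (x t) := by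
    intro t
    rw [hht]
    have h1 := (hfact (ix t.1) t.2).1
    have h2 := (abs_le.1 (hψ t.2 (pt t))).2
    have h3 : (2 ^ k (ix t.1) * (κ * U)) ^ 2 ≤ ‖ψ t.2 (P (ix t.1) t.2)‖ ^ 2 :=
      pow_le_pow_left₀ (by positivity) h1 2
    have h4 : (2 ^ k (ix t.1) * (κ * U)) ^ 2 = 4 ^ k (ix t.1) * (κ ^ 2 * U ^ 2) := by
      rw [h4p]; ring
    rw [h4] at h3
    have h5 : ψ t.2 (pt t) = ψ t.2 (P (ix t.1) t.2) := rfl
    rw [h5] at h2
    linarith
  have hup : ∀ t, logHeight₁ (x t) ≤ A * 4 ^ k (ix t.1) * U ^ 2 + C := by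
    intro t
    rw [hht]
    have h1 := (hfact (ix t.1) t.2).2.1
    have h2 := (abs_le.1 (hψ t.2 (pt t))).1
    have h3 : ‖ψ t.2 (P (ix t.1) t.2)‖ ^ 2 ≤ (2 ^ k (ix t.1) * ((Bq + 1) * U)) ^ 2 :=
      pow_le_pow_left₀ (norm_nonneg _) h1 2
    have h4 : (2 ^ k (ix t.1) * ((Bq + 1) * U)) ^ 2 = A * 4 ^ k (ix t.1) * U ^ 2 := by
      rw [h4p, hA]; ring
    rw [h4] at h3
    have h5 : ψ t.2 (pt t) = ψ t.2 (P (ix t.1) t.2) := rfl
    rw [h5] at h2
    linarith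
  -- the monotonicity of k
  have hkle : ∀ i, k i ≤ k (Fin.last m) := by
    intro i
    rcases eq_or_lt_of_le (Fin.le_last i) with h1 | h1
    · rw [h1]
    · have := hk i _ h1
      omega
  have hkinj : ∀ i j, k i = k j → i = j := by
    intro i j hij
    rcases lt_trichotomy i j with h1 | h1 | h1
    · have := hk _ _ h1
      omega
    · exact h1
    · have := hk _ _ h1
      omega
  set K' : ℕ := k (Fin.last m) with hK'
  have hm1 : 1 ≤ m := by
    rw [hm]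
    exact Nat.one_le_pow _ _ hq1
  set M : ℕ := 8 * (m + 1) with hM
  set N : ℕ := 32 * q * M with hN
  have hN1' : 1 ≤ N := by
    rw [hN, hM]
    have : 1 ≤ 32 * q := by omega
    exact Nat.one_le_iff_ne_zero.2 (by positivity)
  let D : Fin m → ℕ := fun i => N * 4 ^ (K' - kk i)
  let T : Fin m → ℕ := fun i => M * 4 ^ (K' - kk i)
  set d : ℕ := N * 4 ^ K' with hd
  have hd1 : 1 ≤ d := Nat.one_le_iff_ne_zero.2 (by positivity)
  have hD1 : ∀ i, 1 ≤ D i := fun i => Nat.one_le_iff_ne_zero.2 (by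
    show N * 4 ^ (K' - kk i) ≠ 0
    positivity)
  have hDk : ∀ i, D i * 4 ^ kk i = d := by
    intro i
    show N * 4 ^ (K' - kk i) * 4 ^ kk i = N * 4 ^ K'
    rw [mul_assoc, ← pow_add, Nat.sub_add_cancel (hkle _)]
  have hTD : ∀ i, 32 * q * T i = D i := by
    intro i
    show 32 * q * (M * 4 ^ (K' - kk i)) = 32 * q * M * 4 ^ (K' - kk i)
    ring
  have hineq : ∀ i, 512 * m * (T i) ^ 2 * d ^ 2 ≤ (d + 1) ^ 2 * D i ^ 2 := by
    intro i
    rw [← hTD i, hm]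
    have h1 : d ^ 2 ≤ (d + 1) ^ 2 := Nat.pow_le_pow_left (by omega) 2
    calc 512 * q ^ 2 * T i ^ 2 * d ^ 2 ≤ (1024 * q ^ 2 * T i ^ 2) * (d + 1) ^ 2 := by
          have h2 : 512 * q ^ 2 * T i ^ 2 ≤ 1024 * q ^ 2 * T i ^ 2 := by
            have : 0 ≤ q ^ 2 * T i ^ 2 := Nat.zero_le _
            nlinarith
          exact Nat.mul_le_mul h2 h1
      _ = (d + 1) ^ 2 * (32 * q * T i) ^ 2 := by ring
  obtain ⟨F, hF0, hFdeg, hFlen, hFvan⟩ := hAux D kk T d d hd1 hD1 hDk le_rfl hineq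
  have hΛ : (1 : ℝ) ≤ CA ^ d := one_le_pow₀ hCA
  obtain ⟨Pp, hPp0, hPdn, hPds, hPlen, hPval⟩ :=
    hNvn D kk d d hd1 hD1 hDk le_rfl F (CA ^ d) hΛ hF0 hFdeg hFlen
  have hPk0 : map (algebraMap (𝓞 K) K) Pp ≠ 0 := by
    intro h0
    apply hPp0
    apply map_injective (algebraMap (𝓞 K) K) (RingOfIntegers.coe_injective (K := K))
    rw [h0, map_zero]
  set t0 : ℕ := 32 * q * 4 ^ K' with ht0
  have hdt : d = M * t0 := by
    rw [hd, hN, ht0]; ring
  have hdtr : (d : ℝ) = (8 * ((m : ℝ) + 1)) * t0 := by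
    rw [hdt, hM]
    push_cast
    ring
  have hwpos : ∀ t, 0 < w t := fun t => by
    show 0 < 4 ^ k (ix t.1)
    positivity
  by_cases hO : Ow w x (map (algebraMap (𝓞 K) K) Pp) t0
  · -- large order: special curves
    obtain ⟨i, j, Q, hij, hwij, hirr, hvars, hdi, hdj, hdeg, hev, hhp⟩ := hZl w x hwpos (by
      intro s t hst
      have h1 : k (ix s.1) < k (ix t.1) := by
        by_contra hc
        exact absurd hst (not_lt.2 (Nat.pow_le_pow_right (by norm_num) (not_lt.1 hc)))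
      have h2 : ix s.1 < ix t.1 := by
        rcases lt_trichotomy (ix s.1) (ix t.1) with h3 | h3 | h3
        · exact h3
        · rw [h3] at h1
          exact absurd h1 (lt_irrefl _)
        · have := hk _ _ h3
          omega
      have h3 := hk _ _ h2
      show Rz * 4 ^ k (ix s.1) ≤ 4 ^ k (ix t.1)
      calc Rz * 4 ^ k (ix s.1) ≤ 4 ^ (Rz + 1) * 4 ^ k (ix s.1) := by
            refine Nat.mul_le_mul_right _ ?_
            calc Rz ≤ 4 ^ Rz := (Nat.lt_pow_self (by norm_num)).le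
              _ ≤ 4 ^ (Rz + 1) := Nat.pow_le_pow_right (by norm_num) (Nat.le_succ _)
        _ = 4 ^ (k (ix s.1) + (Rz + 1)) := by rw [← pow_add, add_comm]
        _ ≤ 4 ^ k (ix t.1) := Nat.pow_le_pow_right (by norm_num) h3) (by
      intro r s t h1 h2
      have e : ∀ u v : Ix m, w u = w v → u.1 = v.1 := by
        intro u v huv
        exact ix_inj (hkinj _ _ (Nat.pow_right_injective (by norm_num) huv))
      have e1 := e _ _ h1
      have e2 := e _ _ h2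
      obtain ⟨r1, r2⟩ := r
      obtain ⟨s1, s2⟩ := s
      obtain ⟨t1, t2⟩ := t
      simp only at e1 e2
      subst e1
      subst e2
      fin_cases r2 <;> fin_cases s2 <;> fin_cases t2 <;> simp) (by
      intro t
      have h1 := hlow t
      have h2 : (w t : ℝ) = 4 ^ k (ix t.1) := by
        show ((4 ^ k (ix t.1) : ℕ) : ℝ) = _
        push_cast
        rfl
      rw [h2]
      have h3 := mul_le_mul_of_nonneg_left hU3 (zero_le_one.trans (h4one (k (ix t.1))))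
      have h4 := h4one (k (ix t.1))
      nlinarith) (map (algebraMap (𝓞 K) K) Pp) t0 hPk0 (by
      rw [ht0]
      positivity) hO (by
      have h1 : Nd w (map (algebraMap (𝓞 K) K) Pp) ≤ 2 * (m + 1) * (CN * d) := by
        unfold Nd
        have h2 : ∀ t : Ix m, w t * (map (algebraMap (𝓞 K) K) Pp).degreeOf t ≤ CN * d := by
          rintro ⟨t, j⟩
          refine (Nat.mul_le_mul_left _ (degreeOf_map_le Pp (t, j))).trans ?_
          cases t with
          | none =>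
            show 4 ^ k 0 * _ ≤ _
            rw [hk0, pow_zero, one_mul]
            exact hPdn j
          | some i =>
            show 4 ^ kk i * _ ≤ _
            refine (Nat.mul_le_mul_left _ (hPds i j)).trans (le_of_eq ?_)
            rw [← hDk i]
            ring
        refine (Finset.sum_le_sum fun t _ => h2 t).trans (le_of_eq ?_)
        rw [Finset.sum_const, Finset.card_univ, Fintype.card_prod, Fintype.card_option,
          Fintype.card_fin, Fintype.card_fin, smul_eq_mul]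
        ring
      have h2 : (Nd w (map (algebraMap (𝓞 K) K) Pp) : ℝ) ≤ 2 * (m + 1) * (CN * d) := by
        exact_mod_cast h1
      have hCN' : (0 : ℝ) < CN := by exact_mod_cast hCN
      rw [div_mul_eq_mul_div, one_mul, div_le_iff₀ (by positivity)]
      refine h2.trans (le_of_eq ?_)
      rw [hdtr]
      ring) (by
      have hCN' : (1 : ℝ) ≤ CN := by exact_mod_cast hCN
      have h1 : (1 : ℝ) ≤ ((CN : ℝ) ^ d * CA ^ d) ^ CN :=
        one_le_pow₀ (one_le_mul_of_one_le_of_one_le (one_le_pow₀ hCN') (one_le_pow₀ hCA))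
      refine (hp_int Pp _ h1 hPlen).trans (le_of_eq ?_)
      rw [Real.log_pow, Real.log_mul (by positivity) (by positivity), Real.log_pow, Real.log_pow,
        hdtr]
      ring)
    have hi1 : i.1 = j.1 := ix_inj (hkinj _ _ (Nat.pow_right_injective (by norm_num) hwij))
    have hwi : (w i : ℝ) = 4 ^ k (ix i.1) := by
      show ((4 ^ k (ix i.1) : ℕ) : ℝ) = _
      push_cast
      rfl
    have hhp' : hp Q ≤ δ * (logHeight₁ (x i) + logHeight₁ (x j)) := by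
      refine hhp.trans ?_
      rw [hwi]
      have h1 := hlow i
      have h2 : 0 ≤ logHeight₁ (x j) := by
        rw [hht]
        exact sht_nonneg _
      have h3 := mul_le_mul_of_nonneg_right hU4 (zero_le_one.trans (h4one (k (ix i.1))))
      have h4 : δ * (4 ^ k (ix i.1) * (κ ^ 2 * U ^ 2) - C) ≤
          δ * (logHeight₁ (x i) + logHeight₁ (x j)) :=
        mul_le_mul_of_nonneg_left (by linarith) hδ.le
      have h5 := h4one (k (ix i.1))
      have h6 : 0 ≤ δ * C * (4 ^ k (ix i.1) - 1) :=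
        mul_nonneg (mul_nonneg hδ.le hC) (by linarith)
      nlinarith
    have hres := spc_pair (x := x) hij hi1 hirr hvars hdi hdj hdeg hev hhp'
    exact ⟨ix i.1, hres⟩
  · -- small order: contradiction
    exfalso
    obtain ⟨s, hs1, hs2, hs3⟩ := exists_coeff a b D kk F C₁ x h E hE hhne Pp hPval w t0 hO
    have hpf := hPf D kk T d d hd1 hD1 hDk le_rfl F (CA ^ d) hΛ hFdeg hFlen hFvan x h E V w s
      hxy hE hwpos hVrel hs1 hs3
    have hsle : ∀ t, w t * s t < t0 := fun t =>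
      lt_of_le_of_lt (Finset.single_le_sum (f := fun t => w t * s t)
        (fun _ _ => Nat.zero_le _) (Finset.mem_univ t)) hs2
    have hsq : ∀ P Q : SPt (a 0 : K) (b 0 : K), True := fun _ _ => trivial
    refine param q m d M N D kk T ε A C Cp (Real.log CA) U κ hm hq1 (by omega) hN1' hd1 hDk ?_ ?_
      hTD ?_ (by omega) hε ?_ hC (by linarith) (Real.log_nonneg hCA) hκ2 hqA
      (fun j => logHeight₁ (x (none, j))) (fun i j => logHeight₁ (x (some i, j)))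
      (fun i j => logHeight₁ (V i j))
      (fun i => logHeight₁ (x (some i, 0)) + logHeight₁ (x (some i, 1)) -
          logHeight ![1, x (some i, 0), x (some i, 1)])
      (fun j => (s (none, j) : ℝ)) (fun i j => (s (some i, j) : ℝ)) ?_ ?_ ?_ ?_ ?_ ?_ ?_ hU1
    · intro i
      exact Nat.le_mul_of_pos_right _ (by positivity)
    · exact Nat.le_mul_of_pos_right _ (by positivity)
    · rw [hN, hM]
      have : 1 ≤ 32 * q := by omega
      nlinarith
    · rw [hA]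
      have : (1 : ℝ) ≤ Bq + 1 := by linarith
      exact one_le_pow₀ this
    · intro j
      have h1 := hup (none, j)
      have h2 : k (ix (m := m) none) = 0 := hk0
      simp only [h2, pow_zero, mul_one] at h1
      exact h1
    · intro i j
      exact hup (some i, j)
    · intro i
      have h1 := (hPS i.succ).2.2
      have e1 : logHeight₁ (x (some i, 0)) = sht (P i.succ 0) := hht (some i, 0)
      have e2 : logHeight₁ (x (some i, 1)) = sht (P i.succ 1) := hht (some i, 1)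
      have e3 : logHeight ![1, x (some i, 0), x (some i, 1)] =
        logHeight ![1, xc (P i.succ 0), xc (P i.succ 1)] := rfl
      rw [e1, e2, e3]
      have h2 : ε * (4 ^ kk i * U ^ 2 / 4 - C) ≤ ε * (sht (P i.succ 0) + sht (P i.succ 1)) := by
        refine mul_le_mul_of_nonneg_left ?_ hε.le
        have h3 := (abs_le.1 (hψ 0 (P i.succ 0))).2
        have h4 := sht_nonneg (P i.succ 1)
        have h5 := hcl i.succ 0
        have h6 : ‖(2 : ℝ) ^ kk i • ψ 0 (P 0 0)‖ ≤ ‖ψ 0 (P i.succ 0)‖ +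
            ‖ψ 0 (P i.succ 0) - (2 : ℝ) ^ kk i • ψ 0 (P 0 0)‖ := by
          have := norm_sub_le (ψ 0 (P i.succ 0)) (ψ 0 (P i.succ 0) - (2 : ℝ) ^ kk i • ψ 0 (P 0 0))
          rwa [sub_sub_cancel] at this
        have h2p : (0 : ℝ) < 2 ^ kk i := by positivity
        rw [norm_smul, Real.norm_of_nonneg h2p.le] at h6
        have h7 : 2 ^ kk i * U / 2 ≤ ‖ψ 0 (P i.succ 0)‖ := by
          have h8 : κ * 2 ^ k i.succ * U ≤ 1 / 2 * 2 ^ kk i * U := by
            have : κ * (2 ^ kk i * U) ≤ 1 / 2 * (2 ^ kk i * U) :=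
              mul_le_mul_of_nonneg_right hκ1 (by positivity)
            calc κ * 2 ^ k i.succ * U = κ * (2 ^ kk i * U) := by
                  show κ * 2 ^ k i.succ * U = κ * (2 ^ k i.succ * U)
                  ring
              _ ≤ 1 / 2 * (2 ^ kk i * U) := this
              _ = _ := by ring
          have h9 := h5.trans h8
          have h10 : ‖ψ 0 (P i.succ 0) - (2 : ℝ) ^ kk i • ψ 0 (P 0 0)‖ ≤
            1 / 2 * 2 ^ kk i * U := h9
          have h11 : 2 ^ kk i * ‖ψ 0 (P 0 0)‖ = 2 ^ kk i * U := rfl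
          rw [h11] at h6
          linarith
        have h8 : (2 ^ kk i * U / 2) ^ 2 ≤ ‖ψ 0 (P i.succ 0)‖ ^ 2 :=
          pow_le_pow_left₀ (by positivity) h7 2
        have h9 : (2 ^ kk i * U / 2) ^ 2 = 4 ^ kk i * U ^ 2 / 4 := by
          rw [h4p]; ring
        rw [h9] at h8
        linarith
      linarith
    · intro i j
      have h1 := (hfact i.succ j).2.2.2
      have e1 : logHeight₁ (x (some i, j)) = sht (P i.succ j) := hht (some i, j)
      have e2 : logHeight₁ (x (none, j)) = sht (P 0 j) := hht (none, j)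
      rw [e1, e2, ← hVh i j]
      have h2 := (abs_le.1 (hψ j (P i.succ j))).1
      have h3 := (abs_le.1 (hψ j (P 0 j))).1
      have h4 := (abs_le.1 (hψ j (P i.succ j + 2 ^ kk i • P 0 j))).2
      rw [map_add, hpowψ] at h4
      have h5 : 2 * ‖ψ j (P i.succ j)‖ ^ 2 + 2 * 4 ^ kk i * ‖ψ j (P 0 j)‖ ^ 2 -
        ‖ψ j (P i.succ j) + (2 : ℝ) ^ kk i • ψ j (P 0 j)‖ ^ 2 ≤ 4 ^ kk i * (κ ^ 2 * U ^ 2) := h1
      have h6 := h4one (kk i)
      have h7 : 4 ^ kk i * sht (P 0 j) ≤ 4 ^ kk i * (‖ψ j (P 0 j)‖ ^ 2 + C) :=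
        mul_le_mul_of_nonneg_left (by linarith) (by positivity)
      have h8 : C ≤ 4 ^ kk i * C := le_mul_of_one_le_left hC h6
      nlinarith
    · intro j
      refine ⟨Nat.cast_nonneg _, ?_⟩
      have h1 := hsle (none, j)
      have h2 : w (none, j) = 1 := by
        show 4 ^ k 0 = 1
        rw [hk0, pow_zero]
      rw [h2, one_mul] at h1
      have h3 : M * s (none, j) ≤ d := by
        rw [hdt]
        exact Nat.mul_le_mul_left _ h1.le
      exact_mod_cast h3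
    · intro i j
      refine ⟨Nat.cast_nonneg _, ?_⟩
      have h1 := hsle (some i, j)
      have h2 : w (some i, j) = 4 ^ kk i := rfl
      rw [h2] at h1
      have h3 : M * s (some i, j) ≤ D i := by
        have h4 : (M * s (some i, j)) * 4 ^ kk i ≤ D i * 4 ^ kk i := by
          rw [hDk i, hdt]
          calc M * s (some i, j) * 4 ^ kk i = M * (4 ^ kk i * s (some i, j)) := by ring
            _ ≤ M * t0 := Nat.mul_le_mul_left _ h1.le
        exact Nat.le_of_mul_le_mul_right h4 (by positivity)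
      exact_mod_cast h3
    · have e1 : ∑ t : Ix m, (s t : ℝ) = ∑ j, (s (none, j) : ℝ) + ∑ i, ∑ j, (s (some i, j) : ℝ) := by
        rw [Fintype.sum_prod_type, Fintype.sum_option]
      have e2 : ∑ t : Ix m, (s t : ℝ) * logHeight₁ (x t) =
          ∑ j, (s (none, j) : ℝ) * logHeight₁ (x (none, j)) +
            ∑ i, ∑ j, (s (some i, j) : ℝ) * logHeight₁ (x (some i, j)) := by
        rw [Fintype.sum_prod_type, Fintype.sum_option]
      rw [e1, e2, Real.log_pow] at hpf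
      exact hpf

end Pool.Agent.J4H27.GC
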