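import Pool.Agent.J4H27.GC.Mn5

/-!
# The main theorem for integral coefficients: special curves
-/

set_option autoImplicit false
set_option linter.unusedSectionVars false
set_option linter.unusedVariables false

open MvPolynomial Height Filter NumberField Pool.Agent.TH942

namespace Pool.Agent.J4H27.GC

variable {K : Type} [Field K] [NumberField K] [DecidableEq K]

theorem core (hAUX : S_AUX) (hNVN : S_NVN) (hPF : S_PF) (hZL : S_ZL) (hSQ : S_SQ) (hDBL : S_DBL)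
    (hEMB : S_EMB) (hSEL : S_SEL) (a b : Fin 2 → 𝓞 K)
    (hD : ∀ j, 4 * (a j) ^ 3 + 27 * (b j) ^ 2 ≠ 0) (ε : ℝ) (hε : 0 < ε) (hε1 : ε ≤ 1) :
    ∃ Δ : ℝ, ∀ δ > 0, {P : PP (fun j => (a j : K)) (fun j => (b j : K)) |
      P ∈ Exc (fun j => (a j : K)) (fun j => (b j : K)) ε ∧
        ¬ Spc Δ δ (xc (P 0)) (xc (P 1))}.Finite := by
  classical
  choose n ψ C' hC' using fun j => hEMB K (a j : K) (b j : K) (disc_ne (hD j))
  obtain ⟨C, hC, hψ⟩ : ∃ C : ℝ, 0 ≤ C ∧ ∀ j (P : SPt (a j : K) (b j : K)),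
      |‖ψ j P‖ ^ 2 - sht P| ≤ C := by
    refine ⟨max 0 (max (C' 0) (C' 1)), le_max_left _ _, fun j P => (hC' j P).trans ?_⟩
    fin_cases j
    · exact le_max_of_le_right (le_max_left _ _)
    · exact le_max_of_le_right (le_max_right _ _)
  obtain ⟨A, hA⟩ : ∃ A : ℝ, A = (Real.sqrt (4 / ε) + 1) ^ 2 := ⟨_, rfl⟩
  have hA1 : 1 ≤ A := by
    rw [hA]
    have : (1 : ℝ) ≤ Real.sqrt (4 / ε) + 1 := by
      have := Real.sqrt_nonneg (4 / ε)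
      linarith
    exact one_le_pow₀ this
  obtain ⟨q, hqA⟩ : ∃ q : ℕ, 768 * A ≤ q * ε := by
    obtain ⟨q, hq⟩ := exists_nat_ge (768 * A / ε)
    exact ⟨q, by rwa [div_le_iff₀ hε] at hq⟩
  have hq1 : 1 ≤ q := by
    rcases Nat.eq_zero_or_pos q with h | h
    · rw [h] at hqA
      simp at hqA
      linarith
    · exact h
  obtain ⟨m, hm⟩ : ∃ m : ℕ, m = q ^ 2 := ⟨_, rfl⟩
  have hm1 : 1 ≤ m := by
    rw [hm]
    exact Nat.one_le_pow _ _ hq1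
  have hm1r : (1 : ℝ) ≤ m := by exact_mod_cast hm1
  obtain ⟨κ, hκ0, hκ1, hκ2, hκ3⟩ : ∃ κ : ℝ, 0 < κ ∧ κ ≤ 1 / 2 ∧ 2 * m * κ ^ 2 ≤ 1 ∧
      8 * κ ^ 2 ≤ ε := by
    refine ⟨ε / (4 * m), by positivity, ?_, ?_, ?_⟩
    · rw [div_le_iff₀ (by positivity)]
      linarith
    · rw [div_pow, mul_div_assoc', div_le_one (by positivity)]
      have h1 : ε ^ 2 ≤ 1 := pow_le_one₀ hε.le hε1
      nlinarith
    · rw [div_pow, mul_div_assoc', div_le_iff₀ (by positivity)]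
      have h1 : ε ^ 2 ≤ ε := by nlinarith
      have h2 : (1 : ℝ) ≤ (m : ℝ) ^ 2 := one_le_pow₀ hm1r
      have h3 : ε * 1 ≤ ε * (m : ℝ) ^ 2 := mul_le_mul_of_nonneg_left h2 hε.le
      calc 8 * ε ^ 2 ≤ 16 * (ε * (m : ℝ) ^ 2) := by linarith
        _ = ε * (4 * (m : ℝ)) ^ 2 := by ring
  choose C₂ hC₂ hSer₂ using fun j => hSQ K (a j) (b j)
  obtain ⟨C₁, hC₁, hC₁₂⟩ : ∃ C₁ : ℝ, 1 ≤ C₁ ∧ ∀ j, C₂ j ≤ C₁ := by
    refine ⟨max (C₂ 0) (C₂ 1), le_max_of_le_left (hC₂ 0), fun j => ?_⟩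
    fin_cases j
    · exact le_max_left _ _
    · exact le_max_right _ _
  have hSer : ∀ j (x h : K), h ^ 2 = x ^ 3 + (a j : K) * x + (b j : K) → h ≠ 0 →
      ∃ E, IsSer (a j) (b j) C₁ x h E := by
    intro j x h hxh hh
    obtain ⟨E, hE⟩ := hSer₂ j x h hxh hh
    exact ⟨E, IsSer.mono (hC₂ j) (hC₁₂ j) hE⟩
  obtain ⟨CA, hCA, hAux⟩ := hAUX K a b m hm1
  obtain ⟨CN, hCN, hNvn⟩ := hNVN K a b m hD
  obtain ⟨Cp, hCp, hPf⟩ := hPF K a b m C₁ hC₁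
  have hCN1 : (1 : ℝ) ≤ CN := by exact_mod_cast hCN
  obtain ⟨Rz, Hz, Δ, B', hZl⟩ := hZL K (Ix m) (1 / (2 * (m + 1) * CN * (8 * (m + 1))))
    ((8 * (m + 1)) * totalWeight K * CN * (Real.log CN + Real.log CA)) (by positivity) (by
      have h1 := Real.log_nonneg hCN1
      have h2 := Real.log_nonneg hCA
      positivity)
  refine ⟨Δ, fun δ hδ => ?_⟩
  by_contra hinf
  obtain ⟨X, hX⟩ : ∃ X : ℝ, X = Cp * (2 * m + 3 + Real.log CA) + (4 + 10 * m) * C + q * ε * C :=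
    ⟨_, rfl⟩
  obtain ⟨H, hH1, hHX, hH2, hH3, hH4⟩ : ∃ H : ℝ, 1 ≤ H ∧ X < H ∧ 2 * (ε + 1) * C ≤ ε * H ∧
      Hz + C ≤ κ ^ 2 * H ∧ B' + δ * C ≤ δ * (κ ^ 2 * H) := by
    refine ⟨max (max (max (max 1 (X + 1)) (2 * (ε + 1) * C / ε)) ((Hz + C) / κ ^ 2))
      ((B' + δ * C) / (δ * κ ^ 2)), ?_, ?_, ?_, ?_, ?_⟩
    · exact le_max_of_le_left (le_max_of_le_left (le_max_of_le_left (le_max_left _ _)))
    · exact lt_of_lt_of_le (by linarith : X < X + 1)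
        (le_max_of_le_left (le_max_of_le_left (le_max_of_le_left (le_max_right _ _))))
    · rw [← div_le_iff₀' hε]
      exact le_max_of_le_left (le_max_of_le_left (le_max_right _ _))
    · rw [← div_le_iff₀' (by positivity)]
      exact le_max_of_le_left (le_max_right _ _)
    · rw [← mul_assoc, ← div_le_iff₀' (by positivity)]
      exact le_max_right _ _
  obtain ⟨P, k, hPS, hk0, hH, hk, hsz, hcl⟩ := exists_cfg hSEL (fun j => (a j : K))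
    (fun j => (b j : K)) n ψ C hC hψ ε hε hε1 _ hinf (fun P hP j => exc_le hP.1 j) m κ hκ0
    (Rz + 1) H
  have hHU : H ≤ ‖ψ 0 (P 0 0)‖ ^ 2 := by nlinarith
  obtain ⟨i, hi⟩ := core_cfg hAUX hNVN hDBL a b hD ε hε hε1 n ψ C hC hψ A hA q m hq1 hm hqA κ hκ0
    hκ1 hκ2 C₁ hSer CA hCA hAux CN hCN hNvn Cp hCp hPf Rz Hz Δ B' hZl δ hδ P k
    (fun i => (hPS i).1) hk0 hk hsz hcl hκ3 (hH1.trans hH) (by rw [← hX]; linarith)
    (hH2.trans (mul_le_mul_of_nonneg_left hHU hε.le))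
    (hH3.trans (mul_le_mul_of_nonneg_left hHU (by positivity)))
    (hH4.trans (mul_le_mul_of_nonneg_left (mul_le_mul_of_nonneg_left hHU (by positivity)) hδ.le))
  exact (hPS i).2 hi

end Pool.Agent.J4H27.GC
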