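import Pool.Agent.J4H27.GC.Mn6

/-!
# The ratio of the heights
-/

set_option autoImplicit false
set_option linter.unusedSectionVars false
set_option linter.unusedVariables false

open MvPolynomial Height Filter NumberField Pool.Agent.TH942

namespace Pool.Agent.J4H27.GC

variable {K : Type} [Field K] [NumberField K]

/-- the rationals `β / α`, `1 ≤ α, β ≤ n` -/
def Rset (n : ℕ) : Finset ℚ :=
  ((Finset.Icc 1 n) ×ˢ (Finset.Icc 1 n)).image (fun p : ℕ × ℕ => (p.2 : ℚ) / p.1)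

lemma Rset_pos {n : ℕ} {r : ℚ} (hr : r ∈ Rset n) : 0 < r := by
  unfold Rset at hr
  rw [Finset.mem_image] at hr
  obtain ⟨p, hp, rfl⟩ := hr
  rw [Finset.mem_product, Finset.mem_Icc, Finset.mem_Icc] at hp
  have h1 : (0 : ℚ) < p.1 := by exact_mod_cast hp.1.1
  have h2 : (0 : ℚ) < p.2 := by exact_mod_cast hp.2.1
  positivity

/-- special curves of small height force a rational ratio of the heights -/
lemma spc_ratio (hQE : S_QE) (Δ : ℝ) (τ : ℝ) (hτ : 0 < τ) : ∃ δ B : ℝ, 0 < δ ∧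
    ∀ x x' : K, Spc Δ δ x x' → B < logHeight₁ x + logHeight₁ x' →
      ∃ r ∈ Rset ⌈Δ⌉₊, |logHeight₁ x - r * logHeight₁ x'| <
        τ * (logHeight₁ x + logHeight₁ x') := by
  classical
  have h1 : ∀ α β : ℕ, ∃ C : ℝ, 0 < α → 0 < β → ∀ (Q : MvPolynomial (Fin 2) K) (i j : Fin 2),
      i ≠ j → Irreducible Q → Q.vars ⊆ {i, j} → Q.degreeOf i = α → Q.degreeOf j = β →
      ∀ a : Fin 2 → K, eval a Q = 0 →
        |(α : ℝ) * logHeight₁ (a i) - β * logHeight₁ (a j)| ≤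
          τ / 4 * (logHeight₁ (a i) + logHeight₁ (a j)) + C * (hp Q + 1) := by
    intro α β
    by_cases hα : 0 < α
    · by_cases hβ : 0 < β
      · obtain ⟨C, hC⟩ := hQE K (Fin 2) α β hα hβ (τ / 4) (by positivity)
        exact ⟨C, fun _ _ => hC⟩
      · exact ⟨0, fun _ h => absurd h hβ⟩
    · exact ⟨0, fun h => absurd h hα⟩
  choose C hC using h1
  set n : ℕ := ⌈Δ⌉₊ with hn
  set C₀ : ℝ := 1 + ∑ p ∈ (Finset.Icc 1 n) ×ˢ (Finset.Icc 1 n), |C p.1 p.2| with hC₀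
  have hC₀1 : 1 ≤ C₀ := by
    have : 0 ≤ ∑ p ∈ (Finset.Icc 1 n) ×ˢ (Finset.Icc 1 n), |C p.1 p.2| :=
      Finset.sum_nonneg fun _ _ => abs_nonneg _
    linarith
  refine ⟨τ / (4 * C₀), 4 * C₀ / τ, by positivity, fun x x' hS hB => ?_⟩
  obtain ⟨Q, hirr, hd0, hd1, hdeg, hev, hhp⟩ := hS
  have hd0' : (Q.degreeOf 0 : ℝ) ≤ n := by
    have : (0 : ℝ) ≤ Q.degreeOf 1 := Nat.cast_nonneg _
    have := Nat.le_ceil Δ
    linarith
  have hd1' : (Q.degreeOf 1 : ℝ) ≤ n := by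
    have : (0 : ℝ) ≤ Q.degreeOf 0 := Nat.cast_nonneg _
    have := Nat.le_ceil Δ
    linarith
  have hm0 : Q.degreeOf 0 ≤ n := by exact_mod_cast hd0'
  have hm1 : Q.degreeOf 1 ≤ n := by exact_mod_cast hd1'
  have hmem : (Q.degreeOf 0, Q.degreeOf 1) ∈ (Finset.Icc 1 n) ×ˢ (Finset.Icc 1 n) := by
    rw [Finset.mem_product, Finset.mem_Icc, Finset.mem_Icc]
    exact ⟨⟨hd0, hm0⟩, ⟨hd1, hm1⟩⟩
  have h2 := hC (Q.degreeOf 0) (Q.degreeOf 1) hd0 hd1 Q 0 1 (by decide) hirr (by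
    intro v _
    fin_cases v <;> simp) rfl rfl ![x, x'] hev
  simp only [Matrix.cons_val_zero, Matrix.cons_val_one] at h2
  set S : ℝ := logHeight₁ x + logHeight₁ x' with hS
  have hS0 : 0 ≤ S := add_nonneg (by rw [logHeight₁_eq_logHeight]; exact logHeight_nonneg _)
    (by rw [logHeight₁_eq_logHeight]; exact logHeight_nonneg _)
  have hCle : C (Q.degreeOf 0) (Q.degreeOf 1) ≤ C₀ := by
    have h3 : |C (Q.degreeOf 0) (Q.degreeOf 1)| ≤
        ∑ p ∈ (Finset.Icc 1 n) ×ˢ (Finset.Icc 1 n), |C p.1 p.2| :=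
      Finset.single_le_sum (f := fun p : ℕ × ℕ => |C p.1 p.2|) (fun _ _ => abs_nonneg _) hmem
    have h4 := le_abs_self (C (Q.degreeOf 0) (Q.degreeOf 1))
    linarith
  have hhp0 : 0 ≤ hp Q := logHeight_nonneg _
  have h3 : C (Q.degreeOf 0) (Q.degreeOf 1) * (hp Q + 1) ≤ C₀ * (τ / (4 * C₀) * S + 1) := by
    calc C (Q.degreeOf 0) (Q.degreeOf 1) * (hp Q + 1) ≤ C₀ * (hp Q + 1) :=
          mul_le_mul_of_nonneg_right hCle (by linarith)
      _ ≤ C₀ * (τ / (4 * C₀) * S + 1) := mul_le_mul_of_nonneg_left (by linarith) (by linarith)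
  have h4 : C₀ * (τ / (4 * C₀) * S + 1) = τ / 4 * S + C₀ := by
    field_simp
  have h5 : C₀ < τ / 4 * S := by
    rw [div_lt_iff₀ hτ] at hB
    linarith
  have h6 : |(Q.degreeOf 0 : ℝ) * logHeight₁ x - Q.degreeOf 1 * logHeight₁ x'| < τ * S := by
    have : 0 < τ * S := by linarith
    linarith
  have hα1 : (1 : ℝ) ≤ Q.degreeOf 0 := by exact_mod_cast hd0
  refine ⟨(Q.degreeOf 1 : ℚ) / Q.degreeOf 0, ?_, ?_⟩
  · unfold Rset
    rw [Finset.mem_image]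
    exact ⟨_, hmem, rfl⟩
  · have e : logHeight₁ x - (((Q.degreeOf 1 : ℚ) / Q.degreeOf 0 : ℚ) : ℝ) * logHeight₁ x' =
        ((Q.degreeOf 0 : ℝ) * logHeight₁ x - Q.degreeOf 1 * logHeight₁ x') / Q.degreeOf 0 := by
      push_cast
      field_simp
    rw [e, abs_div, abs_of_pos (by linarith : (0 : ℝ) < Q.degreeOf 0)]
    refine lt_of_le_of_lt (div_le_self (abs_nonneg _) hα1) h6

lemma finite_pp {a b : Fin 2 → K} (B : ℝ) :
    {P : PP a b | sht (P 0) + sht (P 1) ≤ B}.Finite := by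
  have h0 := sfinite_ht (a := a 0) (b := b 0) B
  have h1 := sfinite_ht (a := a 1) (b := b 1) B
  have hf : Function.Injective (fun P : PP a b => (P 0, P 1)) := by
    intro P Q hPQ
    simp only [Prod.mk.injEq] at hPQ
    funext j
    fin_cases j
    · exact hPQ.1
    · exact hPQ.2
  refine ((h0.prod h1).preimage hf.injOn).subset ?_
  intro P hP
  simp only [Set.mem_ofPred_eq] at hP
  have h2 := sht_nonneg (P 0)
  have h3 := sht_nonneg (P 1)
  simp only [Set.mem_preimage, Set.mem_prod, Set.mem_ofPred_eq]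
  exact ⟨by linarith, by linarith⟩

/-- the main theorem for integral coefficients -/
theorem ratio_int (hQE : S_QE) (a b : Fin 2 → K) (ε Δ : ℝ)
    (hΔ : ∀ δ > 0, {P : PP a b | P ∈ Exc a b ε ∧ ¬ Spc Δ δ (xc (P 0)) (xc (P 1))}.Finite)
    (τ : ℝ) (hτ : 0 < τ) :
    {P : PP a b | P ∈ Exc a b ε ∧ ∀ r ∈ Rset ⌈Δ⌉₊,
      τ * (sht (P 0) + sht (P 1)) ≤ |sht (P 0) - r * sht (P 1)|}.Finite := by
  obtain ⟨δ, B, hδ, h1⟩ := spc_ratio (K := K) hQE Δ τ hτ
  refine ((hΔ δ hδ).union (finite_pp B)).subset ?_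
  rintro P ⟨hP, hr⟩
  by_cases hB : sht (P 0) + sht (P 1) ≤ B
  · exact Or.inr hB
  · left
    refine ⟨hP, fun hs => ?_⟩
    obtain ⟨r, hr', hlt⟩ := h1 _ _ hs (by rw [← sht_xc, ← sht_xc]; exact not_le.1 hB)
    rw [← sht_xc, ← sht_xc] at hlt
    exact absurd (hr r hr') (not_le.2 hlt)

end Pool.Agent.J4H27.GC
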