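import Pool.Agent.J4H27.GC.Mn7
import Pool.Agent.J4H41.GC.Qe
import Pool.Agent.J4H42.GC.Sq
import Pool.Agent.J4H49.GC.Dbl
import Pool.Agent.J4H49.GC.Coef
import Pool.Agent.J4H52.GC.AuxPol
import Pool.Agent.J4H52.GC.Nvn
import Pool.Agent.J4H57.GC.Emb
import Pool.Agent.J4H57.GC.Gen
import Pool.Agent.J4H57.GC.Sel
import Pool.Agent.J4H67.GC.Row
import Pool.Agent.J4H67.GC.Zl
import Pool.Agent.J4H71.GC.Loc
import Pool.Agent.J4H75.GC.Gel
import Pool.Agent.J4H75.GC.Norm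
import Pool.Agent.J4H75.GC.Pf
import Pool.Agent.J4H79.GC.Res

/-!
# The theorem for arbitrary coefficients
-/

set_option autoImplicit false
set_option linter.unusedSectionVars false
set_option linter.unusedVariables false

open MvPolynomial Height Filter NumberField Pool.Agent.TH942

namespace Pool.Agent.J4H27.GC

theorem core_all (K : Type) [Field K] [NumberField K] [DecidableEq K] (a b : Fin 2 → 𝓞 K)
    (hD : ∀ j, 4 * (a j) ^ 3 + 27 * (b j) ^ 2 ≠ 0) (ε : ℝ) (hε : 0 < ε) (hε1 : ε ≤ 1) :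
    ∃ Δ : ℝ, ∀ δ > 0, {P : PP (fun j => (a j : K)) (fun j => (b j : K)) |
      P ∈ Exc (fun j => (a j : K)) (fun j => (b j : K)) ε ∧
        ¬ Spc Δ δ (xc (P 0)) (xc (P 1))}.Finite := by
  have hM := J4H75.GC.t_MMF
  have hV := J4H75.GC.t_VAL
  exact core (J4H52.GC.t_AUX hM) (J4H52.GC.t_NVN J4H75.GC.t_NORM J4H57.GC.t_GEN hM hV)
    (J4H75.GC.t_PF (J4H71.GC.t_LOC hM hV J4H49.GC.t_COEF) J4H67.GC.t_ROW)
    (J4H67.GC.t_ZL J4H75.GC.t_GEL J4H79.GC.t_RES) J4H42.GC.t_SQ J4H49.GC.t_DBL J4H57.GC.t_EMB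
    J4H57.GC.t_SEL a b hD ε hε hε1

variable {K : Type} [Field K] [NumberField K]

/-- pairs of points of the two curves, in coordinates -/
def Crv (a b : Fin 2 → K) : Set ((K × K) × (K × K)) :=
  {z | z.1.2 ^ 2 = z.1.1 ^ 3 + a 0 * z.1.1 + b 0 ∧ z.2.2 ^ 2 = z.2.1 ^ 3 + a 1 * z.2.1 + b 1}

lemma exists_pp {a b : Fin 2 → K} (hD : ∀ j, 4 * a j ^ 3 + 27 * b j ^ 2 ≠ 0)
    {z : (K × K) × (K × K)} (hz : z ∈ Crv a b) : ∃ P : PP a b, P 0 ≠ 0 ∧ P 1 ≠ 0 ∧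
      xc (P 0) = z.1.1 ∧ yc (P 0) = z.1.2 ∧ xc (P 1) = z.2.1 ∧ yc (P 1) = z.2.2 := by
  have h0 := sw_nonsing (hD 0) hz.1
  have h1 := sw_nonsing (hD 1) hz.2
  refine ⟨Fin.cons (WeierstrassCurve.Affine.Point.some z.1.1 z.1.2 h0)
    (Fin.cons (WeierstrassCurve.Affine.Point.some z.2.1 z.2.2 h1) finZeroElim), ?_, ?_, ?_⟩
  · exact WeierstrassCurve.Affine.Point.some_ne_zero h0
  · exact WeierstrassCurve.Affine.Point.some_ne_zero h1
  · exact ⟨rfl, rfl, rfl, rfl⟩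

lemma finite_crv {a b : Fin 2 → K} (hD : ∀ j, 4 * a j ^ 3 + 27 * b j ^ 2 ≠ 0) (B : ℝ) :
    {z | z ∈ Crv a b ∧ logHeight₁ z.1.1 + logHeight₁ z.2.1 ≤ B}.Finite := by
  refine ((finite_pp (a := a) (b := b) B).image
    (fun P => ((xc (P 0), yc (P 0)), (xc (P 1), yc (P 1))))).subset ?_
  rintro z ⟨hz, hB⟩
  obtain ⟨P, -, -, e1, e2, e3, e4⟩ := exists_pp hD hz
  refine ⟨P, ?_, ?_⟩
  · simp only [Set.mem_ofPred_eq]
    rw [sht_xc, sht_xc, e1, e3]
    exact hB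
  · simp only [e1, e2, e3, e4]

lemma ht_scale (c : K) (hc : c ≠ 0) (x : K) :
    |logHeight₁ (c * x) - logHeight₁ x| ≤ logHeight₁ c := by
  have h1 := logHeight₁_mul_le c x
  have h2 := logHeight₁_mul_le c⁻¹ (c * x)
  rw [← mul_assoc, inv_mul_cancel₀ hc, one_mul, logHeight₁_inv] at h2
  rw [abs_le]
  constructor <;> linarith

lemma ht_scale3 (c : K) (x x' : K) :
    logHeight ![1, c * x, c * x'] ≤ logHeight ![1, c, c] + logHeight ![1, x, x'] := by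
  have h := logHeight_mul_le ![1, c, c] ![1, x, x']
  have e : (![1, c, c] * ![1, x, x'] : Fin 3 → K) = ![1, c * x, c * x'] := by
    funext i
    fin_cases i <;> simp
  rwa [e] at h

/-- a common denominator -/
lemma exists_den (a b : Fin 2 → K) : ∃ (n : ℕ) (a' b' : Fin 2 → 𝓞 K), n ≠ 0 ∧
    ∀ j, (a' j : K) = (n : K) ^ 4 * a j ∧ (b' j : K) = (n : K) ^ 6 * b j := by
  have h1 : ∀ x : K, ∃ n : ℕ, n ≠ 0 ∧ IsIntegral ℤ ((n : K) * x) := by
    intro x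
    have hal : IsAlgebraic ℤ x := (IsFractionRing.isAlgebraic_iff ℤ ℚ K).2
      (Algebra.IsAlgebraic.isAlgebraic (R := ℚ) x)
    obtain ⟨m, hm, hx⟩ := hal.exists_integral_multiple
    refine ⟨m.natAbs, Int.natAbs_ne_zero.2 hm, ?_⟩
    rw [Algebra.smul_def] at hx
    rcases Int.natAbs_eq m with h | h
    · have e : ((m.natAbs : ℕ) : K) = algebraMap ℤ K m := by
        rw [eq_intCast, ← Int.cast_natCast, ← h]
      rw [e]
      exact hx
    · have e : ((m.natAbs : ℕ) : K) = -algebraMap ℤ K m := by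
        have h2 := congrArg (Int.cast : ℤ → K) h
        rw [Int.cast_neg, Int.cast_natCast] at h2
        rw [eq_intCast, h2, neg_neg]
      rw [e, neg_mul]
      exact hx.neg
  choose f hf0 hf using h1
  set n : ℕ := f (a 0) * f (a 1) * f (b 0) * f (b 1) with hn
  have hint : ∀ m : ℕ, IsIntegral ℤ (m : K) := fun m => isIntegral_natCast m
  have ha : ∀ j, IsIntegral ℤ ((n : K) * a j) := by
    intro j
    fin_cases j
    · have e : (n : K) * a 0 = ((f (a 1) * f (b 0) * f (b 1) : ℕ) : K) * ((f (a 0) : K) * a 0) := by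
        rw [hn]; push_cast; ring
      show IsIntegral ℤ ((n : K) * a 0)
      rw [e]
      exact (hint _).mul (hf _)
    · have e : (n : K) * a 1 = ((f (a 0) * f (b 0) * f (b 1) : ℕ) : K) * ((f (a 1) : K) * a 1) := by
        rw [hn]; push_cast; ring
      show IsIntegral ℤ ((n : K) * a 1)
      rw [e]
      exact (hint _).mul (hf _)
  have hb : ∀ j, IsIntegral ℤ ((n : K) * b j) := by
    intro j
    fin_cases j
    · have e : (n : K) * b 0 = ((f (a 0) * f (a 1) * f (b 1) : ℕ) : K) * ((f (b 0) : K) * b 0) := by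
        rw [hn]; push_cast; ring
      show IsIntegral ℤ ((n : K) * b 0)
      rw [e]
      exact (hint _).mul (hf _)
    · have e : (n : K) * b 1 = ((f (a 0) * f (a 1) * f (b 0) : ℕ) : K) * ((f (b 1) : K) * b 1) := by
        rw [hn]; push_cast; ring
      show IsIntegral ℤ ((n : K) * b 1)
      rw [e]
      exact (hint _).mul (hf _)
  have ha' : ∀ j, IsIntegral ℤ ((n : K) ^ 4 * a j) := by
    intro j
    have e : (n : K) ^ 4 * a j = ((n ^ 3 : ℕ) : K) * ((n : K) * a j) := by push_cast; ring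
    rw [e]
    exact (hint _).mul (ha j)
  have hb' : ∀ j, IsIntegral ℤ ((n : K) ^ 6 * b j) := by
    intro j
    have e : (n : K) ^ 6 * b j = ((n ^ 5 : ℕ) : K) * ((n : K) * b j) := by push_cast; ring
    rw [e]
    exact (hint _).mul (hb j)
  refine ⟨n, fun j => ⟨_, ha' j⟩, fun j => ⟨_, hb' j⟩, ?_, fun j => ⟨rfl, rfl⟩⟩
  rw [hn]
  exact mul_ne_zero (mul_ne_zero (mul_ne_zero (hf0 _) (hf0 _)) (hf0 _)) (hf0 _)

/-- the main theorem -/
theorem main_ratio (a b : Fin 2 → K) (hD : ∀ j, 4 * a j ^ 3 + 27 * b j ^ 2 ≠ 0) (ε : ℝ)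
    (hε : 0 < ε) : ∃ R : Finset ℚ, (∀ r ∈ R, 0 < r) ∧ ∀ τ : ℝ, 0 < τ →
      {z : (K × K) × (K × K) | z ∈ Crv a b ∧
        ε * (logHeight₁ z.1.1 + logHeight₁ z.2.1) <
          logHeight₁ z.1.1 + logHeight₁ z.2.1 - logHeight ![1, z.1.1, z.2.1] ∧
        ∀ r ∈ R, τ * (logHeight₁ z.1.1 + logHeight₁ z.2.1) ≤
          |logHeight₁ z.1.1 - r * logHeight₁ z.2.1|}.Finite := by
  classical
  obtain ⟨n, a', b', hn, hab⟩ := exists_den a b
  have hn' : (n : K) ≠ 0 := by exact_mod_cast hn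
  have hDK : ∀ j, 4 * (a' j : K) ^ 3 + 27 * (b' j : K) ^ 2 ≠ 0 := by
    intro j
    rw [(hab j).1, (hab j).2]
    have e : 4 * ((n : K) ^ 4 * a j) ^ 3 + 27 * ((n : K) ^ 6 * b j) ^ 2 =
        (n : K) ^ 12 * (4 * a j ^ 3 + 27 * b j ^ 2) := by ring
    rw [e]
    exact mul_ne_zero (pow_ne_zero _ hn') (hD j)
  have hD' : ∀ j, 4 * (a' j) ^ 3 + 27 * (b' j) ^ 2 ≠ 0 := by
    intro j h0
    apply hDK j
    have := congrArg (algebraMap (𝓞 K) K) h0
    rw [map_add, map_mul, map_mul, map_pow, map_pow, map_zero, map_ofNat, map_ofNat] at this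
    exact this
  set ε₁ : ℝ := min ε 1 / 2 with hε₁
  have hmin : 0 < min ε 1 := lt_min hε one_pos
  have hε₁0 : 0 < ε₁ := by positivity
  have hε₁1 : ε₁ ≤ 1 := by
    have := min_le_right ε 1
    rw [hε₁]
    linarith
  obtain ⟨Δ, hΔ⟩ := core_all K a' b' hD' ε₁ hε₁0 hε₁1
  refine ⟨Rset ⌈Δ⌉₊, fun r hr => Rset_pos hr, fun τ hτ => ?_⟩
  have hfin := ratio_int J4H41.GC.t_QE (fun j => (a' j : K)) (fun j => (b' j : K)) ε₁ Δ hΔ (τ / 2)
    (by positivity)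
  set c : K := (n : K) ^ 2 with hc
  have hc0 : c ≠ 0 := pow_ne_zero _ hn'
  set C : ℝ := logHeight₁ c with hCdef
  set C3 : ℝ := logHeight ![1, c, c] with hC3
  set Rm : ℝ := ∑ r ∈ Rset ⌈Δ⌉₊, (r : ℝ) with hRm
  have hC0 : 0 ≤ C := zero_le_logHeight₁ _
  have hC30 : 0 ≤ C3 := logHeight_nonneg _
  have hRle : ∀ r ∈ Rset ⌈Δ⌉₊, (r : ℝ) ≤ Rm := fun r hr =>
    Finset.single_le_sum (f := fun r : ℚ => (r : ℝ))
      (fun r hr => by exact_mod_cast (Rset_pos hr).le) hr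
  obtain ⟨B, hB1, hB2⟩ : ∃ B : ℝ, (2 * C + C3 + 2 * C) / ε₁ ≤ B ∧
      (C + Rm * C + τ * C + 2 * τ * C) / (τ / 2) ≤ B := ⟨_, le_max_left _ _, le_max_right _ _⟩
  refine ((finite_crv hD B).union (hfin.image
    (fun P => ((xc (P 0) / (n : K) ^ 2, yc (P 0) / (n : K) ^ 3),
      (xc (P 1) / (n : K) ^ 2, yc (P 1) / (n : K) ^ 3))))).subset ?_
  rintro z ⟨hz, hex, hr⟩
  by_cases hzB : logHeight₁ z.1.1 + logHeight₁ z.2.1 ≤ B
  · exact Or.inl ⟨hz, hzB⟩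
  right
  rw [not_le] at hzB
  have hz' : (((n : K) ^ 2 * z.1.1, (n : K) ^ 3 * z.1.2),
      ((n : K) ^ 2 * z.2.1, (n : K) ^ 3 * z.2.2)) ∈
        Crv (fun j => (a' j : K)) (fun j => (b' j : K)) := by
    obtain ⟨h1, h2⟩ := hz
    constructor
    · show ((n : K) ^ 3 * z.1.2) ^ 2 = ((n : K) ^ 2 * z.1.1) ^ 3 +
        (a' 0 : K) * ((n : K) ^ 2 * z.1.1) + (b' 0 : K)
      rw [(hab 0).1, (hab 0).2, mul_pow, h1]
      ring
    · show ((n : K) ^ 3 * z.2.2) ^ 2 = ((n : K) ^ 2 * z.2.1) ^ 3 +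
        (a' 1 : K) * ((n : K) ^ 2 * z.2.1) + (b' 1 : K)
      rw [(hab 1).1, (hab 1).2, mul_pow, h2]
      ring
  obtain ⟨P, hP0, hP1, e1, e2, e3, e4⟩ := exists_pp hDK hz'
  simp only at e1 e2 e3 e4
  rw [← hc] at e1 e3
  have s1 := abs_le.1 (ht_scale c hc0 z.1.1)
  have s2 := abs_le.1 (ht_scale c hc0 z.2.1)
  have s3 := ht_scale3 c z.1.1 z.2.1
  have hh0 := zero_le_logHeight₁ z.1.1
  have hh1 := zero_le_logHeight₁ z.2.1
  have t1 : 2 * C + C3 + 2 * C < ε₁ * (logHeight₁ z.1.1 + logHeight₁ z.2.1) := by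
    rw [div_le_iff₀ hε₁0] at hB1
    nlinarith
  have t2 : C + Rm * C + τ * C + 2 * τ * C <
      τ / 2 * (logHeight₁ z.1.1 + logHeight₁ z.2.1) := by
    rw [div_le_iff₀ (by positivity)] at hB2
    nlinarith
  refine ⟨P, ⟨⟨hP0, hP1, ?_⟩, ?_⟩, ?_⟩
  · rw [sht_xc, sht_xc, e1, e3]
    have hεm : (min ε 1) * (logHeight₁ z.1.1 + logHeight₁ z.2.1) ≤
        ε * (logHeight₁ z.1.1 + logHeight₁ z.2.1) :=
      mul_le_mul_of_nonneg_right (min_le_left _ _) (by linarith)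
    have h2 : min ε 1 = 2 * ε₁ := by rw [hε₁]; ring
    rw [h2] at hεm
    have h3 : (1 - ε₁) * (logHeight₁ z.1.1 + logHeight₁ z.2.1 - 2 * C) ≤
        (1 - ε₁) * (logHeight₁ (c * z.1.1) + logHeight₁ (c * z.2.1)) :=
      mul_le_mul_of_nonneg_left (by linarith) (by linarith)
    have h4 : (1 - ε₁) * (2 * C) ≤ 1 * (2 * C) :=
      mul_le_mul_of_nonneg_right (by linarith) (by linarith)
    nlinarith
  · intro r hr'
    rw [sht_xc, sht_xc, e1, e3]
    have h1 := hr r hr'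
    have hr0 : (0 : ℝ) < r := by exact_mod_cast Rset_pos hr'
    have h2 : |logHeight₁ z.1.1 - r * logHeight₁ z.2.1| ≤
        |logHeight₁ (c * z.1.1) - r * logHeight₁ (c * z.2.1)| + (C + Rm * C) := by
      have e : logHeight₁ z.1.1 - r * logHeight₁ z.2.1 =
          (logHeight₁ (c * z.1.1) - r * logHeight₁ (c * z.2.1)) -
          ((logHeight₁ (c * z.1.1) - logHeight₁ z.1.1) -
            r * (logHeight₁ (c * z.2.1) - logHeight₁ z.2.1)) := by ring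
      rw [e]
      refine (abs_sub _ _).trans (add_le_add le_rfl ((abs_sub _ _).trans ?_))
      refine add_le_add (ht_scale c hc0 z.1.1) ?_
      rw [abs_mul, abs_of_pos hr0]
      exact mul_le_mul (hRle r hr') (ht_scale c hc0 z.2.1) (abs_nonneg _)
        (hr0.le.trans (hRle r hr'))
    nlinarith
  · simp only [e1, e2, e3, e4, hc]
    ext <;> simp <;> field_simp

end Pool.Agent.J4H27.GC
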