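import Pool.Agent.J4H27.GC.Mn8

/-!
# Multiples of two points
-/

set_option autoImplicit false
set_option linter.unusedSectionVars false
set_option linter.unusedVariables false

open Height Filter NumberField Pool.Agent.TH942 Topology

namespace Pool.Agent.J4H27.GC

variable {K : Type} [Field K] [NumberField K]

/-- common divisors of the multiples of two points with an irrational ratio of canonical heights -/
theorem main_mult [DecidableEq K] (a b : Fin 2 → K) (hD : ∀ j, 4 * a j ^ 3 + 27 * b j ^ 2 ≠ 0)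
    (P : SPt (a 0) (b 0)) (P' : SPt (a 1) (b 1)) (c c' : ℝ)
    (hc : Tendsto (fun n : ℕ => logHeight₁ (xc (n • P)) / (n : ℝ) ^ 2) atTop (𝓝 c))
    (hc' : Tendsto (fun n : ℕ => logHeight₁ (xc (n • P')) / (n : ℝ) ^ 2) atTop (𝓝 c'))
    (hirr : Irrational (c / c')) (ε : ℝ) (hε : 0 < ε) :
    ∀ᶠ n : ℕ in atTop, logHeight₁ (xc (n • P)) + logHeight₁ (xc (n • P')) -
      logHeight ![1, xc (n • P), xc (n • P')] ≤ ε * (n : ℝ) ^ 2 := by
  have hc'0 : c' ≠ 0 := by
    rintro rfl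
    rw [div_zero] at hirr
    exact hirr.ne_zero rfl
  have hc0 : c ≠ 0 := by
    rintro rfl
    rw [zero_div] at hirr
    exact hirr.ne_zero rfl
  have hcn : 0 ≤ c := ge_of_tendsto' hc fun n => div_nonneg (zero_le_logHeight₁ _) (sq_nonneg _)
  have hc'n : 0 ≤ c' := ge_of_tendsto' hc' fun n => div_nonneg (zero_le_logHeight₁ _) (sq_nonneg _)
  have hcp : 0 < c := lt_of_le_of_ne hcn hc0.symm
  have hc'p : 0 < c' := lt_of_le_of_ne hc'n hc'0.symm
  obtain ⟨R, hR, hfin⟩ := main_ratio a b hD (ε / (2 * (c + c'))) (by positivity)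
  -- the constant τ
  obtain ⟨τ, hτ, hτR⟩ : ∃ τ : ℝ, 0 < τ ∧ ∀ r ∈ R, 2 * τ * (c + c') ≤ |c - r * c'| := by
    by_cases hne : R.Nonempty
    · obtain ⟨r₀, hr₀, hmin⟩ := R.exists_min_image (fun r : ℚ => |c - r * c'|) hne
      have hpos : 0 < |c - r₀ * c'| := by
        rw [abs_pos]
        intro h0
        apply hirr
        refine ⟨r₀, ?_⟩
        rw [eq_div_iff hc'0]
        linarith
      refine ⟨|c - r₀ * c'| / (2 * (c + c')), by positivity, fun r hr => ?_⟩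
      refine le_trans (le_of_eq ?_) (hmin r hr)
      field_simp
    · refine ⟨1, one_pos, fun r hr => absurd ⟨r, hr⟩ hne⟩
  have hZ := hfin τ hτ
  -- bound for the heights of the exceptional pairs
  obtain ⟨B, hB⟩ := (hZ.image (fun z : (K × K) × (K × K) => logHeight₁ z.1.1)).bddAbove
  have hs := hc.add hc'
  have e1 : ∀ᶠ n : ℕ in atTop, logHeight₁ (xc (n • P)) / (n : ℝ) ^ 2 +
      logHeight₁ (xc (n • P')) / (n : ℝ) ^ 2 < 2 * (c + c') :=
    hs.eventually (gt_mem_nhds (by linarith))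
  have e2 : ∀ r ∈ R, ∀ᶠ n : ℕ in atTop, τ * (logHeight₁ (xc (n • P)) / (n : ℝ) ^ 2 +
      logHeight₁ (xc (n • P')) / (n : ℝ) ^ 2) <
        |logHeight₁ (xc (n • P)) / (n : ℝ) ^ 2 - r * (logHeight₁ (xc (n • P')) / (n : ℝ) ^ 2)| := by
    intro r hr
    have h1 : Tendsto (fun n : ℕ => |logHeight₁ (xc (n • P)) / (n : ℝ) ^ 2 -
        r * (logHeight₁ (xc (n • P')) / (n : ℝ) ^ 2)|) atTop (𝓝 |c - r * c'|) :=
      (hc.sub (hc'.const_mul (r : ℝ))).abs
    have h2 : τ * (c + c') < |c - r * c'| := by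
      have := hτR r hr
      have h3 : 0 < τ * (c + c') := by positivity
      linarith
    exact (hs.const_mul τ).eventually_lt h1 h2
  have e2' : ∀ᶠ n : ℕ in atTop, ∀ r ∈ R, τ * (logHeight₁ (xc (n • P)) / (n : ℝ) ^ 2 +
      logHeight₁ (xc (n • P')) / (n : ℝ) ^ 2) <
        |logHeight₁ (xc (n • P)) / (n : ℝ) ^ 2 - r * (logHeight₁ (xc (n • P')) / (n : ℝ) ^ 2)| :=
    (Filter.eventually_all_finset R).2 e2
  have e3 : ∀ᶠ n : ℕ in atTop, c / 2 < logHeight₁ (xc (n • P)) / (n : ℝ) ^ 2 :=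
    hc.eventually (lt_mem_nhds (by linarith))
  have e3' : ∀ᶠ n : ℕ in atTop, c' / 2 < logHeight₁ (xc (n • P')) / (n : ℝ) ^ 2 :=
    hc'.eventually (lt_mem_nhds (by linarith))
  have e4 : ∀ᶠ n : ℕ in atTop, B ≤ c / 2 * (n : ℝ) ^ 2 := by
    have h1 : Tendsto (fun n : ℕ => c / 2 * (n : ℝ) ^ 2) atTop atTop :=
      ((tendsto_pow_atTop two_ne_zero).comp tendsto_natCast_atTop_atTop).const_mul_atTop
        (by positivity)
    exact h1.eventually_ge_atTop B
  filter_upwards [e1, e2', e3, e3', e4, eventually_gt_atTop 0] with n h1 h2 h3 h3' h4 hn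
  have hn2 : (0 : ℝ) < (n : ℝ) ^ 2 := by positivity
  have g3 : c / 2 * (n : ℝ) ^ 2 < logHeight₁ (xc (n • P)) := by
    rwa [lt_div_iff₀ hn2] at h3
  have g3' : c' / 2 * (n : ℝ) ^ 2 < logHeight₁ (xc (n • P')) := by
    rwa [lt_div_iff₀ hn2] at h3'
  have hP0 : n • P ≠ 0 := by
    intro h0
    rw [h0] at g3
    have : xc (0 : SPt (a 0) (b 0)) = 0 := rfl
    rw [this, logHeight₁_zero] at g3
    have : 0 < c / 2 * (n : ℝ) ^ 2 := by positivity
    linarith
  have hP0' : n • P' ≠ 0 := by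
    intro h0
    rw [h0] at g3'
    have : xc (0 : SPt (a 1) (b 1)) = 0 := rfl
    rw [this, logHeight₁_zero] at g3'
    have : 0 < c' / 2 * (n : ℝ) ^ 2 := by positivity
    linarith
  by_contra hcon
  rw [not_le] at hcon
  have hmem : ((xc (n • P), yc (n • P)), (xc (n • P'), yc (n • P'))) ∈
      {z : (K × K) × (K × K) | z ∈ Crv a b ∧
        ε / (2 * (c + c')) * (logHeight₁ z.1.1 + logHeight₁ z.2.1) <
          logHeight₁ z.1.1 + logHeight₁ z.2.1 - logHeight ![1, z.1.1, z.2.1] ∧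
        ∀ r ∈ R, τ * (logHeight₁ z.1.1 + logHeight₁ z.2.1) ≤
          |logHeight₁ z.1.1 - r * logHeight₁ z.2.1|} := by
    refine ⟨⟨yc_sq _ hP0, yc_sq _ hP0'⟩, ?_, fun r hr => ?_⟩
    · refine lt_of_le_of_lt ?_ hcon
      rw [← add_div, div_lt_iff₀ hn2] at h1
      have h5 : ε / (2 * (c + c')) * (logHeight₁ (xc (n • P)) + logHeight₁ (xc (n • P'))) ≤
          ε / (2 * (c + c')) * (2 * (c + c') * (n : ℝ) ^ 2) :=
        mul_le_mul_of_nonneg_left h1.le (by positivity)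
      refine h5.trans (le_of_eq ?_)
      field_simp
    · have h5 := h2 r hr
      have e5 : logHeight₁ (xc (n • P)) / (n : ℝ) ^ 2 - r * (logHeight₁ (xc (n • P')) / (n : ℝ) ^ 2)
          = (logHeight₁ (xc (n • P)) - r * logHeight₁ (xc (n • P'))) / (n : ℝ) ^ 2 := by ring
      rw [e5, abs_div, abs_of_pos hn2, ← add_div, ← mul_div_assoc,
        div_lt_div_iff_of_pos_right hn2] at h5
      exact h5.le
  have h6 := hB ⟨_, hmem, rfl⟩
  simp only at h6
  linarith

end Pool.Agent.J4H27.GC
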