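import Pool.Agent.J4H27.GC.Defs2

/-!
# The rows: elements of a quadratic extension of a polynomial ring, supports and lengths
-/

set_option autoImplicit false
set_option linter.unusedSectionVars false

open MvPolynomial NumberField

namespace Pool.Agent.J4H27.GC

section supp

variable {τ R : Type} [CommRing R]

/-- bound for the exponents: `2 s i + v i ≤ w i` -/
def SB (v w : τ → ℕ) (P : MvPolynomial τ R) : Prop := ∀ s ∈ P.support, ∀ i, 2 * s i + v i ≤ w i

lemma SB.zero (v w : τ → ℕ) : SB v w (0 : MvPolynomial τ R) := by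
  intro s hs
  simp at hs

lemma SB.add {v w : τ → ℕ} {P Q : MvPolynomial τ R} (hP : SB v w P) (hQ : SB v w Q) :
    SB v w (P + Q) := by
  classical
  intro s hs
  rcases Finset.mem_union.1 (support_add hs) with h | h
  · exact hP s h
  · exact hQ s h

lemma SB.neg {v w : τ → ℕ} {P : MvPolynomial τ R} (hP : SB v w P) : SB v w (-P) := by
  intro s hs
  rw [support_neg] at hs
  exact hP s hs

lemma SB.sub {v w : τ → ℕ} {P Q : MvPolynomial τ R} (hP : SB v w P) (hQ : SB v w Q) :
    SB v w (P - Q) := by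
  rw [sub_eq_add_neg]
  exact hP.add hQ.neg

lemma SB.mul {v w v' w' : τ → ℕ} {P Q : MvPolynomial τ R} (hP : SB v w P) (hQ : SB v' w' Q) :
    SB (fun i => v i + v' i) (fun i => w i + w' i) (P * Q) := by
  classical
  intro s hs i
  have h1 := support_mul P Q hs
  rw [Finset.mem_add] at h1
  obtain ⟨s1, h1, s2, h2, rfl⟩ := h1
  have h3 := hP s1 h1 i
  have h4 := hQ s2 h2 i
  simp only [Finsupp.add_apply]
  omega

lemma SB.mono {v w v' w' : τ → ℕ} {P : MvPolynomial τ R} (hP : SB v w P)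
    (h : ∀ i, v' i + w i ≤ w' i + v i) : SB v' w' P := by
  intro s hs i
  have h1 := hP s hs i
  have h2 := h i
  omega

lemma SB.C {v w : τ → ℕ} (h : ∀ i, v i ≤ w i) (c : R) : SB v w (C c : MvPolynomial τ R) := by
  classical
  intro s hs i
  have h1 : s = 0 := by
    by_contra h0
    rw [mem_support_iff, coeff_C, if_neg (Ne.symm h0)] at hs
    exact hs rfl
  rw [h1]
  simpa using h i

lemma SB.one {v w : τ → ℕ} (h : ∀ i, v i ≤ w i) : SB v w (1 : MvPolynomial τ R) := by
  have := SB.C (R := R) h 1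
  rwa [map_one] at this

lemma SB.X [DecidableEq τ] (j : τ) : SB (fun _ => 0) (fun i => if i = j then 2 else 0)
    (X j : MvPolynomial τ R) := by
  classical
  intro s hs i
  have h1 : s = Finsupp.single j 1 := by
    by_contra h0
    rw [mem_support_iff, coeff_X, if_neg (Ne.symm h0)] at hs
    exact hs rfl
  rw [h1, Finsupp.single_apply]
  by_cases h : i = j
  · simp [h]
  · simp [Ne.symm h]

lemma SB.pow {w : τ → ℕ} {P : MvPolynomial τ R} (hP : SB (fun _ => 0) w P) (n : ℕ) :
    SB (fun _ => 0) (fun i => n * w i) (P ^ n) := by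
  induction n with
  | zero =>
    rw [pow_zero]
    exact SB.one (fun i => Nat.zero_le _)
  | succ n ih =>
    rw [pow_succ]
    refine (ih.mul hP).mono (fun i => ?_)
    simp only [zero_add, add_zero]
    ring_nf
    rfl

lemma SB.smulC {v w : τ → ℕ} {P : MvPolynomial τ R} (hP : SB v w P) (c : R) :
    SB v w (MvPolynomial.C c * P) := by
  refine ((SB.C (v := fun _ => 0) (w := fun _ => 0) (fun _ => le_rfl) c).mul hP).mono
    (fun i => ?_)
  simp only [zero_add]
  omega

lemma SB.nat {v w : τ → ℕ} {P : MvPolynomial τ R} (hP : SB v w P) (n : ℕ) [n.AtLeastTwo] :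
    SB v w (OfNat.ofNat n * P) := by
  have h : (OfNat.ofNat n : MvPolynomial τ R) = MvPolynomial.C (OfNat.ofNat n : R) := by
    rw [map_ofNat]
  rw [h]
  exact hP.smulC _

end supp

section length

variable {K : Type} [Field K] [NumberField K] {σ : Type}

/-- the house of an algebraic integer -/
noncomputable def hs (x : 𝓞 K) : ℝ := house (x : K)

lemma hs_nonneg (x : 𝓞 K) : 0 ≤ hs x := house_nonneg _

lemma hs_zero : hs (0 : 𝓞 K) = 0 := by
  unfold hs
  simp [house]

lemma hs_one : hs (1 : 𝓞 K) = 1 := by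
  unfold hs
  have := house_intCast (K := K) 1
  simpa using this

lemma hs_mul (x y : 𝓞 K) : hs (x * y) ≤ hs x * hs y := by
  unfold hs
  simp only [RingOfIntegers.coe_eq_algebraMap, map_mul]
  exact house_mul_le _ _

lemma hs_add (x y : 𝓞 K) : hs (x + y) ≤ hs x + hs y := by
  unfold hs
  simp only [RingOfIntegers.coe_eq_algebraMap, map_add]
  exact house_add_le _ _

lemma hs_neg (x : 𝓞 K) : hs (-x) = hs x := by
  unfold hs house
  simp only [RingOfIntegers.coe_eq_algebraMap, map_neg, norm_neg]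

lemma hs_sum {ι : Type} (s : Finset ι) (f : ι → 𝓞 K) : hs (∑ i ∈ s, f i) ≤ ∑ i ∈ s, hs (f i) := by
  unfold hs
  simp only [RingOfIntegers.coe_eq_algebraMap, map_sum]
  exact house_sum_le_sum_house _ _

lemma hs_nat (n : ℕ) : hs (n : 𝓞 K) = n := by
  unfold hs
  have := house_intCast (K := K) (n : ℤ)
  simpa using this

lemma len_def (P : MvPolynomial σ (𝓞 K)) : len P = ∑ s ∈ P.support, hs (P.coeff s) := rfl

lemma len_eq {P : MvPolynomial σ (𝓞 K)} {S : Finset (σ →₀ ℕ)} (h : P.support ⊆ S) :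
    len P = ∑ s ∈ S, hs (P.coeff s) := by
  rw [len_def]
  refine Finset.sum_subset h (fun s _ hs' => ?_)
  rw [notMem_support_iff.1 hs', hs_zero]

lemma len_nonneg (P : MvPolynomial σ (𝓞 K)) : 0 ≤ len P :=
  Finset.sum_nonneg (fun _ _ => hs_nonneg _)

lemma hs_le_len (P : MvPolynomial σ (𝓞 K)) (s : σ →₀ ℕ) : hs (P.coeff s) ≤ len P := by
  by_cases h : s ∈ P.support
  · exact Finset.single_le_sum (f := fun s => hs (P.coeff s)) (fun _ _ => hs_nonneg _) h
  · rw [notMem_support_iff.1 h, hs_zero]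
    exact len_nonneg _

lemma len_zero : len (0 : MvPolynomial σ (𝓞 K)) = 0 := by
  rw [len_def]
  simp

lemma len_add (P Q : MvPolynomial σ (𝓞 K)) : len (P + Q) ≤ len P + len Q := by
  classical
  rw [len_eq (P := P + Q) (S := P.support ∪ Q.support) support_add,
    len_eq (P := P) (S := P.support ∪ Q.support) Finset.subset_union_left,
    len_eq (P := Q) (S := P.support ∪ Q.support) Finset.subset_union_right,
    ← Finset.sum_add_distrib]
  refine Finset.sum_le_sum (fun s _ => ?_)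
  rw [coeff_add]
  exact hs_add _ _

lemma len_sum {ι : Type} (s : Finset ι) (f : ι → MvPolynomial σ (𝓞 K)) :
    len (∑ i ∈ s, f i) ≤ ∑ i ∈ s, len (f i) := by
  classical
  induction s using Finset.induction_on with
  | empty => simp [len_zero]
  | insert a s ha ih =>
    rw [Finset.sum_insert ha, Finset.sum_insert ha]
    exact (len_add _ _).trans (by linarith)

lemma len_monomial (s : σ →₀ ℕ) (c : 𝓞 K) : len (monomial s c) = hs c := by
  classical
  rw [len_eq (S := {s}) support_monomial_subset, Finset.sum_singleton, coeff_monomial,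
    if_pos rfl]

lemma len_C (c : 𝓞 K) : len (C c : MvPolynomial σ (𝓞 K)) = hs c := len_monomial 0 c

lemma len_one : len (1 : MvPolynomial σ (𝓞 K)) = 1 := by
  have := len_C (σ := σ) (1 : 𝓞 K)
  rwa [map_one, hs_one] at this

lemma len_X (i : σ) : len (X i : MvPolynomial σ (𝓞 K)) = 1 := by
  have := len_monomial (Finsupp.single i 1) (1 : 𝓞 K)
  rwa [hs_one] at this

lemma len_neg (P : MvPolynomial σ (𝓞 K)) : len (-P) = len P := by
  rw [len_def, len_def, support_neg]
  refine Finset.sum_congr rfl (fun s _ => ?_)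
  rw [coeff_neg, hs_neg]

lemma len_sub (P Q : MvPolynomial σ (𝓞 K)) : len (P - Q) ≤ len P + len Q := by
  rw [sub_eq_add_neg]
  refine (len_add _ _).trans (le_of_eq ?_)
  rw [len_neg]

lemma len_mul (P Q : MvPolynomial σ (𝓞 K)) : len (P * Q) ≤ len P * len Q := by
  classical
  have h1 : P * Q = ∑ s ∈ P.support, ∑ t ∈ Q.support,
      monomial (s + t) (P.coeff s * Q.coeff t) := by
    conv_lhs => rw [P.as_sum, Q.as_sum]
    rw [Finset.sum_mul_sum]
    refine Finset.sum_congr rfl (fun s _ => Finset.sum_congr rfl (fun t _ => ?_))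
    rw [monomial_mul]
  rw [h1]
  refine (len_sum _ _).trans ?_
  rw [len_def, len_def, Finset.sum_mul_sum]
  refine Finset.sum_le_sum (fun s _ => (len_sum _ _).trans (Finset.sum_le_sum (fun t _ => ?_)))
  rw [len_monomial]
  exact hs_mul _ _

lemma len_pow (P : MvPolynomial σ (𝓞 K)) (n : ℕ) : len (P ^ n) ≤ len P ^ n := by
  induction n with
  | zero => rw [pow_zero, pow_zero, len_one]
  | succ n ih =>
    rw [pow_succ, pow_succ]
    exact (len_mul _ _).trans (mul_le_mul_of_nonneg_right ih (len_nonneg _))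

lemma len_prod {ι : Type} (s : Finset ι) (f : ι → MvPolynomial σ (𝓞 K)) :
    len (∏ i ∈ s, f i) ≤ ∏ i ∈ s, len (f i) := by
  classical
  induction s using Finset.induction_on with
  | empty => simp [len_one]
  | insert a s ha ih =>
    rw [Finset.prod_insert ha, Finset.prod_insert ha]
    exact (len_mul _ _).trans (mul_le_mul_of_nonneg_left ih (len_nonneg _))

end length

section quad

variable {K : Type} [Field K] [NumberField K]

/-- polynomials in `x` (variable `0`) and the two base coordinates (variables `1`, `2`) -/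
abbrev M3 (K : Type) [Field K] [NumberField K] : Type := MvPolynomial (Fin 3) (𝓞 K)

/-- `x_i³ + a x_i + b` -/
noncomputable def fX (a b : 𝓞 K) (i : Fin 3) : M3 K := X i ^ 3 + C a * X i + C b

/-- the square of `y y₀` -/
noncomputable def ff (a b : 𝓞 K) (j : Fin 2) : M3 K := fX a b 0 * fX a b j.succ

/-- the quadratic extension by `y y₀` -/
abbrev QQ (a b : 𝓞 K) (j : Fin 2) : Type := QuadraticAlgebra (M3 K) (ff a b j) 0

/-- `phi` in the base coordinate -/
noncomputable def pj (a b : 𝓞 K) (j : Fin 2) (k : ℕ) : M3 K :=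
  Polynomial.aeval (X j.succ) (phi a b k)

/-- `psi` in the base coordinate -/
noncomputable def qj (a b : 𝓞 K) (j : Fin 2) (k : ℕ) : M3 K :=
  Polynomial.aeval (X j.succ) (psi a b k)

/-- `om` in the base coordinate -/
noncomputable def oj (a b : 𝓞 K) (j : Fin 2) (k : ℕ) : M3 K :=
  Polynomial.aeval (X j.succ) (om a b k)

lemma pj_zero (a b : 𝓞 K) (j : Fin 2) : pj a b j 0 = X j.succ := by
  unfold pj phi dp
  simp

lemma qj_zero (a b : 𝓞 K) (j : Fin 2) : qj a b j 0 = 1 := by
  unfold qj psi dp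
  simp

lemma oj_zero (a b : 𝓞 K) (j : Fin 2) : oj a b j 0 = 1 := by
  unfold oj om
  simp

lemma pj_succ (a b : 𝓞 K) (j : Fin 2) (k : ℕ) : pj a b j (k + 1) =
    pj a b j k ^ 4 - 2 * C a * pj a b j k ^ 2 * qj a b j k ^ 2 -
      8 * C b * pj a b j k * qj a b j k ^ 3 + C a ^ 2 * qj a b j k ^ 4 := by
  have h : phi a b (k + 1) = phi a b k ^ 4 - 2 * Polynomial.C a * phi a b k ^ 2 * psi a b k ^ 2 -
      8 * Polynomial.C b * phi a b k * psi a b k ^ 3 + Polynomial.C a ^ 2 * psi a b k ^ 4 := rfl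
  unfold pj qj
  rw [h]
  simp only [map_add, map_sub, map_mul, map_pow, map_ofNat, Polynomial.aeval_C]
  rfl

lemma qj_succ (a b : 𝓞 K) (j : Fin 2) (k : ℕ) : qj a b j (k + 1) =
    4 * qj a b j k * (pj a b j k ^ 3 + C a * pj a b j k * qj a b j k ^ 2 +
      C b * qj a b j k ^ 3) := by
  have h : psi a b (k + 1) = 4 * psi a b k * (phi a b k ^ 3 +
      Polynomial.C a * phi a b k * psi a b k ^ 2 + Polynomial.C b * psi a b k ^ 3) := rfl
  unfold pj qj
  rw [h]
  simp only [map_add, map_sub, map_mul, map_pow, map_ofNat, Polynomial.aeval_C]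
  rfl

lemma oj_succ (a b : 𝓞 K) (j : Fin 2) (k : ℕ) : oj a b j (k + 1) =
    2 * oj a b j k * (pj a b j k ^ 6 + 5 * C a * pj a b j k ^ 4 * qj a b j k ^ 2 +
      20 * C b * pj a b j k ^ 3 * qj a b j k ^ 3 - 5 * C a ^ 2 * pj a b j k ^ 2 * qj a b j k ^ 4 -
      4 * C a * C b * pj a b j k * qj a b j k ^ 5 - (8 * C b ^ 2 + C a ^ 3) * qj a b j k ^ 6) := by
  have h : om a b (k + 1) = 2 * om a b k * (phi a b k ^ 6 + 5 * Polynomial.C a *
      phi a b k ^ 4 * psi a b k ^ 2 + 20 * Polynomial.C b * phi a b k ^ 3 * psi a b k ^ 3 -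
      5 * Polynomial.C a ^ 2 * phi a b k ^ 2 * psi a b k ^ 4 -
      4 * Polynomial.C a * Polynomial.C b * phi a b k * psi a b k ^ 5 -
      (8 * Polynomial.C b ^ 2 + Polynomial.C a ^ 3) * psi a b k ^ 6) := rfl
  unfold oj pj qj
  rw [h]
  simp only [map_add, map_sub, map_mul, map_pow, map_ofNat, Polynomial.aeval_C]
  rfl

/-- the identity for the `y`-coordinate of `2 ^ k P` -/
lemma oj_sq (a b : 𝓞 K) (j : Fin 2) (k : ℕ) : oj a b j k ^ 2 * fX a b j.succ =
    qj a b j k * (pj a b j k ^ 3 + C a * pj a b j k * qj a b j k ^ 2 + C b * qj a b j k ^ 3) := by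
  induction k with
  | zero =>
    rw [oj_zero, qj_zero, pj_zero]
    unfold fX
    ring
  | succ k ih =>
    rw [oj_succ, qj_succ, pj_succ]
    linear_combination (2 * (pj a b j k ^ 6 + 5 * C a * pj a b j k ^ 4 * qj a b j k ^ 2 +
      20 * C b * pj a b j k ^ 3 * qj a b j k ^ 3 - 5 * C a ^ 2 * pj a b j k ^ 2 * qj a b j k ^ 4 -
      4 * C a * C b * pj a b j k * qj a b j k ^ 5 -
      (8 * C b ^ 2 + C a ^ 3) * qj a b j k ^ 6)) ^ 2 * ih

/-- the element `A = (x q - p)²` -/
noncomputable def eA (a b : 𝓞 K) (j : Fin 2) (k : ℕ) : QQ a b j :=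
  ⟨(X 0 * qj a b j k - pj a b j k) ^ 2, 0⟩

/-- the common part of `N⁺` and `N⁻` -/
noncomputable def al (a b : 𝓞 K) (j : Fin 2) (k : ℕ) : M3 K :=
  (X 0 * qj a b j k + pj a b j k) * (X 0 * pj a b j k + C a * qj a b j k) +
    2 * C b * qj a b j k ^ 2

/-- `N⁺` -/
noncomputable def eP (a b : 𝓞 K) (j : Fin 2) (k : ℕ) : QQ a b j := ⟨al a b j k, 2 * oj a b j k⟩

/-- `N⁻` -/
noncomputable def eM (a b : 𝓞 K) (j : Fin 2) (k : ℕ) : QQ a b j := ⟨al a b j k, -(2 * oj a b j k)⟩

/-- the element `C` -/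
noncomputable def eC (a b : 𝓞 K) (j : Fin 2) (k : ℕ) : QQ a b j :=
  ⟨(X 0 * pj a b j k - C a * qj a b j k) ^ 2 -
    4 * C b * qj a b j k * (X 0 * qj a b j k + pj a b j k), 0⟩

lemma eP_mul_eM (a b : 𝓞 K) (j : Fin 2) (k : ℕ) :
    eP a b j k * eM a b j k = eA a b j k * eC a b j k := by
  have h := oj_sq a b j k
  ext1
  · rw [QuadraticAlgebra.re_mul, QuadraticAlgebra.re_mul]
    unfold eP eM eA eC al ff
    simp only
    have h2 : fX a b 0 = X 0 ^ 3 + C a * X 0 + C b := rfl
    linear_combination (-4 * fX a b 0) * h + (-4 * (qj a b j k * (pj a b j k ^ 3 +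
      C a * pj a b j k * qj a b j k ^ 2 + C b * qj a b j k ^ 3))) * h2
  · rw [QuadraticAlgebra.im_mul, QuadraticAlgebra.im_mul]
    unfold eP eM eA eC
    simp only
    ring

end quad

end Pool.Agent.J4H27.GC
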