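import Pool.Agent.J4H27.GC.Row

/-!
# Supports and lengths of the rows and of their powers
-/

set_option autoImplicit false
set_option linter.unusedSectionVars false

open MvPolynomial NumberField

namespace Pool.Agent.J4H27.GC

section pq

variable {τ R : Type} [CommRing R]

lemma SB.pq {w : τ → ℕ} {P Q : MvPolynomial τ R} (hP : SB (fun _ => 0) w P)
    (hQ : SB (fun _ => 0) w Q) (i j n : ℕ) (h : i + j = n) :
    SB (fun _ => 0) (fun t => n * w t) (P ^ i * Q ^ j) := by
  refine ((hP.pow i).mul (hQ.pow j)).mono (fun t => ?_)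
  rw [← h, Nat.add_mul]
  omega

end pq

section wt

variable {K : Type} [Field K] [NumberField K] {a b : 𝓞 K} {j : Fin 2}

/-- the weight of `y y₀` -/
def vI (j : Fin 2) : Fin 3 → ℕ := fun i => if i = 0 ∨ i = j.succ then 3 else 0

/-- bound for the exponents of an element of the quadratic extension -/
def WQ (w : Fin 3 → ℕ) (q : QQ a b j) : Prop := SB (fun _ => 0) w q.re ∧ SB (vI j) w q.im

lemma SB_fX (a b : 𝓞 K) (i : Fin 3) :
    SB (fun _ => 0) (fun t => if t = i then 6 else 0) (fX a b i) := by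
  unfold fX
  have h1 : SB (fun _ => 0) (fun t => 3 * (if t = i then 2 else 0)) (X i ^ 3 : M3 K) :=
    (SB.X i).pow 3
  have h2 : SB (fun _ => 0) (fun t => if t = i then 2 else 0) (C a * X i : M3 K) :=
    (SB.X i).smulC a
  refine ((h1.mono (fun t => ?_)).add (h2.mono (fun t => ?_))).add (SB.C (fun t => ?_) b)
  · by_cases h : t = i <;> simp [h]
  · by_cases h : t = i <;> simp [h]
  · exact Nat.zero_le _

lemma SB_ff (a b : 𝓞 K) (j : Fin 2) : SB (fun _ => 0) (fun t => 2 * vI j t) (ff a b j) := by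
  unfold ff
  refine ((SB_fX a b 0).mul (SB_fX a b j.succ)).mono (fun t => ?_)
  unfold vI
  by_cases h : t = 0
  · subst h
    have h2 : (0 : Fin 3) ≠ j.succ := (Fin.succ_ne_zero j).symm
    simp [h2]
  · by_cases h2 : t = j.succ
    · simp [h2]
    · simp [h, h2]

lemma WQ.one : WQ (fun _ => 0) (1 : QQ a b j) := by
  refine ⟨?_, ?_⟩
  · rw [QuadraticAlgebra.re_one]
    exact SB.one (fun _ => le_rfl)
  · rw [QuadraticAlgebra.im_one]
    exact SB.zero _ _

lemma WQ.mul {w w' : Fin 3 → ℕ} {q q' : QQ a b j} (h : WQ w q) (h' : WQ w' q') :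
    WQ (fun i => w i + w' i) (q * q') := by
  refine ⟨?_, ?_⟩
  · rw [QuadraticAlgebra.re_mul]
    refine ((h.1.mul h'.1).mono (fun i => by simp)).add ?_
    refine (((SB_ff a b j).mul h.2).mul h'.2).mono (fun i => ?_)
    omega
  · rw [QuadraticAlgebra.im_mul, zero_mul, zero_mul, add_zero]
    refine ((h.1.mul h'.2).mono (fun i => by simp; omega)).add
      ((h.2.mul h'.1).mono (fun i => by simp; omega))

lemma WQ.pow {w : Fin 3 → ℕ} {q : QQ a b j} (h : WQ w q) (n : ℕ) :
    WQ (fun i => n * w i) (q ^ n) := by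
  induction n with
  | zero =>
    rw [pow_zero]
    convert WQ.one using 2
    ring
  | succ n ih =>
    rw [pow_succ]
    convert ih.mul h using 2
    ring

/-- the weights of `pj`, `qj` -/
def wb (j : Fin 2) (k : ℕ) : Fin 3 → ℕ := fun i => if i = j.succ then 2 * 4 ^ k else 0

lemma SB_pq (a b : 𝓞 K) (j : Fin 2) (k : ℕ) :
    SB (fun _ => 0) (wb j k) (pj a b j k) ∧ SB (fun _ => 0) (wb j k) (qj a b j k) := by
  induction k with
  | zero =>
    rw [pj_zero, qj_zero]
    refine ⟨(SB.X j.succ).mono (fun i => ?_), SB.one (fun i => Nat.zero_le _)⟩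
    unfold wb
    by_cases h : i = j.succ <;> simp [h]
  | succ k ih =>
    obtain ⟨hp, hq⟩ := ih
    have hw : ∀ i, wb j (k + 1) i = 4 * wb j k i := by
      intro i
      unfold wb
      by_cases h : i = j.succ
      · simp only [h, if_true]
        ring
      · simp [h]
    have key : ∀ m n : ℕ, m + n = 4 →
        SB (fun _ => 0) (wb j (k + 1)) (pj a b j k ^ m * qj a b j k ^ n) := by
      intro m n hmn
      refine (SB.pq hp hq m n 4 hmn).mono (fun i => ?_)
      rw [hw, zero_add, add_zero]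
    constructor
    · rw [pj_succ]
      have e : pj a b j k ^ 4 - 2 * C a * pj a b j k ^ 2 * qj a b j k ^ 2 -
          8 * C b * pj a b j k * qj a b j k ^ 3 + C a ^ 2 * qj a b j k ^ 4 =
          pj a b j k ^ 4 * qj a b j k ^ 0 - C (2 * a) * (pj a b j k ^ 2 * qj a b j k ^ 2) -
          C (8 * b) * (pj a b j k ^ 1 * qj a b j k ^ 3) +
          C (a ^ 2) * (pj a b j k ^ 0 * qj a b j k ^ 4) := by
        simp only [map_mul, map_ofNat, map_pow]
        ring
      rw [e]
      exact (((key 4 0 rfl).sub ((key 2 2 rfl).smulC _)).sub ((key 1 3 rfl).smulC _)).add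
        ((key 0 4 rfl).smulC _)
    · rw [qj_succ]
      have e : 4 * qj a b j k * (pj a b j k ^ 3 + C a * pj a b j k * qj a b j k ^ 2 +
          C b * qj a b j k ^ 3) = C 4 * (pj a b j k ^ 3 * qj a b j k ^ 1) +
          C (4 * a) * (pj a b j k ^ 1 * qj a b j k ^ 3) +
          C (4 * b) * (pj a b j k ^ 0 * qj a b j k ^ 4) := by
        simp only [map_mul, map_ofNat]
        ring
      rw [e]
      exact (((key 3 1 rfl).smulC _).add ((key 1 3 rfl).smulC _)).add ((key 0 4 rfl).smulC _)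

/-- the polynomial factor of `oj` -/
noncomputable def mj (a b : 𝓞 K) (j : Fin 2) (k : ℕ) : M3 K :=
  C 2 * (pj a b j k ^ 6 * qj a b j k ^ 0) + C (10 * a) * (pj a b j k ^ 4 * qj a b j k ^ 2) +
      C (40 * b) * (pj a b j k ^ 3 * qj a b j k ^ 3) -
      C (10 * a ^ 2) * (pj a b j k ^ 2 * qj a b j k ^ 4) -
      C (8 * a * b) * (pj a b j k ^ 1 * qj a b j k ^ 5) -
      C (16 * b ^ 2 + 2 * a ^ 3) * (pj a b j k ^ 0 * qj a b j k ^ 6)

lemma oj_succ' (a b : 𝓞 K) (j : Fin 2) (k : ℕ) : oj a b j (k + 1) = oj a b j k * mj a b j k := by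
  rw [oj_succ]
  unfold mj
  simp only [map_mul, map_ofNat, map_pow, map_add]
  ring

lemma SB_o (a b : 𝓞 K) (j : Fin 2) (k : ℕ) :
    SB (fun i => if i = j.succ then 4 else 0) (fun i => if i = j.succ then 4 * 4 ^ k else 0)
      (oj a b j k) := by
  induction k with
  | zero =>
    rw [oj_zero]
    exact SB.one (fun i => by simp)
  | succ k ih =>
    obtain ⟨hp, hq⟩ := SB_pq a b j k
    have key : ∀ m n : ℕ, m + n = 6 →
        SB (fun _ => 0) (fun i => 6 * wb j k i) (pj a b j k ^ m * qj a b j k ^ n) :=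
      fun m n hmn => SB.pq hp hq m n 6 hmn
    rw [oj_succ']
    have hm : SB (fun _ => 0) (fun i => 6 * wb j k i) (mj a b j k) := by
      unfold mj
      exact ((((((key 6 0 rfl).smulC _).add ((key 4 2 rfl).smulC _)).add
        ((key 3 3 rfl).smulC _)).sub ((key 2 4 rfl).smulC _)).sub ((key 1 5 rfl).smulC _)).sub
        ((key 0 6 rfl).smulC _)
    refine (ih.mul hm).mono (fun i => ?_)
    unfold wb
    by_cases h : i = j.succ
    · simp only [h, if_true]
      have : 4 ^ (k + 1) = 4 * 4 ^ k := pow_succ' 4 k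
      omega
    · simp [h]

/-- the weights of the rows -/
def wr (j : Fin 2) (k : ℕ) : Fin 3 → ℕ :=
  fun i => if i = 0 then 4 else if i = j.succ then 4 * 4 ^ k else 0

lemma SB_X0 (Q : M3 K) {w : Fin 3 → ℕ} (h : SB (fun _ => 0) w Q) :
    SB (fun _ => 0) (fun i => (if i = 0 then 2 else 0) + w i) (X 0 * Q) :=
  ((SB.X (0 : Fin 3)).mul h).mono (fun i => by simp)

lemma wr_le (j : Fin 2) (k : ℕ) (i : Fin 3) :
    ((if i = 0 then 2 else 0) + wb j k i) + ((if i = 0 then 2 else 0) + wb j k i) ≤ wr j k i := by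
  unfold wr wb
  by_cases h : i = 0
  · subst h
    have h2 : (0 : Fin 3) ≠ j.succ := (Fin.succ_ne_zero j).symm
    simp [h2]
  · by_cases h2 : i = j.succ
    · rw [if_neg h, if_neg h, if_pos h2, if_pos h2]
      omega
    · simp [h, h2]

lemma SB_al (a b : 𝓞 K) (j : Fin 2) (k : ℕ) : SB (fun _ => 0) (wr j k) (al a b j k) := by
  obtain ⟨hp, hq⟩ := SB_pq a b j k
  have hp1 := SB_X0 _ hp
  have hq1 := SB_X0 _ hq
  have hp2 : SB (fun _ => 0) (fun i => (if i = 0 then 2 else 0) + wb j k i) (pj a b j k) :=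
    hp.mono (fun i => by simp)
  have hq2 : SB (fun _ => 0) (fun i => (if i = 0 then 2 else 0) + wb j k i) (qj a b j k) :=
    hq.mono (fun i => by simp)
  unfold al
  refine (((hq1.add hp2).mul (hp1.add (hq2.smulC a))).mono (fun i => ?_)).add ?_
  · simpa using wr_le j k i
  · have e : 2 * C b * qj a b j k ^ 2 = C (2 * b) * (qj a b j k * qj a b j k) := by
      simp only [map_mul, map_ofNat]
      ring
    rw [e]
    refine ((hq2.mul hq2).smulC _).mono (fun i => ?_)
    simpa using wr_le j k i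

lemma WQ_A (a b : 𝓞 K) (j : Fin 2) (k : ℕ) : WQ (wr j k) (eA a b j k) := by
  obtain ⟨hp, hq⟩ := SB_pq a b j k
  have hq1 := SB_X0 _ hq
  have hp2 : SB (fun _ => 0) (fun i => (if i = 0 then 2 else 0) + wb j k i) (pj a b j k) :=
    hp.mono (fun i => by simp)
  refine ⟨?_, SB.zero _ _⟩
  unfold eA
  simp only
  rw [pow_two]
  refine ((hq1.sub hp2).mul (hq1.sub hp2)).mono (fun i => ?_)
  simpa using wr_le j k i

lemma WQ_C (a b : 𝓞 K) (j : Fin 2) (k : ℕ) : WQ (wr j k) (eC a b j k) := by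
  obtain ⟨hp, hq⟩ := SB_pq a b j k
  have hp1 := SB_X0 _ hp
  have hq1 := SB_X0 _ hq
  have hp2 : SB (fun _ => 0) (fun i => (if i = 0 then 2 else 0) + wb j k i) (pj a b j k) :=
    hp.mono (fun i => by simp)
  have hq2 : SB (fun _ => 0) (fun i => (if i = 0 then 2 else 0) + wb j k i) (qj a b j k) :=
    hq.mono (fun i => by simp)
  refine ⟨?_, SB.zero _ _⟩
  unfold eC
  simp only
  have e : (X 0 * pj a b j k - C a * qj a b j k) ^ 2 -
      4 * C b * qj a b j k * (X 0 * qj a b j k + pj a b j k) =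
      (X 0 * pj a b j k - C a * qj a b j k) * (X 0 * pj a b j k - C a * qj a b j k) -
      C (4 * b) * (qj a b j k * (X 0 * qj a b j k + pj a b j k)) := by
    simp only [map_mul, map_ofNat]
    ring
  rw [e]
  have h1 := hp1.sub (hq2.smulC a)
  refine ((h1.mul h1).mono (fun i => ?_)).sub
    (((hq2.mul (hq1.add hp2)).smulC (4 * b)).mono (fun i => ?_))
  · simpa using wr_le j k i
  · simpa using wr_le j k i

lemma SB_2o (a b : 𝓞 K) (j : Fin 2) (k : ℕ) : SB (vI j) (wr j k) (2 * oj a b j k) := by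
  have e : 2 * oj a b j k = C 2 * oj a b j k := by simp only [map_ofNat]
  rw [e]
  refine ((SB_o a b j k).smulC 2).mono (fun i => ?_)
  unfold vI wr
  by_cases h : i = 0
  · subst h
    have h2 : (0 : Fin 3) ≠ j.succ := (Fin.succ_ne_zero j).symm
    simp [h2]
  · by_cases h2 : i = j.succ
    · rw [if_pos (Or.inr h2), if_pos h2, if_neg h, if_pos h2]
      omega
    · simp [h, h2]

lemma WQ_P (a b : 𝓞 K) (j : Fin 2) (k : ℕ) : WQ (wr j k) (eP a b j k) :=
  ⟨SB_al a b j k, SB_2o a b j k⟩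

lemma WQ_M (a b : 𝓞 K) (j : Fin 2) (k : ℕ) : WQ (wr j k) (eM a b j k) :=
  ⟨SB_al a b j k, (SB_2o a b j k).neg⟩

end wt

section ln

variable {K : Type} [Field K] [NumberField K] {a b : 𝓞 K} {j : Fin 2}

/-- the weight of the imaginary part -/
noncomputable def lf (a b : 𝓞 K) (j : Fin 2) : ℝ := max 1 (len (ff a b j))

lemma one_le_lf : 1 ≤ lf a b j := le_max_left _ _

/-- length of an element of the quadratic extension -/
noncomputable def ln (q : QQ a b j) : ℝ := len q.re + lf a b j * len q.im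

lemma ln_nonneg (q : QQ a b j) : 0 ≤ ln q :=
  add_nonneg (len_nonneg _) (mul_nonneg (zero_le_one.trans one_le_lf) (len_nonneg _))

lemma re_le_ln (q : QQ a b j) : len q.re ≤ ln q :=
  le_add_of_nonneg_right (mul_nonneg (zero_le_one.trans one_le_lf) (len_nonneg _))

lemma im_le_ln (q : QQ a b j) : len q.im ≤ ln q := by
  have h1 : len q.im ≤ lf a b j * len q.im := by
    have := one_le_lf (a := a) (b := b) (j := j)
    nlinarith [len_nonneg q.im]
  exact h1.trans (le_add_of_nonneg_left (len_nonneg _))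

lemma ln_one : ln (1 : QQ a b j) = 1 := by
  unfold ln
  rw [QuadraticAlgebra.re_one, QuadraticAlgebra.im_one, len_one, len_zero]
  ring

lemma ln_mul (q q' : QQ a b j) : ln (q * q') ≤ ln q * ln q' := by
  unfold ln
  rw [QuadraticAlgebra.re_mul, QuadraticAlgebra.im_mul, zero_mul, zero_mul, add_zero]
  have hl := one_le_lf (a := a) (b := b) (j := j)
  have hl2 : len (ff a b j) ≤ lf a b j := le_max_right _ _
  have r0 := len_nonneg q.re
  have i0 := len_nonneg q.im
  have r0' := len_nonneg q'.re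
  have i0' := len_nonneg q'.im
  have h1 : len (q.re * q'.re + ff a b j * q.im * q'.im) ≤
      len q.re * len q'.re + lf a b j * (len q.im * len q'.im) := by
    refine (len_add _ _).trans (add_le_add (len_mul _ _) ?_)
    refine (len_mul _ _).trans ?_
    rw [← mul_assoc]
    refine mul_le_mul_of_nonneg_right ((len_mul _ _).trans ?_) i0'
    exact mul_le_mul_of_nonneg_right hl2 i0
  have h2 : len (q.re * q'.im + q.im * q'.re) ≤ len q.re * len q'.im + len q.im * len q'.re :=
    (len_add _ _).trans (add_le_add (len_mul _ _) (len_mul _ _))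
  have h3 : lf a b j * (len q.im * len q'.im) ≤ lf a b j * lf a b j * (len q.im * len q'.im) := by
    have : 0 ≤ len q.im * len q'.im := mul_nonneg i0 i0'
    nlinarith [mul_nonneg (zero_le_one.trans hl) this]
  have h4 := mul_le_mul_of_nonneg_left h2 (zero_le_one.trans hl)
  nlinarith

lemma ln_pow (q : QQ a b j) (n : ℕ) : ln (q ^ n) ≤ ln q ^ n := by
  induction n with
  | zero => rw [pow_zero, pow_zero, ln_one]
  | succ n ih =>
    rw [pow_succ, pow_succ]
    exact (ln_mul _ _).trans (mul_le_mul_of_nonneg_right ih (ln_nonneg _))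

/-- basic constant -/
noncomputable def cE (a b : 𝓞 K) : ℝ := 64 * (1 + hs a + hs b) ^ 3

lemma hs_two_mul (n : ℕ) (x : 𝓞 K) : hs ((n : 𝓞 K) * x) ≤ n * hs x := by
  refine (hs_mul _ _).trans ?_
  rw [hs_nat]

lemma len_pq {σ : Type} {P Q : MvPolynomial σ (𝓞 K)} {L : ℝ} (hP : len P ≤ L) (hQ : len Q ≤ L)
    (hL : 0 ≤ L) (c : 𝓞 K) (i j n : ℕ) (h : i + j = n) :
    len (C c * (P ^ i * Q ^ j)) ≤ hs c * L ^ n := by
  refine (len_mul _ _).trans ?_
  rw [len_C]
  refine mul_le_mul_of_nonneg_left ((len_mul _ _).trans ?_) (hs_nonneg _)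
  rw [← h, pow_add]
  exact mul_le_mul ((len_pow _ _).trans (pow_le_pow_left₀ (len_nonneg _) hP _))
    ((len_pow _ _).trans (pow_le_pow_left₀ (len_nonneg _) hQ _)) (len_nonneg _)
    (pow_nonneg hL _)

lemma one_le_cE : 1 ≤ cE a b := by
  unfold cE
  have h1 := hs_nonneg a
  have h2 := hs_nonneg b
  have h3 : (1 : ℝ) ≤ (1 + hs a + hs b) ^ 3 := one_le_pow₀ (by linarith)
  linarith

lemma len_pjqj (a b : 𝓞 K) (j : Fin 2) (k : ℕ) :
    len (pj a b j k) ≤ cE a b ^ (4 ^ k - 1) ∧ len (qj a b j k) ≤ cE a b ^ (4 ^ k - 1) := by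
  have ha := hs_nonneg a
  have hb := hs_nonneg b
  induction k with
  | zero =>
    rw [pj_zero, qj_zero, len_X, len_one]
    simp
  | succ k ih =>
    obtain ⟨hp, hq⟩ := ih
    have hc1 := one_le_cE (a := a) (b := b)
    have hL : (0 : ℝ) ≤ cE a b ^ (4 ^ k - 1) := pow_nonneg (by linarith) _
    have hk : 1 ≤ 4 ^ k := Nat.one_le_pow _ _ (by norm_num)
    have hfin : cE a b * (cE a b ^ (4 ^ k - 1)) ^ 4 ≤ cE a b ^ (4 ^ (k + 1) - 1) := by
      rw [← pow_mul, ← pow_succ']
      exact pow_le_pow_right₀ hc1 (by rw [pow_succ]; omega)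
    have hL4 : (0 : ℝ) ≤ (cE a b ^ (4 ^ k - 1)) ^ 4 := pow_nonneg hL _
    have key : ∀ (c : 𝓞 K) (m n : ℕ), m + n = 4 →
        len (C c * (pj a b j k ^ m * qj a b j k ^ n)) ≤ hs c * (cE a b ^ (4 ^ k - 1)) ^ 4 :=
      fun c m n hmn => len_pq hp hq hL c m n 4 hmn
    have hcube : (1 + hs a + hs b) ^ 2 ≤ (1 + hs a + hs b) ^ 3 :=
      pow_le_pow_right₀ (by linarith) (by norm_num)
    constructor
    · rw [pj_succ]
      have e : pj a b j k ^ 4 - 2 * C a * pj a b j k ^ 2 * qj a b j k ^ 2 -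
          8 * C b * pj a b j k * qj a b j k ^ 3 + C a ^ 2 * qj a b j k ^ 4 =
          C 1 * (pj a b j k ^ 4 * qj a b j k ^ 0) -
          C (((2 : ℕ) : 𝓞 K) * a) * (pj a b j k ^ 2 * qj a b j k ^ 2) -
          C (((8 : ℕ) : 𝓞 K) * b) * (pj a b j k ^ 1 * qj a b j k ^ 3) +
          C (a * a) * (pj a b j k ^ 0 * qj a b j k ^ 4) := by
        simp only [map_mul, map_natCast, map_one]
        push_cast
        ring
      rw [e]
      have h1 := key 1 4 0 rfl
      have h2 := key (((2 : ℕ) : 𝓞 K) * a) 2 2 rfl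
      have h3 := key (((8 : ℕ) : 𝓞 K) * b) 1 3 rfl
      have h4 := key (a * a) 0 4 rfl
      rw [hs_one] at h1
      have g2 := mul_le_mul_of_nonneg_right (hs_two_mul 2 a) hL4
      have g3 := mul_le_mul_of_nonneg_right (hs_two_mul 8 b) hL4
      have g4 := mul_le_mul_of_nonneg_right (hs_mul a a) hL4
      push_cast at g2 g3
      have h5 := (len_add (C 1 * (pj a b j k ^ 4 * qj a b j k ^ 0) -
          C (((2 : ℕ) : 𝓞 K) * a) * (pj a b j k ^ 2 * qj a b j k ^ 2) -
          C (((8 : ℕ) : 𝓞 K) * b) * (pj a b j k ^ 1 * qj a b j k ^ 3))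
          (C (a * a) * (pj a b j k ^ 0 * qj a b j k ^ 4)))
      have h6 := (len_sub (C 1 * (pj a b j k ^ 4 * qj a b j k ^ 0) -
          C (((2 : ℕ) : 𝓞 K) * a) * (pj a b j k ^ 2 * qj a b j k ^ 2))
          (C (((8 : ℕ) : 𝓞 K) * b) * (pj a b j k ^ 1 * qj a b j k ^ 3)))
      have h7 := (len_sub (C 1 * (pj a b j k ^ 4 * qj a b j k ^ 0))
          (C (((2 : ℕ) : 𝓞 K) * a) * (pj a b j k ^ 2 * qj a b j k ^ 2)))
      refine le_trans ?_ hfin
      have hcon : 1 + 2 * hs a + 8 * hs b + hs a * hs a ≤ cE a b := by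
        unfold cE
        nlinarith [mul_nonneg ha hb, mul_nonneg ha ha, mul_nonneg hb hb]
      have h8 := mul_le_mul_of_nonneg_right hcon hL4
      push_cast at h2 h3 h5 h6 h7 ⊢
      linarith
    · rw [qj_succ]
      have e : 4 * qj a b j k * (pj a b j k ^ 3 + C a * pj a b j k * qj a b j k ^ 2 +
          C b * qj a b j k ^ 3) = C (((4 : ℕ) : 𝓞 K) * 1) * (pj a b j k ^ 3 * qj a b j k ^ 1) +
          C (((4 : ℕ) : 𝓞 K) * a) * (pj a b j k ^ 1 * qj a b j k ^ 3) +
          C (((4 : ℕ) : 𝓞 K) * b) * (pj a b j k ^ 0 * qj a b j k ^ 4) := by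
        simp only [map_mul, map_natCast, map_one]
        push_cast
        ring
      rw [e]
      have h2 := key (((4 : ℕ) : 𝓞 K) * 1) 3 1 rfl
      have h3 := key (((4 : ℕ) : 𝓞 K) * a) 1 3 rfl
      have h4 := key (((4 : ℕ) : 𝓞 K) * b) 0 4 rfl
      have g2 := mul_le_mul_of_nonneg_right (hs_two_mul 4 (1 : 𝓞 K)) hL4
      have g3 := mul_le_mul_of_nonneg_right (hs_two_mul 4 a) hL4
      have g4 := mul_le_mul_of_nonneg_right (hs_two_mul 4 b) hL4
      rw [hs_one] at g2
      have h5 := len_add (C (((4 : ℕ) : 𝓞 K) * 1) * (pj a b j k ^ 3 * qj a b j k ^ 1) +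
          C (((4 : ℕ) : 𝓞 K) * a) * (pj a b j k ^ 1 * qj a b j k ^ 3))
          (C (((4 : ℕ) : 𝓞 K) * b) * (pj a b j k ^ 0 * qj a b j k ^ 4))
      have h6 := len_add (C (((4 : ℕ) : 𝓞 K) * 1) * (pj a b j k ^ 3 * qj a b j k ^ 1))
          (C (((4 : ℕ) : 𝓞 K) * a) * (pj a b j k ^ 1 * qj a b j k ^ 3))
      refine le_trans ?_ hfin
      have hcon : 4 + 4 * hs a + 4 * hs b ≤ cE a b := by
        unfold cE
        nlinarith [mul_nonneg ha hb, mul_nonneg ha ha, mul_nonneg hb hb]
      have h8 := mul_le_mul_of_nonneg_right hcon hL4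
      push_cast at g2 g3 g4 h2 h3 h4 h5 h6 ⊢
      linarith

lemma len_oj (a b : 𝓞 K) (j : Fin 2) (k : ℕ) :
    len (oj a b j k) ≤ cE a b ^ (2 * (4 ^ k - 1)) := by
  have ha := hs_nonneg a
  have hb := hs_nonneg b
  induction k with
  | zero =>
    rw [oj_zero, len_one]
    simp
  | succ k ih =>
    obtain ⟨hp, hq⟩ := len_pjqj a b j k
    have hc1 := one_le_cE (a := a) (b := b)
    have hL : (0 : ℝ) ≤ cE a b ^ (4 ^ k - 1) := pow_nonneg (by linarith) _
    have hL6 : (0 : ℝ) ≤ (cE a b ^ (4 ^ k - 1)) ^ 6 := pow_nonneg hL _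
    have key : ∀ (c : 𝓞 K) (m n : ℕ), m + n = 6 →
        len (C c * (pj a b j k ^ m * qj a b j k ^ n)) ≤ hs c * (cE a b ^ (4 ^ k - 1)) ^ 6 :=
      fun c m n hmn => len_pq hp hq hL c m n 6 hmn
    have hk : 1 ≤ 4 ^ k := Nat.one_le_pow _ _ (by norm_num)
    rw [oj_succ']
    refine (len_mul _ _).trans ?_
    have hm : len (mj a b j k) ≤ cE a b * (cE a b ^ (4 ^ k - 1)) ^ 6 := by
      have e : mj a b j k = C (((2 : ℕ) : 𝓞 K) * 1) * (pj a b j k ^ 6 * qj a b j k ^ 0) +
          C (((10 : ℕ) : 𝓞 K) * a) * (pj a b j k ^ 4 * qj a b j k ^ 2) +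
          C (((40 : ℕ) : 𝓞 K) * b) * (pj a b j k ^ 3 * qj a b j k ^ 3) -
          C (((10 : ℕ) : 𝓞 K) * (a * a)) * (pj a b j k ^ 2 * qj a b j k ^ 4) -
          C (((8 : ℕ) : 𝓞 K) * (a * b)) * (pj a b j k ^ 1 * qj a b j k ^ 5) -
          C (((16 : ℕ) : 𝓞 K) * (b * b) + ((2 : ℕ) : 𝓞 K) * (a * (a * a))) *
            (pj a b j k ^ 0 * qj a b j k ^ 6) := by
        unfold mj
        simp only [map_mul, map_natCast, map_one, map_add, map_pow, map_ofNat]
        push_cast
        ring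
      rw [e]
      set t1 := C (((2 : ℕ) : 𝓞 K) * 1) * (pj a b j k ^ 6 * qj a b j k ^ 0) with ht1
      set t2 := C (((10 : ℕ) : 𝓞 K) * a) * (pj a b j k ^ 4 * qj a b j k ^ 2) with ht2
      set t3 := C (((40 : ℕ) : 𝓞 K) * b) * (pj a b j k ^ 3 * qj a b j k ^ 3) with ht3
      set t4 := C (((10 : ℕ) : 𝓞 K) * (a * a)) * (pj a b j k ^ 2 * qj a b j k ^ 4) with ht4
      set t5 := C (((8 : ℕ) : 𝓞 K) * (a * b)) * (pj a b j k ^ 1 * qj a b j k ^ 5) with ht5
      set t6 := C (((16 : ℕ) : 𝓞 K) * (b * b) + ((2 : ℕ) : 𝓞 K) * (a * (a * a))) *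
            (pj a b j k ^ 0 * qj a b j k ^ 6) with ht6
      have h1 : len t1 ≤ 2 * (cE a b ^ (4 ^ k - 1)) ^ 6 := by
        refine (key _ 6 0 rfl).trans (mul_le_mul_of_nonneg_right ?_ hL6)
        refine (hs_two_mul 2 _).trans ?_
        rw [hs_one]
        norm_num
      have h2 : len t2 ≤ (10 * hs a) * (cE a b ^ (4 ^ k - 1)) ^ 6 := by
        refine (key _ 4 2 rfl).trans (mul_le_mul_of_nonneg_right ?_ hL6)
        refine (hs_two_mul 10 _).trans (le_of_eq (by norm_num))
      have h3 : len t3 ≤ (40 * hs b) * (cE a b ^ (4 ^ k - 1)) ^ 6 := by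
        refine (key _ 3 3 rfl).trans (mul_le_mul_of_nonneg_right ?_ hL6)
        refine (hs_two_mul 40 _).trans (le_of_eq (by norm_num))
      have h4 : len t4 ≤ (10 * (hs a * hs a)) * (cE a b ^ (4 ^ k - 1)) ^ 6 := by
        refine (key _ 2 4 rfl).trans (mul_le_mul_of_nonneg_right ?_ hL6)
        refine (hs_two_mul 10 _).trans ?_
        push_cast
        linarith [hs_mul a a]
      have h5 : len t5 ≤ (8 * (hs a * hs b)) * (cE a b ^ (4 ^ k - 1)) ^ 6 := by
        refine (key _ 1 5 rfl).trans (mul_le_mul_of_nonneg_right ?_ hL6)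
        refine (hs_two_mul 8 _).trans ?_
        push_cast
        linarith [hs_mul a b]
      have h6 : len t6 ≤ (16 * (hs b * hs b) + 2 * (hs a * (hs a * hs a))) *
          (cE a b ^ (4 ^ k - 1)) ^ 6 := by
        refine (key _ 0 6 rfl).trans (mul_le_mul_of_nonneg_right ?_ hL6)
        refine (hs_add _ _).trans (add_le_add ?_ ?_)
        · refine (hs_two_mul 16 _).trans ?_
          push_cast
          linarith [hs_mul b b]
        · refine (hs_two_mul 2 _).trans ?_
          push_cast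
          have g1 := hs_mul a (a * a)
          have g2 := mul_le_mul_of_nonneg_left (hs_mul a a) ha
          linarith
      have s1 := len_sub (t1 + t2 + t3 - t4 - t5) t6
      have s2 := len_sub (t1 + t2 + t3 - t4) t5
      have s3 := len_sub (t1 + t2 + t3) t4
      have s4 := len_add (t1 + t2) t3
      have s5 := len_add t1 t2
      have hcon : 2 + 10 * hs a + 40 * hs b + 10 * (hs a * hs a) + 8 * (hs a * hs b) +
          (16 * (hs b * hs b) + 2 * (hs a * (hs a * hs a))) ≤ cE a b := by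
        unfold cE
        have p1 := mul_nonneg ha hb
        have p2 := mul_nonneg ha ha
        have p3 := mul_nonneg hb hb
        have p4 := mul_nonneg ha p2
        have p5 := mul_nonneg hb p2
        have p6 := mul_nonneg ha p3
        have p7 := mul_nonneg hb p3
        nlinarith
      have h8 := mul_le_mul_of_nonneg_right hcon hL6
      linarith
    have h1 := mul_le_mul ih hm (len_nonneg _) (pow_nonneg (by linarith) _)
    refine h1.trans ?_
    rw [← pow_mul, ← pow_succ', ← pow_add]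
    refine pow_le_pow_right₀ hc1 ?_
    rw [pow_succ]
    omega

/-- the constant for the rows -/
noncomputable def cR (a b : 𝓞 K) (j : Fin 2) : ℝ :=
  16 * lf a b j * (1 + hs a + hs b) ^ 2 * cE a b ^ 2

lemma one_le_cR : 1 ≤ cR a b j := by
  have h1 := one_le_lf (a := a) (b := b) (j := j)
  have h2 : (1 : ℝ) ≤ (1 + hs a + hs b) ^ 2 :=
    one_le_pow₀ (by linarith [hs_nonneg a, hs_nonneg b])
  have h3 : (1 : ℝ) ≤ cE a b ^ 2 := one_le_pow₀ one_le_cE
  unfold cR
  have h4 : (1 : ℝ) ≤ 16 * lf a b j := by linarith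
  have h5 : (1 : ℝ) ≤ 16 * lf a b j * (1 + hs a + hs b) ^ 2 :=
    one_le_mul_of_one_le_of_one_le h4 h2
  exact one_le_mul_of_one_le_of_one_le h5 h3

lemma cR_pow (a b : 𝓞 K) (j : Fin 2) (k : ℕ) :
    16 * lf a b j * (1 + hs a + hs b) ^ 2 * (cE a b ^ (4 ^ k)) ^ 2 ≤ cR a b j ^ (4 ^ k) := by
  have h1 := one_le_lf (a := a) (b := b) (j := j)
  have h2 : (1 : ℝ) ≤ (1 + hs a + hs b) ^ 2 :=
    one_le_pow₀ (by linarith [hs_nonneg a, hs_nonneg b])
  have h4 : (1 : ℝ) ≤ 16 * lf a b j := by linarith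
  have h5 : (1 : ℝ) ≤ 16 * lf a b j * (1 + hs a + hs b) ^ 2 :=
    one_le_mul_of_one_le_of_one_le h4 h2
  unfold cR
  rw [mul_pow (16 * lf a b j * (1 + hs a + hs b) ^ 2), ← pow_mul (cE a b), ← pow_mul (cE a b),
    mul_comm (4 ^ k) 2]
  refine mul_le_mul_of_nonneg_right ?_ (pow_nonneg (zero_le_one.trans one_le_cE) _)
  exact le_self_pow₀ h5 (by positivity)

lemma ln_rows (a b : 𝓞 K) (j : Fin 2) (k : ℕ) : ln (eA a b j k) ≤ cR a b j ^ (4 ^ k) ∧
    ln (eP a b j k) ≤ cR a b j ^ (4 ^ k) ∧ ln (eM a b j k) ≤ cR a b j ^ (4 ^ k) ∧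
    ln (eC a b j k) ≤ cR a b j ^ (4 ^ k) := by
  have ha := hs_nonneg a
  have hb := hs_nonneg b
  have hc1 := one_le_cE (a := a) (b := b)
  have hl := one_le_lf (a := a) (b := b) (j := j)
  set L : ℝ := cE a b ^ (4 ^ k) with hLdef
  have hL1 : 1 ≤ L := one_le_pow₀ hc1
  obtain ⟨hp0, hq0⟩ := len_pjqj a b j k
  have ho0 := len_oj a b j k
  have hp : len (pj a b j k) ≤ L := hp0.trans (pow_le_pow_right₀ hc1 (Nat.sub_le _ _))
  have hq : len (qj a b j k) ≤ L := hq0.trans (pow_le_pow_right₀ hc1 (Nat.sub_le _ _))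
  have ho : len (oj a b j k) ≤ L ^ 2 := by
    refine ho0.trans ?_
    rw [hLdef, ← pow_mul]
    refine pow_le_pow_right₀ hc1 ?_
    have : 1 ≤ 4 ^ k := Nat.one_le_pow _ _ (by norm_num)
    omega
  have hp1 := len_nonneg (pj a b j k)
  have hq1 := len_nonneg (qj a b j k)
  have ho1 := len_nonneg (oj a b j k)
  have hfin := cR_pow a b j k
  rw [← hLdef] at hfin
  have hu : (1 : ℝ) ≤ 1 + hs a + hs b := by linarith
  have hLL : 1 ≤ L ^ 2 := one_le_pow₀ hL1
  -- products with the variable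
  have hX : ∀ P : M3 K, len (X 0 * P) ≤ len P := fun P => by
    refine (len_mul _ _).trans ?_
    rw [len_X, one_mul]
  have hCa : ∀ P : M3 K, len (C a * P) ≤ hs a * len P := fun P => by
    refine (len_mul _ _).trans ?_
    rw [len_C]
  have hA : len ((X 0 * qj a b j k - pj a b j k) ^ 2) ≤ 4 * L ^ 2 := by
    refine (len_pow _ _).trans ?_
    have h1 : len (X 0 * qj a b j k - pj a b j k) ≤ 2 * L :=
      (len_sub _ _).trans (by linarith [hX (qj a b j k)])
    have h2 := pow_le_pow_left₀ (len_nonneg _) h1 2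
    linarith [h2]
  have hal : len (al a b j k) ≤ 4 * (1 + hs a + hs b) * L ^ 2 := by
    unfold al
    refine (len_add _ _).trans ?_
    have h1 : len (X 0 * qj a b j k + pj a b j k) ≤ 2 * L :=
      (len_add _ _).trans (by linarith [hX (qj a b j k)])
    have h2 : len (X 0 * pj a b j k + C a * qj a b j k) ≤ (1 + hs a) * L := by
      refine (len_add _ _).trans ?_
      have := hCa (qj a b j k)
      have h3 := mul_le_mul_of_nonneg_left hq ha
      linarith [hX (pj a b j k)]
    have h3 : len ((X 0 * qj a b j k + pj a b j k) * (X 0 * pj a b j k + C a * qj a b j k)) ≤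
        (2 * L) * ((1 + hs a) * L) :=
      (len_mul _ _).trans (mul_le_mul h1 h2 (len_nonneg _) (by positivity))
    have h4 : len (2 * C b * qj a b j k ^ 2) ≤ (2 * hs b) * L ^ 2 := by
      have e : 2 * C b * qj a b j k ^ 2 = C (((2 : ℕ) : 𝓞 K) * b) * qj a b j k ^ 2 := by
        simp only [map_mul, map_natCast]
        push_cast
        ring
      rw [e]
      refine (len_mul _ _).trans ?_
      rw [len_C]
      refine mul_le_mul ((hs_two_mul 2 b).trans (le_of_eq (by norm_num))) ?_ (len_nonneg _)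
        (by positivity)
      exact (len_pow _ _).trans (pow_le_pow_left₀ hq1 hq 2)
    nlinarith [mul_nonneg ha (zero_le_one.trans hLL), mul_nonneg hb (zero_le_one.trans hLL)]
  have h2o : len (2 * oj a b j k) ≤ 2 * L ^ 2 := by
    have e : 2 * oj a b j k = C ((2 : ℕ) : 𝓞 K) * oj a b j k := by
      simp only [map_natCast]
      push_cast
      ring
    rw [e]
    refine (len_mul _ _).trans ?_
    rw [len_C, hs_nat]
    push_cast
    linarith
  have hu2 : (1 + hs a + hs b) ≤ (1 + hs a + hs b) ^ 2 := by nlinarith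
  have hbig : 4 * (1 + hs a + hs b) * L ^ 2 + lf a b j * (2 * L ^ 2) ≤
      16 * lf a b j * (1 + hs a + hs b) ^ 2 * L ^ 2 := by
    have h1 : (1 + hs a + hs b) ^ 2 ≤ lf a b j * (1 + hs a + hs b) ^ 2 := by nlinarith
    have h2 : lf a b j ≤ lf a b j * (1 + hs a + hs b) ^ 2 := by nlinarith
    have h3 : 4 * (1 + hs a + hs b) + lf a b j * 2 ≤
        16 * (lf a b j * (1 + hs a + hs b) ^ 2) := by
      nlinarith
    nlinarith [mul_le_mul_of_nonneg_right h3 (zero_le_one.trans hLL)]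
  refine ⟨?_, ?_, ?_, ?_⟩
  · unfold ln eA
    simp only
    rw [len_zero, mul_zero, add_zero]
    refine hA.trans (le_trans ?_ (hbig.trans hfin))
    have : 0 ≤ lf a b j * (2 * L ^ 2) := by positivity
    nlinarith
  · unfold ln eP
    simp only
    refine le_trans ?_ (hbig.trans hfin)
    exact add_le_add hal (mul_le_mul_of_nonneg_left h2o (zero_le_one.trans hl))
  · unfold ln eM
    simp only
    rw [len_neg]
    refine le_trans ?_ (hbig.trans hfin)
    exact add_le_add hal (mul_le_mul_of_nonneg_left h2o (zero_le_one.trans hl))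
  · unfold ln eC
    simp only
    rw [len_zero, mul_zero, add_zero]
    refine le_trans ?_ hfin
    refine (len_sub _ _).trans ?_
    have h1 : len (X 0 * pj a b j k - C a * qj a b j k) ≤ (1 + hs a) * L := by
      refine (len_sub _ _).trans ?_
      have := hCa (qj a b j k)
      have h3 := mul_le_mul_of_nonneg_left hq ha
      linarith [hX (pj a b j k)]
    have h2 : len ((X 0 * pj a b j k - C a * qj a b j k) ^ 2) ≤ ((1 + hs a) * L) ^ 2 :=
      (len_pow _ _).trans (pow_le_pow_left₀ (len_nonneg _) h1 2)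
    have h3 : len (4 * C b * qj a b j k * (X 0 * qj a b j k + pj a b j k)) ≤
        (4 * hs b * L) * (2 * L) := by
      refine (len_mul _ _).trans (mul_le_mul ?_ ?_ (len_nonneg _) (by positivity))
      · have e : 4 * C b * qj a b j k = C (((4 : ℕ) : 𝓞 K) * b) * qj a b j k := by
          simp only [map_mul, map_natCast]
          push_cast
          ring
        rw [e]
        refine (len_mul _ _).trans ?_
        rw [len_C]
        exact mul_le_mul ((hs_two_mul 4 b).trans (le_of_eq (by norm_num))) hq (len_nonneg _)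
          (by positivity)
      · exact (len_add _ _).trans (by linarith [hX (qj a b j k)])
    have h4 : ((1 + hs a) * L) ^ 2 + (4 * hs b * L) * (2 * L) ≤
        16 * (1 + hs a + hs b) ^ 2 * L ^ 2 := by
      have h5 : (1 + hs a) ^ 2 + 8 * hs b ≤ 16 * (1 + hs a + hs b) ^ 2 := by nlinarith
      nlinarith [mul_le_mul_of_nonneg_right h5 (zero_le_one.trans hLL)]
    have h6 : 16 * (1 + hs a + hs b) ^ 2 * L ^ 2 ≤
        16 * lf a b j * (1 + hs a + hs b) ^ 2 * L ^ 2 := by
      have h7 : 0 ≤ 16 * (1 + hs a + hs b) ^ 2 * L ^ 2 := by positivity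
      nlinarith
    linarith

end ln

end Pool.Agent.J4H27.GC
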